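import Mathlib
import Pool.Agent.N646.TT.Few

/-!
Sums of multiplicative functions (helper36): powers of the singular series.
-/

set_option autoImplicit false

namespace Pool.Agent.L7h36.DS

open Finset Filter Topology
open Pool.Agent.N646.TT (gg fac_ge gg_nonneg)

/-- the sum over `d ≤ H` of a product over the prime factors `> z` -/
theorem sum_prod_le (φ : ℕ → ℝ) (hφ : ∀ p, 0 ≤ φ p) (z H : ℕ) :
    ∑ d ∈ Icc 1 H, ∏ p ∈ d.primeFactors.filter (fun p => z < p), (1 + φ p) ≤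
      H * Real.exp (∑ p ∈ (Icc (z + 1) H).filter Nat.Prime, φ p / p) := by
  classical
  obtain ⟨Q, hQ⟩ : ∃ Q, Q = (Icc (z + 1) H).filter Nat.Prime := ⟨_, rfl⟩
  have hQp : ∀ p ∈ Q, p.Prime := by
    intro p hp
    rw [hQ] at hp
    exact (mem_filter.1 hp).2
  have h1 : ∀ d ∈ Icc 1 H, ∏ p ∈ d.primeFactors.filter (fun p => z < p), (1 + φ p) =
      ∑ R ∈ Q.powerset, if (∏ p ∈ R, p) ∣ d then ∏ p ∈ R, φ p else 0 := by
    intro d hd
    obtain ⟨hd1, hd2⟩ := mem_Icc.1 hd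
    have e1 : d.primeFactors.filter (fun p => z < p) = Q.filter (fun p => p ∣ d) := by
      ext p
      rw [hQ, mem_filter, mem_filter, mem_filter, mem_Icc, Nat.mem_primeFactors]
      constructor
      · rintro ⟨⟨h1, h2, h3⟩, h4⟩
        exact ⟨⟨⟨h4, (Nat.le_of_dvd (by omega) h2).trans hd2⟩, h1⟩, h2⟩
      · rintro ⟨⟨⟨h1, h2⟩, h3⟩, h4⟩
        exact ⟨⟨h3, h4, by omega⟩, h1⟩
    rw [e1, prod_one_add, ← sum_filter]
    apply sum_congr _ fun _ _ => rfl
    ext R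
    rw [mem_powerset, mem_filter, mem_powerset]
    constructor
    · intro h
      refine ⟨h.trans (filter_subset _ _), ?_⟩
      apply Finset.prod_primes_dvd
      · intro p hp
        exact (hQp p (mem_filter.1 (h hp)).1).prime
      · intro p hp
        exact (mem_filter.1 (h hp)).2
    · rintro ⟨h2, h3⟩ p hp
      exact mem_filter.2 ⟨h2 hp, (dvd_prod_of_mem (fun p => p) hp).trans h3⟩
  rw [sum_congr rfl h1, sum_comm]
  have h2 : ∀ R ∈ Q.powerset, ∑ d ∈ Icc 1 H, (if (∏ p ∈ R, p) ∣ d then ∏ p ∈ R, φ p else 0) ≤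
      H * ∏ p ∈ R, (φ p / p) := by
    intro R hR
    have hR' := mem_powerset.1 hR
    rw [← sum_filter, sum_const, nsmul_eq_mul]
    have h4 : ((Icc 1 H).filter (fun k => (∏ p ∈ R, p) ∣ k)).card = H / (∏ p ∈ R, p) := by
      have := Nat.Ioc_filter_dvd_card_eq_div H (∏ p ∈ R, p)
      exact this
    rw [h4, prod_div_distrib]
    have h5 : ((H / (∏ p ∈ R, p) : ℕ) : ℝ) ≤ (H : ℝ) / ((∏ p ∈ R, p : ℕ) : ℝ) := Nat.cast_div_le
    have h6 : 0 ≤ ∏ p ∈ R, φ p := prod_nonneg fun p _ => hφ p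
    calc ((H / (∏ p ∈ R, p) : ℕ) : ℝ) * ∏ p ∈ R, φ p ≤ (H : ℝ) / ((∏ p ∈ R, p : ℕ) : ℝ) * ∏ p ∈ R, φ p :=
          mul_le_mul_of_nonneg_right h5 h6
      _ = H * ((∏ p ∈ R, φ p) / ∏ p ∈ R, (p : ℝ)) := by
          push_cast
          ring
  refine (sum_le_sum h2).trans ?_
  rw [← mul_sum, ← prod_one_add, ← hQ]
  apply mul_le_mul_of_nonneg_left _ (Nat.cast_nonneg _)
  rw [Real.exp_sum]
  apply Finset.prod_le_prod
  · intro p _
    have := hφ p
    positivity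
  · intro p _
    have := Real.add_one_le_exp (φ p / p)
    linarith

theorem pow_one_add_le (k : ℕ) {x : ℝ} (h0 : 0 ≤ x) (h1 : x ≤ 1) : (1 + x) ^ k ≤ 1 + 2 ^ k * x := by
  have key : (1 + x) ^ k ≤ 1 + (2 ^ k - 1) * x := by
    induction k with
    | zero => simp
    | succ k ih =>
      rw [pow_succ, pow_succ]
      have h2 : (1 : ℝ) ≤ 2 ^ k := one_le_pow₀ (by norm_num)
      have h3 : 0 ≤ (2 ^ k - 1) * (x * (1 - x)) :=
        mul_nonneg (by linarith) (mul_nonneg h0 (by linarith))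
      calc (1 + x) ^ k * (1 + x) ≤ (1 + (2 ^ k - 1) * x) * (1 + x) := mul_le_mul_of_nonneg_right ih (by linarith)
        _ ≤ 1 + (2 ^ k * 2 - 1) * x := by nlinarith
  linarith

theorem tail_sum (z H : ℕ) (hz : 2 ≤ z) : ∑ n ∈ Icc (z + 1) H, 1 / ((n : ℝ) * ((n : ℝ) - 2)) ≤ 2 / (z - 1 : ℝ) := by
  have hz' : (2 : ℝ) ≤ z := by exact_mod_cast hz
  have h : ∀ m : ℕ, ∑ n ∈ Icc (z + 1) (z + m), 1 / ((n : ℝ) * ((n : ℝ) - 2)) ≤ 2 / (z - 1 : ℝ) - 2 / ((z : ℝ) + m - 1) := by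
    intro m
    induction m with
    | zero =>
      rw [Nat.add_zero, Icc_eq_empty (by omega), sum_empty]
      simp
    | succ m ih =>
      rw [← Nat.add_assoc, sum_Icc_succ_top (by omega)]
      have hm : (0 : ℝ) ≤ m := Nat.cast_nonneg _
      have h1 : 1 / (((z + m + 1 : ℕ) : ℝ) * (((z + m + 1 : ℕ) : ℝ) - 2)) ≤
          2 / ((z : ℝ) + m - 1) - 2 / ((z : ℝ) + (m + 1 : ℕ) - 1) := by
        push_cast
        have e1 : (z : ℝ) + m + 1 - 2 = (z : ℝ) + m - 1 := by ring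
        have e2 : (z : ℝ) + (m + 1) - 1 = (z : ℝ) + m := by ring
        rw [e1, e2, div_sub_div _ _ (by linarith : (z : ℝ) + m - 1 ≠ 0) (by linarith : (z : ℝ) + m ≠ 0),
          div_le_div_iff₀ (by nlinarith) (by nlinarith)]
        nlinarith [mul_nonneg (show (0:ℝ) ≤ z + m - 1 by linarith) (show (0:ℝ) ≤ z + m by linarith)]
      linarith
  by_cases hH : z ≤ H
  · obtain ⟨m, rfl⟩ : ∃ m, H = z + m := ⟨H - z, by omega⟩
    have h1 := h m
    have h2 : 0 ≤ 2 / ((z : ℝ) + m - 1) := by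
      have : (0 : ℝ) ≤ m := Nat.cast_nonneg _
      apply div_nonneg <;> linarith
    linarith
  · rw [Icc_eq_empty (by omega), sum_empty]
    apply div_nonneg <;> linarith

/-- the part of `gg` with the primes `> z` -/
noncomputable def hz (z d : ℕ) : ℝ :=
  ∏ p ∈ d.primeFactors.filter (fun p : ℕ => z < p), (((p : ℝ) - 1) / ((p : ℝ) - 2))

theorem hz_two (d : ℕ) : hz 2 d = gg d := rfl

theorem one_le_hz {z : ℕ} (hz2 : 2 ≤ z) (d : ℕ) : 1 ≤ hz z d := by
  unfold hz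
  have h : ∀ s : Finset ℕ, (∀ p ∈ s, 2 < p) → (1 : ℝ) ≤ ∏ p ∈ s, (((p : ℝ) - 1) / ((p : ℝ) - 2)) := by
    intro s hs
    have := Finset.prod_le_prod (s := s) (f := fun _ => (1 : ℝ)) (g := fun p : ℕ => (((p : ℝ) - 1) / ((p : ℝ) - 2)))
      (fun _ _ => zero_le_one) (fun p hp => fac_ge (hs p hp))
    rwa [prod_const_one] at this
  exact h _ fun p hp => hz2.trans_lt (mem_filter.1 hp).2

/-- **the moments of the singular series** -/
theorem mom (k z H : ℕ) (hz2 : 2 ≤ z) :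
    ∑ d ∈ Icc 1 H, hz z d ^ k ≤ H * Real.exp (2 ^ k * (2 / (z - 1 : ℝ))) := by
  have hzR : (2 : ℝ) ≤ z := by exact_mod_cast hz2
  obtain ⟨φ, hφ⟩ : ∃ φ : ℕ → ℝ, φ = fun p : ℕ => if 2 < p then (((p : ℝ) - 1) / ((p : ℝ) - 2)) ^ k - 1 else 0 := ⟨_, rfl⟩
  have hφ0 : ∀ p, 0 ≤ φ p := by
    intro p
    rw [hφ]
    by_cases hp : 2 < p
    · simp only [hp, if_true]
      have := one_le_pow₀ (fac_ge hp) (n := k)
      linarith
    · simp only [hp, if_false]; exact le_rfl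
  have h1 := sum_prod_le φ hφ0 z H
  have e1 : ∀ d ∈ Icc 1 H, ∏ p ∈ d.primeFactors.filter (fun p => z < p), (1 + φ p) = hz z d ^ k := by
    intro d _
    unfold hz
    rw [← prod_pow]
    apply prod_congr rfl
    intro p hp
    have hp2 : 2 < p := hz2.trans_lt (mem_filter.1 hp).2
    rw [hφ]
    simp only [hp2, if_true]
    ring
  rw [sum_congr rfl e1] at h1
  refine h1.trans (mul_le_mul_of_nonneg_left (Real.exp_le_exp.2 ?_) (Nat.cast_nonneg _))
  have h2 : ∑ p ∈ (Icc (z + 1) H).filter Nat.Prime, φ p / p ≤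
      ∑ p ∈ Icc (z + 1) H, 2 ^ k * (1 / ((p : ℝ) * ((p : ℝ) - 2))) := by
    refine (sum_le_sum fun p hp => ?_).trans (sum_le_sum_of_subset_of_nonneg (filter_subset _ _) fun p hp _ => ?_)
    · have hp1 := (mem_Icc.1 (mem_filter.1 hp).1).1
      have hp2 : 2 < p := by omega
      have hp3 : (3 : ℝ) ≤ p := by exact_mod_cast hp2
      rw [hφ]
      simp only [hp2, if_true]
      have h3 : ((p : ℝ) - 1) / ((p : ℝ) - 2) = 1 + 1 / ((p : ℝ) - 2) := by
        have : (p : ℝ) - 2 ≠ 0 := by linarith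
        field_simp
        ring
      have h4 : (0 : ℝ) ≤ 1 / ((p : ℝ) - 2) := by
        apply div_nonneg <;> linarith
      have h5 : 1 / ((p : ℝ) - 2) ≤ 1 := by
        rw [div_le_one (by linarith)]; linarith
      have h6 := pow_one_add_le k h4 h5
      rw [h3]
      calc ((1 + 1 / ((p : ℝ) - 2)) ^ k - 1) / p ≤ (2 ^ k * (1 / ((p : ℝ) - 2))) / p := by
            apply div_le_div_of_nonneg_right _ (by linarith)
            linarith
        _ = 2 ^ k * (1 / ((p : ℝ) * ((p : ℝ) - 2))) := by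
            have : (p : ℝ) - 2 ≠ 0 := by linarith
            have : (p : ℝ) ≠ 0 := by linarith
            field_simp
    · have hp1 := (mem_Icc.1 hp).1
      have hp3 : (3 : ℝ) ≤ p := by exact_mod_cast (by omega : 3 ≤ p)
      have : 0 ≤ 1 / ((p : ℝ) * ((p : ℝ) - 2)) := by
        apply div_nonneg (by norm_num)
        nlinarith
      positivity
  refine h2.trans ?_
  rw [← mul_sum]
  exact mul_le_mul_of_nonneg_left (tail_sum z H hz2) (by positivity)

theorem hz_mul {z t d : ℕ} (hz2 : 2 ≤ z) (ht : t ≠ 0) (hd : d ≠ 0) : hz z (t * d) ≤ hz z t * hz z d := by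
  have h1 : (t * d).primeFactors.filter (fun p : ℕ => z < p) =
      t.primeFactors.filter (fun p : ℕ => z < p) ∪ d.primeFactors.filter (fun p : ℕ => z < p) := by
    rw [Nat.primeFactors_mul ht hd, filter_union]
  have h3 : ∀ s : Finset ℕ, (∀ p ∈ s, 2 < p) → (1 : ℝ) ≤ ∏ p ∈ s, (((p : ℝ) - 1) / ((p : ℝ) - 2)) := by
    intro s hs
    have := Finset.prod_le_prod (s := s) (f := fun _ => (1 : ℝ)) (g := fun p : ℕ => (((p : ℝ) - 1) / ((p : ℝ) - 2)))
      (fun _ _ => zero_le_one) (fun p hp => fac_ge (hs p hp))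
    rwa [prod_const_one] at this
  unfold hz
  rw [h1, ← prod_union_inter]
  have h2 : (1 : ℝ) ≤ ∏ p ∈ t.primeFactors.filter (fun p : ℕ => z < p) ∩
      d.primeFactors.filter (fun p : ℕ => z < p), (((p : ℝ) - 1) / ((p : ℝ) - 2)) :=
    h3 _ fun p hp => hz2.trans_lt (mem_filter.1 (mem_inter.1 hp).1).2
  have h4 : (0 : ℝ) ≤ ∏ p ∈ t.primeFactors.filter (fun p : ℕ => z < p) ∪
      d.primeFactors.filter (fun p : ℕ => z < p), (((p : ℝ) - 1) / ((p : ℝ) - 2)) := by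
    refine zero_le_one.trans (h3 _ fun p hp => ?_)
    rcases mem_union.1 hp with h | h
    · exact hz2.trans_lt (mem_filter.1 h).2
    · exact hz2.trans_lt (mem_filter.1 h).2
  nlinarith

end Pool.Agent.L7h36.DS
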