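import Mathlib
import Pool.Agent.L7h36.DS.Mul

/-!
The classes modulo the product of the primes up to `z` (helper36).
-/

set_option autoImplicit false

namespace Pool.Agent.L7h36.DS

open Finset Filter Topology
open Pool.Agent.N646.TT (gg fac_ge gg_nonneg)

/-- the number of the classes `b` modulo `W` for which `b + u` and `b + v` are prime to `W` -/
def G (W u v : ℕ) : ℕ := ((range W).filter (fun b => (b + u).Coprime W ∧ (b + v).Coprime W)).card

theorem cop_mod {m n b u : ℕ} (h : m ∣ n) : (b % n + u).Coprime m ↔ (b + u).Coprime m := by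
  obtain ⟨k, rfl⟩ := h
  have h1 : b + u = (b % (m * k) + u) + m * (k * (b / (m * k))) := by
    conv_lhs => rw [← Nat.mod_add_div b (m * k)]
    ring
  rw [h1, Nat.coprime_add_mul_left_left]

theorem cop_mod' {m b u : ℕ} : (b % m + u).Coprime m ↔ (b + u).Coprime m := cop_mod (dvd_refl m)

theorem G_mul {m n : ℕ} (hm : 0 < m) (hn : 0 < n) (h : m.Coprime n) (u v : ℕ) :
    G (m * n) u v = G m u v * G n u v := by
  unfold G
  rw [← card_product]
  apply card_bij (fun b _ => (b % m, b % n))
  · intro b hb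
    obtain ⟨h1, h2, h3⟩ := mem_filter.1 hb
    rw [mem_product, mem_filter, mem_filter, mem_range, mem_range]
    refine ⟨⟨Nat.mod_lt _ hm, ?_, ?_⟩, Nat.mod_lt _ hn, ?_, ?_⟩
    · exact cop_mod'.2 (h2.coprime_mul_right_right)
    · exact cop_mod'.2 (h3.coprime_mul_right_right)
    · exact cop_mod'.2 (h2.coprime_mul_left_right)
    · exact cop_mod'.2 (h3.coprime_mul_left_right)
  · intro b hb b' hb' h1
    have h2 : b % m = b' % m := (Prod.mk.inj h1).1
    have h3 : b % n = b' % n := (Prod.mk.inj h1).2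
    have h4 : b ≡ b' [MOD m * n] := (Nat.modEq_and_modEq_iff_modEq_mul h).1 ⟨h2, h3⟩
    have h5 := mem_range.1 (mem_filter.1 hb).1
    have h6 := mem_range.1 (mem_filter.1 hb').1
    exact Nat.ModEq.eq_of_lt_of_lt h4 h5 h6
  · rintro ⟨c, d⟩ hcd
    rw [mem_product, mem_filter, mem_filter, mem_range, mem_range] at hcd
    obtain ⟨⟨h1, h2, h3⟩, h4, h5, h6⟩ := hcd
    obtain ⟨k, hk1, hk2⟩ := Nat.chineseRemainder h c d
    refine ⟨k % (m * n), ?_, ?_⟩
    · rw [mem_filter, mem_range]
      have hc : k % m = c := by rw [hk1, Nat.mod_eq_of_lt h1]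
      have hd : k % n = d := by rw [hk2, Nat.mod_eq_of_lt h4]
      refine ⟨Nat.mod_lt _ (Nat.mul_pos hm hn), ?_, ?_⟩
      · rw [cop_mod']
        apply Nat.Coprime.mul_right
        · rw [← cop_mod', hc]; exact h2
        · rw [← cop_mod', hd]; exact h5
      · rw [cop_mod']
        apply Nat.Coprime.mul_right
        · rw [← cop_mod', hc]; exact h3
        · rw [← cop_mod', hd]; exact h6
    · refine Prod.ext ?_ ?_
      · show k % (m * n) % m = c
        rw [Nat.mod_mul_right_mod, hk1, Nat.mod_eq_of_lt h1]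
      · show k % (m * n) % n = d
        rw [Nat.mod_mul_left_mod, hk2, Nat.mod_eq_of_lt h4]

theorem G_prime {p : ℕ} (hp : p.Prime) (u v : ℕ) :
    G p u v = p - (if u ≡ v [MOD p] then 1 else 2) := by
  have : Fact p.Prime := ⟨hp⟩
  have h1 : G p u v = ((univ : Finset (ZMod p)).filter (fun b => b ∉ ({-(u : ZMod p), -(v : ZMod p)} : Finset (ZMod p)))).card := by
    unfold G
    apply card_bij (fun (b : ℕ) _ => (b : ZMod p))
    · intro b hb
      obtain ⟨h1, h2, h3⟩ := mem_filter.1 hb
      rw [mem_filter]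
      refine ⟨mem_univ _, ?_⟩
      rw [mem_insert, mem_singleton, not_or]
      have h4 : ∀ w : ℕ, (b + w).Coprime p → ¬ (b : ZMod p) = -(w : ZMod p) := by
        intro w hw h5
        have h6 : ((b + w : ℕ) : ZMod p) = 0 := by
          push_cast
          rw [h5]
          ring
        have h7 := (ZMod.natCast_eq_zero_iff _ _).1 h6
        exact (hp.coprime_iff_not_dvd.1 hw.symm) h7
      exact ⟨h4 u h2, h4 v h3⟩
    · intro b hb b' hb' h
      have h5 := mem_range.1 (mem_filter.1 hb).1
      have h6 := mem_range.1 (mem_filter.1 hb').1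
      exact Nat.ModEq.eq_of_lt_of_lt ((ZMod.natCast_eq_natCast_iff _ _ _).1 h) h5 h6
    · intro c hc
      obtain ⟨-, h2⟩ := mem_filter.1 hc
      rw [mem_insert, mem_singleton, not_or] at h2
      refine ⟨c.val, ?_, ZMod.natCast_zmod_val c⟩
      rw [mem_filter, mem_range]
      have h4 : ∀ w : ℕ, ¬ c = -(w : ZMod p) → (c.val + w).Coprime p := by
        intro w hw
        apply Nat.Coprime.symm
        rw [hp.coprime_iff_not_dvd]
        intro h5
        apply hw
        have h6 := (ZMod.natCast_eq_zero_iff _ _).2 h5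
        push_cast at h6
        rw [ZMod.natCast_zmod_val] at h6
        exact eq_neg_of_add_eq_zero_left h6
      exact ⟨ZMod.val_lt c, h4 u h2.1, h4 v h2.2⟩
  rw [h1, filter_notMem_eq_sdiff, card_sdiff_of_subset (subset_univ _), card_univ, ZMod.card]
  congr 1
  by_cases huv : u ≡ v [MOD p]
  · rw [if_pos huv]
    have h2 : (u : ZMod p) = v := (ZMod.natCast_eq_natCast_iff _ _ _).2 huv
    rw [h2, insert_eq_of_mem (mem_singleton_self _), card_singleton]
  · rw [if_neg huv]
    have h2 : -(u : ZMod p) ≠ -(v : ZMod p) := by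
      intro h3
      exact huv ((ZMod.natCast_eq_natCast_iff _ _ _).1 (neg_injective h3))
    rw [card_insert_of_notMem (by rw [mem_singleton]; exact h2), card_singleton]

theorem G_prod (s : Finset ℕ) (hs : ∀ p ∈ s, p.Prime) (u v : ℕ) :
    G (∏ p ∈ s, p) u v = ∏ p ∈ s, G p u v := by
  classical
  induction s using Finset.induction_on with
  | empty => simp [G]
  | insert q s hq ih =>
    rw [prod_insert hq, prod_insert hq, G_mul (hs q (mem_insert_self _ _)).pos
      (prod_pos fun p hp => (hs p (mem_insert_of_mem hp)).pos), ih fun p hp => hs p (mem_insert_of_mem hp)]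
    apply Nat.Coprime.prod_right
    intro p hp
    exact (Nat.coprime_primes (hs q (mem_insert_self _ _)) (hs p (mem_insert_of_mem hp))).2
      (fun h => hq (h ▸ hp))

/-- the primes `3 ≤ p ≤ z` -/
def Pz (z : ℕ) : Finset ℕ := (Icc 3 z).filter Nat.Prime

/-- the number `∏ (p - 2)` -/
noncomputable def cW (z : ℕ) : ℝ := ∏ p ∈ Pz z, ((p : ℝ) - 2)

/-- the part of the singular series with the primes `≤ z`, without constant -/
noncomputable def Sz (z d : ℕ) : ℝ :=
  if Even d then ∏ p ∈ (Pz z).filter (fun p => p ∣ d), (((p : ℝ) - 1) / ((p : ℝ) - 2)) else 0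

/-- the singular series, without the constant `2 C₂` -/
noncomputable def S (d : ℕ) : ℝ := if Even d then gg d else 0

theorem primorial_eq {z : ℕ} (hz : 2 ≤ z) : primorial z = 2 * ∏ p ∈ Pz z, p := by
  have h1 : (range (z + 1)).filter Nat.Prime = insert 2 (Pz z) := by
    ext p
    unfold Pz
    rw [mem_filter, mem_range, mem_insert, mem_filter, mem_Icc]
    constructor
    · rintro ⟨h1, h2⟩
      have := h2.two_le
      rcases Nat.eq_or_lt_of_le this with h3 | h3
      · exact Or.inl h3.symm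
      · exact Or.inr ⟨⟨h3, by omega⟩, h2⟩
    · rintro (h | h)
      · rw [h]
        exact ⟨by omega, Nat.prime_two⟩
      · exact ⟨by omega, h.2⟩
  unfold primorial
  rw [h1, prod_insert]
  unfold Pz
  rw [mem_filter, mem_Icc]
  omega

theorem pz_sub {z p : ℕ} (hp : p ∈ Pz z) : p.Prime ∧ 3 ≤ p ∧ p ≤ z ∧ (1 : ℝ) ≤ (p : ℝ) - 2 := by
  unfold Pz at hp
  rw [mem_filter, mem_Icc] at hp
  refine ⟨hp.2, hp.1.1, hp.1.2, ?_⟩
  have : (3 : ℝ) ≤ p := by exact_mod_cast hp.1.1
  linarith

theorem cW_pos (z : ℕ) : 0 < cW z := by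
  unfold cW
  apply prod_pos
  intro p hp
  have := (pz_sub hp).2.2.2
  linarith

/-- **the number of classes and the singular series** -/
theorem G_eq {z : ℕ} (hz : 2 ≤ z) {u v : ℕ} (huv : u ≤ v) : (G (primorial z) u v : ℝ) = cW z * Sz z (v - u) := by
  have h1 : primorial z = 2 * ∏ p ∈ Pz z, p := primorial_eq hz
  have h2 : G (primorial z) u v = G 2 u v * ∏ p ∈ Pz z, G p u v := by
    rw [h1, G_mul (by norm_num) (prod_pos fun p hp => (pz_sub hp).1.pos), G_prod _ fun p hp => (pz_sub hp).1]
    apply Nat.Coprime.prod_right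
    intro p hp
    exact (Nat.coprime_primes Nat.prime_two (pz_sub hp).1).2 (by have := (pz_sub hp).2.1; omega)
  rw [h2]
  have hdvd : ∀ p : ℕ, u ≡ v [MOD p] ↔ p ∣ v - u := fun p => Nat.modEq_iff_dvd' huv
  have h3 : G 2 u v = if Even (v - u) then 1 else 0 := by
    rw [G_prime Nat.prime_two]
    by_cases h : Even (v - u)
    · rw [if_pos h, if_pos ((hdvd 2).2 h.two_dvd)]
    · rw [if_neg h, if_neg]
      intro h4
      exact h (even_iff_two_dvd.2 ((hdvd 2).1 h4))
  rw [h3]
  unfold Sz
  by_cases h : Even (v - u)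
  · rw [if_pos h, if_pos h, one_mul]
    unfold cW
    rw [prod_filter, ← prod_mul_distrib]
    push_cast
    apply prod_congr rfl
    intro p hp
    obtain ⟨hpp, hp3, -, hp1⟩ := pz_sub hp
    rw [G_prime hpp]
    by_cases h4 : p ∣ v - u
    · rw [if_pos ((hdvd p).2 h4), if_pos h4, Nat.cast_sub (by omega)]
      have : (p : ℝ) - 2 ≠ 0 := by linarith
      field_simp
      push_cast
      ring
    · rw [if_neg (fun h5 => h4 ((hdvd p).1 h5)), if_neg h4, Nat.cast_sub (by omega)]
      push_cast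
      ring
  · rw [if_neg h, if_neg h]
    simp

theorem G_comm (W u v : ℕ) : G W u v = G W v u := by
  unfold G
  congr 1
  apply filter_congr
  intro b _
  exact and_comm

theorem S_nonneg (d : ℕ) : 0 ≤ S d := by
  unfold S
  split_ifs
  · exact gg_nonneg d
  · exact le_rfl

theorem Sz_nonneg (z d : ℕ) : 0 ≤ Sz z d := by
  unfold Sz
  split_ifs
  · apply prod_nonneg
    intro p hp
    have := (pz_sub (mem_filter.1 hp).1).2.2.2
    apply div_nonneg <;> linarith
  · exact le_rfl

/-- `S = Sz * hz` -/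
theorem S_eq {z d : ℕ} (hz2 : 2 ≤ z) (hd : 1 ≤ d) : S d = Sz z d * hz z d := by
  unfold S Sz
  by_cases h : Even d
  · rw [if_pos h, if_pos h]
    unfold gg hz
    have e1 : d.primeFactors.filter (fun p : ℕ => 2 < p) =
        (Pz z).filter (fun p => p ∣ d) ∪ d.primeFactors.filter (fun p : ℕ => z < p) := by
      ext p
      unfold Pz
      rw [mem_filter, mem_union, mem_filter, mem_filter, mem_filter, mem_Icc, Nat.mem_primeFactors]
      constructor
      · rintro ⟨⟨h1, h2, h3⟩, h4⟩
        by_cases h5 : p ≤ z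
        · exact Or.inl ⟨⟨⟨h4, h5⟩, h1⟩, h2⟩
        · exact Or.inr ⟨⟨h1, h2, h3⟩, by omega⟩
      · rintro (⟨⟨⟨h1, h2⟩, h3⟩, h4⟩ | ⟨⟨h1, h2, h3⟩, h4⟩)
        · exact ⟨⟨h3, h4, by omega⟩, by omega⟩
        · exact ⟨⟨h1, h2, h3⟩, by omega⟩
    rw [e1, prod_union]
    rw [disjoint_left]
    intro p hp hp'
    have h1 := (pz_sub (mem_filter.1 hp).1).2.2.1
    have h2 := (mem_filter.1 hp').2
    omega
  · rw [if_neg h, if_neg h, zero_mul]

theorem hz_mul_eq {z t d : ℕ} (ht : 1 ≤ t) (htz : t ≤ z) (hd : 1 ≤ d) : hz z (t * d) = hz z d := by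
  unfold hz
  congr 1
  rw [Nat.primeFactors_mul (by omega) (by omega), filter_union]
  have : t.primeFactors.filter (fun p : ℕ => z < p) = ∅ := by
    rw [filter_eq_empty_iff]
    intro p hp
    have := Nat.le_of_mem_primeFactors hp
    omega
  rw [this, empty_union]

end Pool.Agent.L7h36.DS
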