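import Mathlib
import Pool.Agent.H210_S.Comb

/-!
Several hereditary properties at once (helper36): if almost all `TT (i+1)`-tuples contain `TT i` elements which are
pairwise `P i`-good, for `i < m`, then at least the proportion `1 / (TT m - 1) - δ` of the pairs is good for all
`P i`, `i < m`, simultaneously.
-/

set_option autoImplicit false

namespace Pool.Agent.L7h36.DS

open Finset Pool.Agent.H362R2.CM Pool.Agent.H210S

/-- `2, 4, 11, 37, 130, ...` -/
def TT : ℕ → ℕ
  | 0 => 2
  | m + 1 => 18 * (TT m - 1) / 5 + 1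

theorem TT_ge (m : ℕ) : 2 ≤ TT m := by
  induction m with
  | zero => exact le_rfl
  | succ m ih =>
    show 2 ≤ 18 * (TT m - 1) / 5 + 1
    omega

theorem TT_succ (m : ℕ) : (18 / 5 : ℝ) * ((TT m - 1 : ℕ) : ℝ) < (TT (m + 1) : ℝ) := by
  have h1 : 18 * (TT m - 1) < 5 * TT (m + 1) := by
    show 18 * (TT m - 1) < 5 * (18 * (TT m - 1) / 5 + 1)
    omega
  have h2 : ((18 * (TT m - 1) : ℕ) : ℝ) < ((5 * TT (m + 1) : ℕ) : ℝ) := by exact_mod_cast h1
  push_cast at h2
  linarith

theorem TT_mono (m : ℕ) : TT m ≤ TT (m + 1) := by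
  have := TT_ge m
  show TT m ≤ 18 * (TT m - 1) / 5 + 1
  omega

theorem TT_le {a b : ℕ} (h : a ≤ b) : TT a ≤ TT b := monotone_nat_of_le_succ TT_mono h

/-- `v` contains `l` elements which are pairwise `P`-good -/
def Has (P : ℕ → ℕ → Prop) (l : ℕ) {T : ℕ} (v : Fin T → ℕ) : Prop :=
  ∃ g : Fin l → Fin T, Function.Injective g ∧ ∀ a b, a ≠ b → P (v (g a)) (v (g b))

open Classical in
/-- the tuples without `l` elements which are pairwise `P`-good -/
noncomputable def Bad (P : ℕ → ℕ → Prop) (V : Finset ℕ) (T l : ℕ) : Finset (Fin T → ℕ) :=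
  (Fintype.piFinset (fun _ : Fin T => V)).filter (fun v => ¬ Has P l v)

theorem exists_pair (P : ℕ → ℕ → ℕ → Prop) (m : ℕ) (v : Fin (TT m) → ℕ)
    (h : ∀ i < m, ∀ e : Fin (TT (i + 1)) → Fin (TT m), Function.Injective e → Has (P i) (TT i) (fun a => v (e a))) :
    ∃ a b, a ≠ b ∧ ∀ i < m, P i (v a) (v b) := by
  have key : ∀ j n : ℕ, n + j = m → ∃ e : Fin (TT n) → Fin (TT m), Function.Injective e ∧
      ∀ i, n ≤ i → i < m → ∀ a b, a ≠ b → P i (v (e a)) (v (e b)) := by
    intro j
    induction j with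
    | zero =>
      intro n hn
      rw [Nat.add_zero] at hn
      subst hn
      exact ⟨id, Function.injective_id, fun i h1 h2 => by omega⟩
    | succ j ih =>
      intro n hn
      obtain ⟨e, he, h1⟩ := ih (n + 1) (by omega)
      obtain ⟨g, hg, h2⟩ := h n (by omega) e he
      refine ⟨fun a => e (g a), he.comp hg, fun k hk1 hk2 a b hab => ?_⟩
      rcases Nat.eq_or_lt_of_le hk1 with h3 | h3
      · rw [← h3]
        exact h2 a b hab
      · exact h1 k (by omega) hk2 _ _ (fun h4 => hab (hg h4))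
  obtain ⟨e, he, h1⟩ := key m 0 (by omega)
  refine ⟨e ⟨0, by decide⟩, e ⟨1, by decide⟩, fun h2 => ?_, fun i hi => h1 i (by omega) hi _ _ ?_⟩
  · have := he h2
    simp at this
  · simp

/-- two elements are bad if they are not `P i`-good for some `i < m` -/
def Ubad (P : ℕ → ℕ → ℕ → Prop) (m : ℕ) (x y : ℕ) : Prop := ¬ ∀ i < m, P i x y

/-- the constant of `clq_le` -/
def CC (m : ℕ) : ℕ := ∑ i ∈ range m, TT m ^ TT (i + 1)

open Classical in
/-- the tuples for which the sub-tuple along `e` is bad -/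
noncomputable def FF (P : ℕ → ℕ → ℕ → Prop) (V : Finset ℕ) (m i : ℕ) (e : Fin (TT (i + 1)) → Fin (TT m)) :
    Finset (Fin (TT m) → ℕ) :=
  (Fintype.piFinset (fun _ : Fin (TT m) => V)).filter
      (fun f => Function.Injective e ∧ ¬ Has (P i) (TT i) (fun a => f (e a)))

theorem clq_le (P : ℕ → ℕ → ℕ → Prop) (m : ℕ) (V : Finset ℕ) (ε₁ : ℝ) (hε₁ : 0 ≤ ε₁)
    (h : ∀ i < m, ((Bad (P i) V (TT (i + 1)) (TT i)).card : ℝ) ≤ ε₁ * (V.card : ℝ) ^ TT (i + 1)) :
    ((clq V (Ubad P m) (TT m)).card : ℝ) ≤ CC m * ε₁ * (V.card : ℝ) ^ TT m := by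
  classical
  have h1 : clq V (Ubad P m) (TT m) ⊆ (range m).biUnion (fun i => univ.biUnion (fun e => FF P V m i e)) := by
    intro v hv
    obtain ⟨h2, h3⟩ := mem_clq.1 hv
    by_contra hcon
    have h4 : ∀ i < m, ∀ e : Fin (TT (i + 1)) → Fin (TT m), Function.Injective e →
        Has (P i) (TT i) (fun a => v (e a)) := by
      intro i hi e he
      by_contra hh
      apply hcon
      rw [mem_biUnion]
      refine ⟨i, mem_range.2 hi, ?_⟩
      rw [mem_biUnion]
      refine ⟨e, mem_univ _, ?_⟩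
      unfold FF
      exact mem_filter.2 ⟨Fintype.mem_piFinset.2 h2, he, hh⟩
    obtain ⟨a, b, hab, h5⟩ := exists_pair P m v h4
    exact h3 a b hab h5
  have h2 : ∀ i ∈ range m, ∀ e : Fin (TT (i + 1)) → Fin (TT m), ((FF P V m i e).card : ℝ) ≤ ε₁ * (V.card : ℝ) ^ TT m := by
    intro i hi e
    have hi' := mem_range.1 hi
    by_cases he : Function.Injective e
    · have h3 : FF P V m i e ⊆ (Fintype.piFinset (fun _ : Fin (TT m) => V)).filter
          (fun f => ¬ Has (P i) (TT i) (fun a => f (e a))) := by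
        unfold FF
        intro f hf
        obtain ⟨h4, h5⟩ := mem_filter.1 hf
        exact mem_filter.2 ⟨h4, h5.2⟩
      have h4 : (FF P V m i e).card ≤ (Bad (P i) V (TT (i + 1)) (TT i)).card * V.card ^ (TT m - TT (i + 1)) := by
        refine (card_le_card h3).trans ?_
        unfold Bad
        refine (le_of_eq ?_).trans ((fiber V e he (fun w => ¬ Has (P i) (TT i) w)).trans (le_of_eq ?_))
        · congr
        · congr
      have h5 : ((FF P V m i e).card : ℝ) ≤ ((Bad (P i) V (TT (i + 1)) (TT i)).card : ℝ) *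
          (V.card : ℝ) ^ (TT m - TT (i + 1)) := by
        exact_mod_cast h4
      refine h5.trans ((mul_le_mul_of_nonneg_right (h i hi') (by positivity)).trans (le_of_eq ?_))
      rw [mul_assoc, ← pow_add]
      congr 2
      have := TT_le (show i + 1 ≤ m by omega)
      omega
    · have h3 : FF P V m i e = ∅ := by
        unfold FF
        exact filter_eq_empty_iff.2 fun f _ hf => he hf.1
      rw [h3, card_empty, Nat.cast_zero]
      positivity
  have h3 : ((clq V (Ubad P m) (TT m)).card : ℝ) ≤ ∑ i ∈ range m, ∑ e : Fin (TT (i + 1)) → Fin (TT m),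
      ((FF P V m i e).card : ℝ) := by
    have h4 : (clq V (Ubad P m) (TT m)).card ≤ ∑ i ∈ range m, ∑ e : Fin (TT (i + 1)) → Fin (TT m), (FF P V m i e).card :=
      (card_le_card h1).trans (card_biUnion_le.trans (sum_le_sum fun i _ => card_biUnion_le))
    exact_mod_cast h4
  refine h3.trans ((sum_le_sum fun i hi => sum_le_sum fun e _ => h2 i hi e).trans (le_of_eq ?_))
  have h4 : ∀ i ∈ range m, ∑ _e : Fin (TT (i + 1)) → Fin (TT m), ε₁ * (V.card : ℝ) ^ TT m =
      ((TT m ^ TT (i + 1) : ℕ) : ℝ) * (ε₁ * (V.card : ℝ) ^ TT m) := by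
    intro i _
    rw [sum_const, card_univ, Fintype.card_fun, Fintype.card_fin, Fintype.card_fin, nsmul_eq_mul]
  rw [sum_congr rfl h4, ← sum_mul]
  unfold CC
  push_cast
  ring

open Classical in
/-- **the proportion of the pairs which are good for all `P i`** -/
theorem dense_pairs (m : ℕ) (δ : ℝ) (hδ : 0 < δ) : ∃ ε₁ : ℝ, 0 < ε₁ ∧ ∀ (P : ℕ → ℕ → ℕ → Prop),
    (∀ i x y, P i x y → P i y x) → ∀ V : Finset ℕ,
    (∀ i < m, ((Bad (P i) V (TT (i + 1)) (TT i)).card : ℝ) ≤ ε₁ * (V.card : ℝ) ^ TT (i + 1)) →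
    (1 / ((TT m : ℝ) - 1) - δ) * (V.card : ℝ) ^ 2 ≤
      (((V ×ˢ V).filter (fun z => ∀ i < m, P i z.1 z.2)).card : ℝ) := by
  obtain ⟨r, hr⟩ : ∃ r, TT m = r + 1 := ⟨TT m - 1, by have := TT_ge m; omega⟩
  have hr1 : 1 ≤ r := by have := TT_ge m; omega
  have hCC : (0 : ℝ) ≤ CC m := Nat.cast_nonneg _
  refine ⟨δ ^ r / (2 * (CC m + 1)), by positivity, fun P hP V hV => ?_⟩
  rcases Nat.eq_zero_or_pos V.card with h0 | h0
  · rw [h0]
    push_cast
    rw [zero_pow (by norm_num), mul_zero]
    positivity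
  by_contra hcon
  push Not at hcon
  have hsym : ∀ x y, Ubad P m x y → Ubad P m y x := by
    intro x y h h'
    exact h fun i hi => hP i y x (h' i hi)
  have hv : (0 : ℝ) < V.card := by exact_mod_cast h0
  -- the bad pairs
  have h1 : ((V.card : ℝ)) ^ 2 ≤ ((clq V (Ubad P m) 2).card : ℝ) +
      (((V ×ˢ V).filter (fun z => ∀ i < m, P i z.1 z.2)).card : ℝ) := by
    have h2 : (V ×ˢ V).card ≤ (clq V (Ubad P m) 2).card +
        ((V ×ˢ V).filter (fun z => ∀ i < m, P i z.1 z.2)).card := by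
      rw [← card_filter_add_card_filter_not (s := V ×ˢ V) (fun z => ∀ i < m, P i z.1 z.2), add_comm]
      apply Nat.add_le_add_right
      apply card_le_card_of_injOn (fun z => ![z.1, z.2])
      · intro z hz
        obtain ⟨h3, h4⟩ := mem_filter.1 (mem_coe.1 hz)
        obtain ⟨h5, h6⟩ := mem_product.1 h3
        have hb : Ubad P m z.1 z.2 := h4
        have hb' : Ubad P m z.2 z.1 := hsym _ _ hb
        rw [mem_coe, mem_clq]
        constructor
        · intro i
          fin_cases i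
          · exact h5
          · exact h6
        · intro i j hij
          fin_cases i <;> fin_cases j
          · exact absurd rfl hij
          · exact hb
          · exact hb'
          · exact absurd rfl hij
      · intro z _ z' _ h
        have h3 := congrFun h 0
        have h4 := congrFun h 1
        exact Prod.ext h3 h4
    rw [card_product] at h2
    have h3 : ((V.card * V.card : ℕ) : ℝ) ≤ (((clq V (Ubad P m) 2).card +
        ((V ×ˢ V).filter (fun z => ∀ i < m, P i z.1 z.2)).card : ℕ) : ℝ) := by exact_mod_cast h2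
    push_cast at h3
    nlinarith
  have h2 : (1 - 1 / (r : ℝ) + δ) * (V.card : ℝ) ^ 2 ≤ ((clq V (Ubad P m) 2).card : ℝ) := by
    have h3 : ((TT m : ℝ) - 1) = r := by
      rw [hr]; push_cast; ring
    rw [h3] at hcon
    nlinarith
  have h3 := turan_gen V (Ubad P m) hsym h0 r hr1 δ hδ h2
  have h4 := clq_le P m V _ (by positivity) hV
  rw [hr] at h4
  have h5 : (CC m : ℝ) * (δ ^ r / (2 * (CC m + 1))) * (V.card : ℝ) ^ (r + 1) < δ ^ r * (V.card : ℝ) ^ (r + 1) := by
    apply mul_lt_mul_of_pos_right _ (by positivity)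
    rw [← mul_div_assoc, div_lt_iff₀ (by positivity)]
    have : (0 : ℝ) < δ ^ r := by positivity
    nlinarith
  linarith

end Pool.Agent.L7h36.DS
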