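import Pool.Agent.N646.TT.Box
import Pool.Agent.N646.RG.Stm
import Pool.Agent.L7h36.DS.Comb

/-!
From the theorem on configurations (`S_HITM2`) to tuples of elements of a dense set in one class (helper36).
-/

set_option autoImplicit false

namespace Pool.Agent.L7h36.DS

open Finset Filter Topology
open Pool.Agent.N646.RG
open Pool.Agent.N646.TT (boxes)

open Classical in
/-- a box all of whose corners are bad tuples -/
theorem boxG (T K R : ℕ) (hK : 1 ≤ K) (Q : (Fin T → ℕ) → Prop) (δ : ℝ) (hδ : 0 ≤ δ)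
    (h : δ * (R : ℝ) ^ T ≤ (((Fintype.piFinset (fun _ : Fin T => range R)).filter Q).card : ℝ)) :
    δ ^ (K ^ T) * (R : ℝ) ^ (T * K) ≤
      (((Fintype.piFinset (fun _ : Fin T × Fin K => range R)).filter
        (fun H => ∀ σ : Fin T → Fin K, Q (fun g => H (g, σ g)))).card : ℝ) := by
  have h1 := boxes K R hK T ({()} : Finset Unit) (fun t _ => Q t) δ hδ (by
    rw [card_singleton, Nat.cast_one, one_mul]
    refine h.trans ?_
    rw [Nat.cast_le]
    apply card_le_card_of_injOn (fun t => (t, ()))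
    · intro t ht
      obtain ⟨h1, h2⟩ := mem_filter.1 (mem_coe.1 ht)
      exact mem_coe.2 (mem_filter.2 ⟨mem_product.2 ⟨h1, mem_singleton_self _⟩, h2⟩)
    · intro t _ t' _ h
      exact (Prod.mk.inj h).1)
  rw [card_singleton, Nat.cast_one, one_mul] at h1
  refine h1.trans ?_
  rw [Nat.cast_le]
  apply card_le_card_of_injOn (fun x => (fun y : Fin T × Fin K => x.1 y.1 y.2))
  · intro x hx
    obtain ⟨h2, h3⟩ := mem_filter.1 (mem_coe.1 hx)
    obtain ⟨h4, -⟩ := mem_product.1 h2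
    refine mem_coe.2 (mem_filter.2 ⟨Fintype.mem_piFinset.2 fun y => ?_, fun σ => h3 σ⟩)
    exact Fintype.mem_piFinset.1 (Fintype.mem_piFinset.1 h4 y.1) y.2
  · rintro ⟨F, ⟨⟩⟩ _ ⟨F', ⟨⟩⟩ _ h
    have : F = F' := by
      funext g i
      exact congrFun h (g, i)
    rw [this]

/-- for at least `κ N / (log N) ^ 2` of the `n` of the range, `n + t x` and `n + t y` are prime -/
def Qd (κ : ℝ) (N t x y : ℕ) : Prop :=
  Gdf (k := 1) κ N ![((1 : ℤ), ((t * x : ℕ) : ℤ)), ((1 : ℤ), ((t * y : ℕ) : ℤ))]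

theorem Qd_symm {κ : ℝ} {N t x y : ℕ} (h : Qd κ N t x y) : Qd κ N t y x := by
  unfold Qd Gdf at *
  refine h.trans (le_of_eq ?_)
  congr 2
  apply filter_congr
  intro n _
  constructor
  · intro h1 i
    fin_cases i
    · exact h1 1
    · exact h1 0
  · intro h1 i
    fin_cases i
    · exact h1 1
    · exact h1 0

/-- all elements are in `V`, no `M + 1` elements are pairwise good -/
def BQ (κ : ℝ) (N t M : ℕ) (V : Finset ℕ) {T : ℕ} (v : Fin T → ℕ) : Prop :=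
  (∀ g, v g ∈ V) ∧ ¬ Has (Qd κ N t) (M + 1) v

open Classical in
/-- the boxes of bad tuples -/
noncomputable def Bx (κ : ℝ) (N t M R : ℕ) (V : Finset ℕ) (T K : ℕ) : Finset (Fin T × Fin K → ℕ) :=
  (Fintype.piFinset (fun _ : Fin T × Fin K => range R)).filter
    (fun H => ∀ σ : Fin T → Fin K, BQ κ N t M V (fun g => H (g, σ g)))

/-- a configuration has a good transversal -/
def Tr (κ : ℝ) (N t W M : ℕ) {T K : ℕ} (c F : Fin T × Fin K → ℕ) : Prop :=
  ∃ (S : Finset (Fin T)) (σ : Fin T → Fin K), M + 1 ≤ S.card ∧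
    ∀ g : Fin (1 + 1) → Fin T, Function.Injective g → (∀ i, g i ∈ S) →
      Gdf κ N (fun i => sh ((1 : ℤ), ((t * c (g i, σ (g i)) : ℕ) : ℤ)) (t * W * F (g i, σ (g i))))

open Classical in
/-- the exceptional configurations -/
noncomputable def Ec (κ : ℝ) (N t W M T₁ : ℕ) {T K : ℕ} (c : Fin T × Fin K → ℕ) : Finset (Fin T × Fin K → ℕ) :=
  (Fintype.piFinset (fun _ : Fin T × Fin K => range T₁)).filter (fun F => ¬ Tr κ N t W M c F)

open Classical in
/-- the admissible residues -/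
noncomputable def Cr (t W b T K : ℕ) : Finset (Fin T × Fin K → ℕ) :=
  (Fintype.piFinset (fun _ : Fin T × Fin K => range W)).filter (fun c => ∀ x, (b + t * c x).Coprime W)

theorem sh_eq (t W y : ℕ) : sh ((1 : ℤ), ((t * (y % W) : ℕ) : ℤ)) (t * W * (y / W)) =
    ((1 : ℤ), ((t * y : ℕ) : ℤ)) := by
  unfold sh
  refine Prod.ext rfl ?_
  show ((t * (y % W) : ℕ) : ℤ) + ((t * W * (y / W) : ℕ) : ℤ) = ((t * y : ℕ) : ℤ)
  have h13 : t * y = t * (y % W) + t * W * (y / W) := by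
    conv_lhs => rw [← Nat.mod_add_div y W]
    ring
  rw [h13]
  push_cast
  ring

theorem pair_inj {T : ℕ} {x y : Fin T} (h : x ≠ y) : Function.Injective (![x, y] : Fin (1 + 1) → Fin T) := by
  intro i j hij
  fin_cases i <;> fin_cases j
  · rfl
  · exact absurd hij h
  · exact absurd hij.symm h
  · rfl

/-- a good transversal gives `M + 1` pairwise good elements -/
theorem has_of_tr {κ : ℝ} {N t W M T K : ℕ} {F : Fin T × Fin K → ℕ}
    (h : Tr κ N t W M (fun x => F x % W) (fun x => F x / W)) :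
    ∃ σ : Fin T → Fin K, Has (Qd κ N t) (M + 1) (fun g => F (g, σ g)) := by
  obtain ⟨S, σ, hS, h11⟩ := h
  refine ⟨σ, ?_⟩
  obtain ⟨g, hg⟩ : ∃ g : Fin (M + 1) → Fin T, Function.Injective g ∧ ∀ i, g i ∈ S := by
    obtain ⟨S', hS', hc⟩ := exists_subset_card_eq hS
    exact ⟨fun i => (S'.orderEmbOfFin hc i), fun i j hij => (S'.orderEmbOfFin hc).injective hij,
      fun i => hS' (orderEmbOfFin_mem S' hc i)⟩
  refine ⟨g, hg.1, fun a c hac => ?_⟩
  have h12 := h11 ![g a, g c] (pair_inj (fun h => hac (hg.1 h))) (by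
    intro i
    fin_cases i
    · exact hg.2 a
    · exact hg.2 c)
  unfold Qd
  have e2 : (fun i => sh ((1 : ℤ), ((t * (F (![g a, g c] i, σ (![g a, g c] i)) % W) : ℕ) : ℤ))
      (t * W * (F (![g a, g c] i, σ (![g a, g c] i)) / W))) =
      ![((1 : ℤ), ((t * F (g a, σ (g a)) : ℕ) : ℤ)), ((1 : ℤ), ((t * F (g c, σ (g c)) : ℕ) : ℤ))] := by
    funext i
    rw [sh_eq]
    fin_cases i <;> rfl
  rw [← e2]
  exact h12

/-- the boxes of bad tuples are exceptional configurations -/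
theorem bx_le {κ : ℝ} {N t M H W b T K : ℕ} (hK : 1 ≤ K) (hT : 1 ≤ T) (hW : 1 ≤ W) {V : Finset ℕ}
    (hVc : ∀ x ∈ V, (b + t * x).Coprime W) :
    (Bx κ N t M (H + 1) V T K).card ≤ ∑ c ∈ Cr t W b T K, (Ec κ N t W M (H / W + 1) c).card := by
  classical
  rw [← card_sigma]
  apply card_le_card_of_injOn (fun F => (⟨fun x => F x % W, fun x => F x / W⟩ :
    Σ _ : (Fin T × Fin K → ℕ), (Fin T × Fin K → ℕ)))
  · intro F hF
    have hF' : F ∈ Bx κ N t M (H + 1) V T K := hF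
    unfold Bx at hF'
    rw [mem_filter] at hF'
    obtain ⟨h7, h8⟩ := hF'
    have h9 := Fintype.mem_piFinset.1 h7
    have h10 : ∀ x, F x ∈ V := by
      intro x
      exact (h8 (fun _ => x.2)).1 x.1
    rw [mem_coe, mem_sigma]
    constructor
    · show (fun x => F x % W) ∈ Cr t W b T K
      unfold Cr
      rw [mem_filter]
      refine ⟨Fintype.mem_piFinset.2 fun x => mem_range.2 (Nat.mod_lt _ hW), fun x => ?_⟩
      have h11 := hVc _ (h10 x)
      have h12 : b + t * F x = (b + t * (F x % W)) + W * (t * (F x / W)) := by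
        conv_lhs => rw [← Nat.mod_add_div (F x) W]
        ring
      rw [h12] at h11
      exact (Nat.coprime_add_mul_left_left _ _ _).1 h11
    · show (fun x => F x / W) ∈ Ec κ N t W M (H / W + 1) (fun x => F x % W)
      unfold Ec
      rw [mem_filter]
      refine ⟨Fintype.mem_piFinset.2 fun x => mem_range.2 ?_, ?_⟩
      · have h11 := mem_range.1 (h9 x)
        have h12 : F x / W ≤ H / W := Nat.div_le_div_right (by omega)
        omega
      · intro htr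
        obtain ⟨σ, h11⟩ := has_of_tr htr
        exact (h8 σ).2 h11
  · intro F _ F' _ hFF
    have h7 : (fun x => F x % W) = (fun x => F' x % W) := congrArg Sigma.fst hFF
    have h8 : (fun x => F x / W) = (fun x => F' x / W) := by
      have := (Sigma.mk.inj_iff.1 hFF).2
      exact eq_of_heq this
    funext x
    have h11 : F x % W = F' x % W := congrFun h7 x
    have h12 : F x / W = F' x / W := congrFun h8 x
    rw [← Nat.mod_add_div (F x) W, h11, h12, Nat.mod_add_div]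

theorem afm_of {N H t W T₁ y s : ℕ} (hHN : 100 * (t * H) ≤ N) (hWT : W * T₁ ≤ 2 * H) (hy : y ≤ H) (hs : s ≤ T₁) :
    Afm N (sh ((1 : ℤ), ((t * y : ℕ) : ℤ)) (t * W * s)) := by
  have h9 : t * y + t * W * s ≤ 3 * (t * H) := by
    have h10 : t * y ≤ t * H := Nat.mul_le_mul_left t hy
    have h11 : t * W * s ≤ 2 * (t * H) := by
      calc t * W * s = t * (W * s) := by ring
        _ ≤ t * (2 * H) := Nat.mul_le_mul_left t ((Nat.mul_le_mul_left W hs).trans hWT)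
        _ = _ := by ring
    omega
  obtain ⟨z, hz⟩ : ∃ z, z = t * y + t * W * s := ⟨_, rfl⟩
  have h10 : 30 * z ≤ N := by omega
  have e1 : (sh ((1 : ℤ), ((t * y : ℕ) : ℤ)) (t * W * s)) = (1, (z : ℤ)) := by
    unfold sh
    refine Prod.ext rfl ?_
    show ((t * y : ℕ) : ℤ) + ((t * W * s : ℕ) : ℤ) = (z : ℤ)
    rw [hz]
    push_cast
    ring
  rw [e1]
  refine ⟨Or.inl rfl, ?_, fun u hu1 hu2 => ?_⟩
  · show 10 * |(z : ℤ)| ≤ 9 * N
    rw [abs_of_nonneg (by positivity)]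
    omega
  · show (N : ℝ) / 20 ≤ ((1 : ℤ) : ℝ) * u + (((z : ℕ) : ℤ) : ℝ)
    have h11 : (0 : ℝ) ≤ (((z : ℕ) : ℤ) : ℝ) := by positivity
    have h12 : (0 : ℝ) ≤ N := Nat.cast_nonneg _
    rw [Int.cast_one, one_mul]
    linarith

open Classical in
/-- **few bad tuples in a dense set in one class** -/
theorem bad_few (hH : S_HITM2 1) (T M : ℕ) (hT : 1 ≤ T) (hTM : (18 / 5 : ℝ) * M < T) : ∃ K0 : ℕ,
    ∀ t W : ℕ, 1 ≤ t → 1 ≤ W → (∀ p : ℕ, p.Prime → p ≤ K0 → p ∣ W) →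
    ∀ lam η ε₁ : ℝ, 0 < lam → 0 < η → 0 < ε₁ → ∃ κ : ℝ, 0 < κ ∧ ∀ᶠ N : ℕ in atTop,
    ∀ H : ℕ, W ≤ H → lam * Real.log N ≤ H → 100 * (t * H) ≤ N → ∀ (b : ℕ) (V : Finset ℕ),
      V ⊆ range (H + 1) → (∀ x ∈ V, (b + t * x).Coprime W) → η * H ≤ V.card →
      ((Bad (Qd κ N t) V T (M + 1)).card : ℝ) ≤ ε₁ * (V.card : ℝ) ^ T := by
  obtain ⟨K, hK, h1⟩ := hH T M hT hTM
  refine ⟨T * K, fun t W ht hW hpW lam η ε₁ hlam hη hε₁ => ?_⟩
  obtain ⟨δ₀, hδ₀⟩ : ∃ δ₀ : ℝ, δ₀ = ε₁ * (η / 2) ^ T := ⟨_, rfl⟩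
  have hδ₀0 : 0 < δ₀ := by rw [hδ₀]; positivity
  obtain ⟨δ', hδ'⟩ : ∃ δ' : ℝ, δ' = δ₀ ^ (K ^ T) / 2 ^ (T * K + 1) := ⟨_, rfl⟩
  have hδ'0 : 0 < δ' := by rw [hδ']; positivity
  have hWR : (0 : ℝ) < W := by exact_mod_cast hW
  obtain ⟨κ, hκ, h2⟩ := h1 (t * W) (Nat.mul_pos ht hW) (lam / W) δ' (div_pos hlam hWR) hδ'0
  refine ⟨κ, hκ, ?_⟩
  filter_upwards [h2] with N h3
  intro H hWH hlH hHN b V hV hVc hVd
  have hH1 : 1 ≤ H := hW.trans hWH
  have hHR : (1 : ℝ) ≤ H := by exact_mod_cast hH1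
  by_contra hcon
  push Not at hcon
  obtain ⟨T₁, hT₁⟩ : ∃ T₁, T₁ = H / W + 1 := ⟨_, rfl⟩
  have hWT : W * T₁ ≤ 2 * H := by
    rw [hT₁, Nat.mul_add, mul_one]
    have := Nat.mul_div_le H W
    omega
  -- the boxes
  have h4 : δ₀ ^ (K ^ T) * (((H + 1 : ℕ) : ℝ)) ^ (T * K) ≤ ((Bx κ N t M (H + 1) V T K).card : ℝ) := by
    unfold Bx
    apply boxG T K (H + 1) hK (fun v => BQ κ N t M V v) δ₀ hδ₀0.le
    have h5 : δ₀ * (((H + 1 : ℕ) : ℝ)) ^ T ≤ ε₁ * (V.card : ℝ) ^ T := by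
      rw [hδ₀, mul_assoc, ← mul_pow]
      apply mul_le_mul_of_nonneg_left _ hε₁.le
      apply pow_le_pow_left₀ (by positivity)
      push_cast
      nlinarith
    refine h5.trans (hcon.le.trans ?_)
    rw [Nat.cast_le]
    apply card_le_card
    intro v hv
    unfold Bad at hv
    rw [mem_filter] at hv
    obtain ⟨h6, h7⟩ := hv
    have h8 := Fintype.mem_piFinset.1 h6
    rw [mem_filter]
    exact ⟨Fintype.mem_piFinset.2 fun g => hV (h8 g), h8, h7⟩
  -- the exceptional configurations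
  have hEc : ∀ c ∈ Cr t W b T K, ((Ec κ N t W M T₁ c).card : ℝ) ≤ δ' * (T₁ : ℝ) ^ (T * K) := by
    intro c hc
    unfold Cr at hc
    rw [mem_filter] at hc
    obtain ⟨h5, h6⟩ := hc
    have h7 := Fintype.mem_piFinset.1 h5
    have key := h3 T₁ ?_ ?_ (fun x => ((1 : ℤ), ((t * c x : ℕ) : ℤ))) ?_ ?_
    · refine le_trans (le_of_eq ?_) key
      unfold Ec Tr
      congr
    · rw [div_mul_eq_mul_div, div_le_iff₀ hWR]
      refine hlH.trans ?_
      have h8 : H ≤ T₁ * W := by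
        rw [hT₁, Nat.add_mul, one_mul]
        have := Nat.lt_div_mul_add (a := H) hW
        omega
      exact_mod_cast h8
    · have h8 : t * W * T₁ ≤ 2 * (t * H) := by
        calc t * W * T₁ = t * (W * T₁) := by ring
          _ ≤ t * (2 * H) := Nat.mul_le_mul_left t hWT
          _ = _ := by ring
      omega
    · intro x s hs
      exact afm_of hHN hWT ((mem_range.1 (h7 x)).le.trans hWH) hs
    · intro p hp hpTK
      have h8 := hpW p hp hpTK
      refine ⟨h8.mul_left t, (b : ℤ), fun x hdvd => ?_⟩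
      have h9 : ((1 : ℤ) * (b : ℤ) + ((t * c x : ℕ) : ℤ)) = ((b + t * c x : ℕ) : ℤ) := by push_cast; ring
      have h10 : (p : ℤ) ∣ ((b + t * c x : ℕ) : ℤ) := by
        rw [← h9]
        exact hdvd
      have h11 : p ∣ b + t * c x := by exact_mod_cast h10
      exact Nat.Prime.not_coprime_iff_dvd.2 ⟨p, hp, h11, h8⟩ (h6 x)
  have h5 : ((Bx κ N t M (H + 1) V T K).card : ℝ) ≤ ∑ c ∈ Cr t W b T K, ((Ec κ N t W M T₁ c).card : ℝ) := by
    rw [hT₁]
    exact_mod_cast bx_le hK hT hW hVc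
  have h6 : ∑ c ∈ Cr t W b T K, ((Ec κ N t W M T₁ c).card : ℝ) ≤ (W : ℝ) ^ (T * K) * (δ' * (T₁ : ℝ) ^ (T * K)) := by
    refine (sum_le_sum fun c hc => hEc c hc).trans ?_
    rw [sum_const, nsmul_eq_mul]
    apply mul_le_mul_of_nonneg_right _ (by positivity)
    have h7 : (Cr t W b T K).card ≤ W ^ (T * K) := by
      unfold Cr
      refine (card_filter_le _ _).trans (le_of_eq ?_)
      rw [Fintype.card_piFinset, prod_const, card_univ, Fintype.card_prod, Fintype.card_fin, Fintype.card_fin, card_range]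
    exact_mod_cast h7
  have h7 : (W : ℝ) ^ (T * K) * (δ' * (T₁ : ℝ) ^ (T * K)) ≤ δ' * 2 ^ (T * K) * (((H + 1 : ℕ) : ℝ)) ^ (T * K) := by
    have h8 : ((W : ℝ) * T₁) ^ (T * K) ≤ (2 * ((H + 1 : ℕ) : ℝ)) ^ (T * K) := by
      apply pow_le_pow_left₀ (by positivity)
      have h9 : ((W * T₁ : ℕ) : ℝ) ≤ ((2 * (H + 1) : ℕ) : ℝ) := by exact_mod_cast (by omega : W * T₁ ≤ 2 * (H + 1))
      push_cast at h9 ⊢
      exact h9
    calc (W : ℝ) ^ (T * K) * (δ' * (T₁ : ℝ) ^ (T * K)) = δ' * ((W : ℝ) * T₁) ^ (T * K) := by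
          rw [mul_pow]; ring
      _ ≤ δ' * (2 * ((H + 1 : ℕ) : ℝ)) ^ (T * K) := mul_le_mul_of_nonneg_left h8 hδ'0.le
      _ = _ := by rw [mul_pow]; ring
  have h8 := h4.trans (h5.trans (h6.trans h7))
  have h9 : (0 : ℝ) < (((H + 1 : ℕ) : ℝ)) ^ (T * K) := by positivity
  have h10 := le_of_mul_le_mul_right h8 h9
  rw [hδ'] at h10
  have h11 : δ₀ ^ (K ^ T) / 2 ^ (T * K + 1) * 2 ^ (T * K) = δ₀ ^ (K ^ T) / 2 := by
    rw [pow_succ]
    field_simp
  rw [h11] at h10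
  have h12 : 0 < δ₀ ^ (K ^ T) := by positivity
  linarith

end Pool.Agent.L7h36.DS
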