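import Mathlib
import Pool.Agent.L7h36.DS.Cls

/-!
The weights of the pairs of shifts (helper36).
-/

set_option autoImplicit false

namespace Pool.Agent.L7h36.DS

open Finset Filter Topology
open Pool.Agent.N646.TT (gg fac_ge gg_nonneg)

variable {r : ℕ}

/-- the product of the singular series of the multiples `t j * d` -/
noncomputable def U (t : Fin r → ℕ) (d : ℕ) : ℝ := ∏ j, S (t j * d)

/-- the same with the primes `≤ z` only -/
noncomputable def Uz (z : ℕ) (t : Fin r → ℕ) (d : ℕ) : ℝ := ∏ j, Sz z (t j * d)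

theorem U_nonneg (t : Fin r → ℕ) (d : ℕ) : 0 ≤ U t d := prod_nonneg fun _ _ => S_nonneg _

theorem Uz_nonneg (z : ℕ) (t : Fin r → ℕ) (d : ℕ) : 0 ≤ Uz z t d := prod_nonneg fun _ _ => Sz_nonneg _ _

theorem U_eq {z : ℕ} (hz2 : 2 ≤ z) {t : Fin r → ℕ} (ht : ∀ j, 1 ≤ t j) (htz : ∀ j, t j ≤ z) {d : ℕ} (hd : 1 ≤ d) :
    U t d = Uz z t d * hz z d ^ r := by
  unfold U Uz
  have h1 : ∀ j ∈ (univ : Finset (Fin r)), S (t j * d) = Sz z (t j * d) * hz z d := by
    intro j _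
    rw [S_eq hz2 (Nat.mul_pos (ht j) hd), hz_mul_eq (ht j) (htz j) hd]
  rw [prod_congr rfl h1, prod_mul_distrib, prod_const, card_univ, Fintype.card_fin]

theorem one_le_gg (d : ℕ) : 1 ≤ gg d := by
  rw [← hz_two]
  exact one_le_hz le_rfl d

/-- the constant of the multipliers -/
noncomputable def Ct (t : Fin r → ℕ) : ℝ := ∏ j, gg (t j)

theorem Ct_pos (t : Fin r → ℕ) : 0 < Ct t := prod_pos fun j _ => zero_lt_one.trans_le (one_le_gg _)

theorem S_le {t d : ℕ} (ht : 1 ≤ t) (hd : 1 ≤ d) : S (t * d) ≤ gg t * gg d := by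
  unfold S
  split_ifs
  · have := hz_mul (z := 2) (t := t) (d := d) le_rfl (by omega) (by omega)
    rwa [hz_two, hz_two, hz_two] at this
  · exact mul_nonneg (gg_nonneg _) (gg_nonneg _)

theorem U_le {t : Fin r → ℕ} (ht : ∀ j, 1 ≤ t j) {d : ℕ} (hd : 1 ≤ d) : U t d ≤ Ct t * gg d ^ r := by
  unfold U Ct
  have h1 : (gg d) ^ r = ∏ _j : Fin r, gg d := by rw [prod_const, card_univ, Fintype.card_fin]
  rw [h1, ← prod_mul_distrib]
  exact prod_le_prod (fun _ _ => S_nonneg _) fun j _ => S_le (ht j) hd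

theorem gg_le_Ct (t : Fin r → ℕ) (j : Fin r) : gg (t j) ≤ Ct t := by
  classical
  unfold Ct
  rw [← mul_prod_erase _ _ (mem_univ j)]
  have h1 : (1 : ℝ) ≤ ∏ i ∈ univ.erase j, gg (t i) := by
    have := Finset.prod_le_prod (s := univ.erase j) (f := fun _ => (1 : ℝ)) (g := fun i => gg (t i))
      (fun _ _ => zero_le_one) (fun i _ => one_le_gg _)
    rwa [prod_const_one] at this
  have h2 := gg_nonneg (t j)
  nlinarith

theorem Uz_le_U {z : ℕ} (hz2 : 2 ≤ z) {t : Fin r → ℕ} (ht : ∀ j, 1 ≤ t j) (htz : ∀ j, t j ≤ z) {d : ℕ} (hd : 1 ≤ d) :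
    Uz z t d ≤ U t d := by
  rw [U_eq hz2 ht htz hd]
  have h1 := one_le_pow₀ (one_le_hz hz2 d) (n := r)
  have h2 := Uz_nonneg z t d
  nlinarith

/-- **the large primes do not matter** -/
theorem tail_small (t : Fin r → ℕ) (ht : ∀ j, 1 ≤ t j) (ε : ℝ) (hε : 0 < ε) : ∃ z₀ : ℕ, ∀ z : ℕ, z₀ ≤ z →
    2 ≤ z ∧ (∀ j, t j ≤ z) ∧ ∀ H : ℕ, ∑ d ∈ Icc 1 H, (U t d - Uz z t d) ≤ ε * H := by
  have hC := Ct_pos t
  obtain ⟨A, hA⟩ : ∃ A, A = Real.exp (2 ^ (2 * r) * (2 / (((2 : ℕ) : ℝ) - 1))) := ⟨_, rfl⟩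
  have hA0 : 0 < A := by rw [hA]; exact Real.exp_pos _
  obtain ⟨s, hs⟩ : ∃ s, s = ε / (Ct t * A) := ⟨_, rfl⟩
  have hs0 : 0 < s := by rw [hs]; positivity
  -- choice of z
  have hlim : Tendsto (fun z : ℕ => Real.exp (2 ^ (2 * r) * (2 / ((z : ℝ) - 1)))) atTop (𝓝 1) := by
    have h1 : Tendsto (fun z : ℕ => (z : ℝ) - 1) atTop atTop :=
      tendsto_atTop_add_const_right _ (-1) tendsto_natCast_atTop_atTop
    have h2 : Tendsto (fun z : ℕ => 2 ^ (2 * r) * (2 / ((z : ℝ) - 1))) atTop (𝓝 ((2 : ℝ) ^ (2 * r) * 0)) :=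
      (tendsto_const_nhds).mul (tendsto_const_nhds.div_atTop h1)
    rw [mul_zero] at h2
    have h3 := (Real.continuous_exp.tendsto 0).comp h2
    rw [Real.exp_zero] at h3
    exact h3
  have hev := hlim.eventually (gt_mem_nhds (show (1 : ℝ) < 1 + ε * s / Ct t by
    have : 0 < ε * s / Ct t := by positivity
    linarith))
  obtain ⟨z₁, hz₁⟩ := eventually_atTop.1 hev
  refine ⟨max z₁ (max 2 (univ.sup t)), fun z hzz => ?_⟩
  have hz2 : 2 ≤ z := ((le_max_left _ _).trans (le_max_right _ _)).trans hzz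
  have htz : ∀ j, t j ≤ z := fun j => (le_sup (f := t) (mem_univ j)).trans
    (((le_max_right _ _).trans (le_max_right _ _)).trans hzz)
  refine ⟨hz2, htz, fun H => ?_⟩
  have h1 := hz₁ z ((le_max_left _ _).trans hzz)
  have h2 : ∀ d ∈ Icc 1 H, U t d - Uz z t d ≤ Ct t / 2 * (s * gg d ^ (2 * r) + (hz z d ^ (2 * r) - 1) / s) := by
    intro d hd
    have hd1 := (mem_Icc.1 hd).1
    have h3 := U_eq hz2 ht htz hd1
    have h4 : Uz z t d ≤ Ct t * gg d ^ r := (Uz_le_U hz2 ht htz hd1).trans (U_le ht hd1)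
    have h5 : 1 ≤ hz z d ^ r := one_le_pow₀ (one_le_hz hz2 d)
    have h6 : 0 ≤ gg d ^ r := pow_nonneg (gg_nonneg d) _
    calc U t d - Uz z t d = Uz z t d * (hz z d ^ r - 1) := by rw [h3]; ring
      _ ≤ Ct t * gg d ^ r * (hz z d ^ r - 1) := mul_le_mul_of_nonneg_right h4 (by linarith)
      _ ≤ Ct t / 2 * (s * gg d ^ (2 * r) + (hz z d ^ (2 * r) - 1) / s) := by
        obtain ⟨x, hx⟩ : ∃ x, x = gg d ^ r := ⟨_, rfl⟩
        obtain ⟨y, hy⟩ : ∃ y, y = hz z d ^ r := ⟨_, rfl⟩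
        rw [pow_mul', pow_mul', ← hx, ← hy]
        rw [← hx] at h6
        rw [← hy] at h5
        have h7 : x * (y - 1) ≤ (s * x ^ 2 + (y ^ 2 - 1) / s) / 2 := by
          have h8 : (y - 1) ^ 2 / s ≤ (y ^ 2 - 1) / s := by
            apply div_le_div_of_nonneg_right _ hs0.le
            nlinarith
          have h9 : 0 ≤ (s * x - (y - 1)) ^ 2 / s := by positivity
          have h10 : (s * x - (y - 1)) ^ 2 / s = s * x ^ 2 - 2 * (x * (y - 1)) + (y - 1) ^ 2 / s := by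
            field_simp
            ring
          linarith
        calc Ct t * x * (y - 1) = Ct t * (x * (y - 1)) := by ring
          _ ≤ Ct t * ((s * x ^ 2 + (y ^ 2 - 1) / s) / 2) := mul_le_mul_of_nonneg_left h7 hC.le
          _ = _ := by ring
  refine (sum_le_sum h2).trans ?_
  rw [← mul_sum, sum_add_distrib, ← mul_sum, ← sum_div, sum_sub_distrib, sum_const, Nat.card_Icc, nsmul_eq_mul, mul_one]
  have h3 := mom (2 * r) 2 H le_rfl
  rw [← hA] at h3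
  have h4 := mom (2 * r) z H hz2
  have hH : (0 : ℝ) ≤ H := Nat.cast_nonneg _
  have e1 : ((H + 1 - 1 : ℕ) : ℝ) = H := by simp
  rw [e1]
  have h5 : (∑ d ∈ Icc 1 H, hz z d ^ (2 * r) - (H : ℝ)) / s ≤ ε / Ct t * H := by
    rw [div_le_iff₀ hs0]
    have h6 : (H : ℝ) * Real.exp (2 ^ (2 * r) * (2 / ((z : ℝ) - 1))) ≤ H * (1 + ε * s / Ct t) :=
      mul_le_mul_of_nonneg_left h1.le hH
    calc ∑ d ∈ Icc 1 H, hz z d ^ (2 * r) - (H : ℝ) ≤ H * (1 + ε * s / Ct t) - H := by linarith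
      _ = ε / Ct t * H * s := by ring
  have h6 : s * ∑ d ∈ Icc 1 H, gg d ^ (2 * r) ≤ ε / Ct t * H := by
    calc s * ∑ d ∈ Icc 1 H, gg d ^ (2 * r) ≤ s * (H * A) := mul_le_mul_of_nonneg_left h3 hs0.le
      _ = ε / Ct t * H := by
        rw [hs]
        field_simp
  calc Ct t / 2 * (s * ∑ d ∈ Icc 1 H, gg d ^ (2 * r) + (∑ d ∈ Icc 1 H, hz z d ^ (2 * r) - (H : ℝ)) / s) ≤
      Ct t / 2 * (ε / Ct t * H + ε / Ct t * H) := by
        apply mul_le_mul_of_nonneg_left _ (by positivity)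
        linarith
    _ = ε * H := by field_simp; ring

open Classical in
/-- **large singular series do not matter** -/
theorem large_small (t : Fin r → ℕ) (ht : ∀ j, 1 ≤ t j) (ε : ℝ) (hε : 0 < ε) : ∃ B : ℝ, 1 ≤ B ∧
    ∀ H : ℕ, ∑ d ∈ (Icc 1 H).filter (fun d => ∃ j, B < S (t j * d)), U t d ≤ ε * H := by
  have hC := Ct_pos t
  obtain ⟨A, hA⟩ : ∃ A, A = Real.exp (2 ^ (r + 1) * (2 / (((2 : ℕ) : ℝ) - 1))) := ⟨_, rfl⟩
  have hA0 : 0 < A := by rw [hA]; exact Real.exp_pos _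
  obtain ⟨B, hB⟩ : ∃ B, B = Ct t * Ct t * A / ε + 1 := ⟨_, rfl⟩
  have hB1 : 1 ≤ B := by
    rw [hB]
    have : 0 ≤ Ct t * Ct t * A / ε := by positivity
    linarith
  refine ⟨B, hB1, fun H => ?_⟩
  have hB0 : 0 < B := by linarith
  have h1 : ∀ d ∈ (Icc 1 H).filter (fun d => ∃ j, B < S (t j * d)), U t d ≤ Ct t * Ct t / B * gg d ^ (r + 1) := by
    intro d hd
    obtain ⟨hd1, j, hj⟩ := mem_filter.1 hd
    have hd2 := (mem_Icc.1 hd1).1
    have h2 := U_le ht hd2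
    have h3 : B ≤ Ct t * gg d := hj.le.trans ((S_le (ht j) hd2).trans
      (mul_le_mul_of_nonneg_right (gg_le_Ct t j) (gg_nonneg d)))
    have h4 : 0 ≤ Ct t * gg d ^ r := mul_nonneg hC.le (pow_nonneg (gg_nonneg d) _)
    calc U t d ≤ Ct t * gg d ^ r := h2
      _ = Ct t * gg d ^ r * 1 := by ring
      _ ≤ Ct t * gg d ^ r * (Ct t * gg d / B) := by
          apply mul_le_mul_of_nonneg_left _ h4
          rw [le_div_iff₀ hB0]
          linarith
      _ = _ := by rw [pow_succ]; ring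
  refine (sum_le_sum h1).trans ?_
  rw [← mul_sum]
  have h2 : ∑ d ∈ (Icc 1 H).filter (fun d => ∃ j, B < S (t j * d)), gg d ^ (r + 1) ≤ H * A := by
    refine (sum_le_sum_of_subset_of_nonneg (filter_subset _ _) fun d _ _ => pow_nonneg (gg_nonneg d) _).trans ?_
    rw [hA]
    exact mom (r + 1) 2 H le_rfl
  have hH : (0 : ℝ) ≤ H := Nat.cast_nonneg _
  calc Ct t * Ct t / B * ∑ d ∈ (Icc 1 H).filter (fun d => ∃ j, B < S (t j * d)), gg d ^ (r + 1) ≤
      Ct t * Ct t / B * (H * A) := mul_le_mul_of_nonneg_left h2 (by positivity)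
    _ = (Ct t * Ct t * A / B) * H := by ring
    _ ≤ ε * H := by
      apply mul_le_mul_of_nonneg_right _ hH
      rw [div_le_iff₀ hB0, hB, mul_add, mul_one, mul_div_assoc', mul_comm ε, mul_div_assoc, div_self hε.ne', mul_one]
      linarith

end Pool.Agent.L7h36.DS
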