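import Mathlib
import Pool.Agent.L7h36.DS.Wts

/-!
Sums over the classes (helper36).
-/

set_option autoImplicit false

namespace Pool.Agent.L7h36.DS

open Finset Filter Topology

variable {r : ℕ}

/-- the elements of `A` in the class `b` -/
def Ab (W : ℕ) (t : Fin r → ℕ) (A : Finset ℕ) (b : Fin r → ℕ) : Finset ℕ :=
  A.filter (fun a => ∀ j, (b j + t j * a).Coprime W)

/-- all classes -/
def BW (W r : ℕ) : Finset (Fin r → ℕ) := Fintype.piFinset (fun _ : Fin r => range W)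

theorem card_BW (W r : ℕ) : (BW W r).card = W ^ r := by
  unfold BW
  rw [Fintype.card_piFinset, prod_const, card_univ, Fintype.card_fin, card_range]

open Classical in
theorem sum_pairs (W : ℕ) (t : Fin r → ℕ) (A : Finset ℕ) (C : ℕ × ℕ → Prop) :
    ∑ b ∈ BW W r, ((Ab W t A b ×ˢ Ab W t A b).filter C).card =
      ∑ y ∈ (A ×ˢ A).filter C, ∏ j, G W (t j * y.1) (t j * y.2) := by
  have key := sum_card_bipartiteAbove_eq_sum_card_bipartiteBelow
    (s := BW W r) (t := (A ×ˢ A).filter C)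
    (fun b y => ∀ j, (b j + t j * y.1).Coprime W ∧ (b j + t j * y.2).Coprime W)
  have h1 : ∀ b ∈ BW W r, ((Ab W t A b ×ˢ Ab W t A b).filter C).card =
      (((A ×ˢ A).filter C).bipartiteAbove
        (fun (b : Fin r → ℕ) (y : ℕ × ℕ) => ∀ j, (b j + t j * y.1).Coprime W ∧ (b j + t j * y.2).Coprime W) b).card := by
    intro b _
    congr 1
    ext y
    unfold bipartiteAbove Ab
    rw [mem_filter, mem_product, mem_filter, mem_filter, mem_filter, mem_filter, mem_product]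
    constructor
    · rintro ⟨⟨⟨h1, h2⟩, h3, h4⟩, h5⟩
      exact ⟨⟨⟨h1, h3⟩, h5⟩, fun j => ⟨h2 j, h4 j⟩⟩
    · rintro ⟨⟨⟨h1, h3⟩, h5⟩, h6⟩
      exact ⟨⟨⟨h1, fun j => (h6 j).1⟩, h3, fun j => (h6 j).2⟩, h5⟩
  rw [sum_congr rfl h1, key]
  apply sum_congr rfl
  intro y _
  have h2 : (BW W r).bipartiteBelow
      (fun (b : Fin r → ℕ) (y : ℕ × ℕ) => ∀ j, (b j + t j * y.1).Coprime W ∧ (b j + t j * y.2).Coprime W) y =
      Fintype.piFinset (fun j : Fin r => (range W).filter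
        (fun b => (b + t j * y.1).Coprime W ∧ (b + t j * y.2).Coprime W)) := by
    ext b
    unfold bipartiteBelow BW
    rw [mem_filter, Fintype.mem_piFinset, Fintype.mem_piFinset]
    constructor
    · rintro ⟨h1, h2⟩ j
      exact mem_filter.2 ⟨h1 j, h2 j⟩
    · intro h
      exact ⟨fun j => (mem_filter.1 (h j)).1, fun j => (mem_filter.1 (h j)).2⟩
  rw [h2, Fintype.card_piFinset]
  rfl

theorem sum_all (W : ℕ) (t : Fin r → ℕ) (A : Finset ℕ) :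
    ∑ b ∈ BW W r, (Ab W t A b).card ^ 2 = ∑ y ∈ A ×ˢ A, ∏ j, G W (t j * y.1) (t j * y.2) := by
  classical
  have h := sum_pairs W t A (fun _ => True)
  simp only [Finset.filter_true, card_product] at h
  rw [← h]
  exact sum_congr rfl fun b _ => sq _

theorem sum_single (W : ℕ) (t : Fin r → ℕ) (A : Finset ℕ) :
    ∑ b ∈ BW W r, (Ab W t A b).card = ∑ a ∈ A, ∏ j, G W (t j * a) (t j * a) := by
  classical
  have key := sum_card_bipartiteAbove_eq_sum_card_bipartiteBelow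
    (s := BW W r) (t := A) (fun b a => ∀ j, (b j + t j * a).Coprime W)
  have h1 : ∀ b ∈ BW W r, (Ab W t A b).card =
      (A.bipartiteAbove (fun (b : Fin r → ℕ) (a : ℕ) => ∀ j, (b j + t j * a).Coprime W) b).card := fun b _ => rfl
  rw [sum_congr rfl h1, key]
  apply sum_congr rfl
  intro a _
  have h2 : (BW W r).bipartiteBelow (fun (b : Fin r → ℕ) (a : ℕ) => ∀ j, (b j + t j * a).Coprime W) a =
      Fintype.piFinset (fun j : Fin r => (range W).filter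
        (fun b => (b + t j * a).Coprime W ∧ (b + t j * a).Coprime W)) := by
    ext b
    unfold bipartiteBelow BW
    rw [mem_filter, Fintype.mem_piFinset, Fintype.mem_piFinset]
    constructor
    · rintro ⟨h1, h2⟩ j
      exact mem_filter.2 ⟨h1 j, h2 j, h2 j⟩
    · intro h
      exact ⟨fun j => (mem_filter.1 (h j)).1, fun j => (mem_filter.1 (h j)).2.1⟩
  rw [h2, Fintype.card_piFinset]
  rfl

/-- the distance -/
def ad (x y : ℕ) : ℕ := (x - y) + (y - x)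

theorem G_ad {z : ℕ} (hz : 2 ≤ z) (s x y : ℕ) : (G (primorial z) (s * x) (s * y) : ℝ) = cW z * Sz z (s * ad x y) := by
  unfold ad
  rcases le_total x y with h | h
  · rw [G_eq hz (Nat.mul_le_mul_left s h), Nat.sub_eq_zero_of_le h, zero_add, Nat.mul_sub]
  · rw [G_comm, G_eq hz (Nat.mul_le_mul_left s h), Nat.sub_eq_zero_of_le h, add_zero, Nat.mul_sub]

theorem prod_G {z : ℕ} (hz : 2 ≤ z) (t : Fin r → ℕ) (x y : ℕ) :
    ((∏ j, G (primorial z) (t j * x) (t j * y) : ℕ) : ℝ) = cW z ^ r * Uz z t (ad x y) := by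
  unfold Uz
  push_cast
  rw [prod_congr rfl fun j _ => G_ad hz (t j) x y, prod_mul_distrib, prod_const, card_univ, Fintype.card_fin]

/-- the number of the reduced classes -/
noncomputable def fW (z : ℕ) : ℝ := ∏ p ∈ Pz z, ((p : ℝ) - 1)

theorem cW_Sz_zero (z : ℕ) : cW z * Sz z 0 = fW z := by
  unfold cW Sz fW
  rw [if_pos (by simp)]
  have h1 : (Pz z).filter (fun p => p ∣ 0) = Pz z := filter_true_of_mem fun p _ => dvd_zero p
  rw [h1, ← prod_mul_distrib]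
  apply prod_congr rfl
  intro p hp
  have := (pz_sub hp).2.2.2
  have h2 : (p : ℝ) - 2 ≠ 0 := by linarith
  field_simp

theorem fW_pos (z : ℕ) : 0 < fW z := by
  unfold fW
  apply prod_pos
  intro p hp
  have := (pz_sub hp).2.2.2
  linarith

theorem fW_sq {z : ℕ} (hz : 2 ≤ z) : (primorial z : ℝ) * cW z ≤ 2 * fW z ^ 2 := by
  rw [primorial_eq hz]
  push_cast
  unfold cW fW
  rw [mul_assoc, ← prod_mul_distrib, ← prod_pow]
  apply mul_le_mul_of_nonneg_left _ (by norm_num)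
  apply Finset.prod_le_prod
  · intro p hp
    have := (pz_sub hp).2.2.2
    apply mul_nonneg <;> linarith
  · intro p _
    nlinarith

/-- **lower bound for all pairs** -/
theorem pairs_low {z : ℕ} (hz : 2 ≤ z) (t : Fin r → ℕ) (A : Finset ℕ) :
    (A.card : ℝ) ^ 2 / 2 ^ r ≤ ∑ y ∈ A ×ˢ A, Uz z t (ad y.1 y.2) := by
  classical
  obtain ⟨W, hW⟩ : ∃ W, W = primorial z := ⟨_, rfl⟩
  have hW0 : (0 : ℝ) < W := by rw [hW]; exact_mod_cast primorial_pos z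
  have hc := cW_pos z
  have hf := fW_pos z
  have h1 : ∑ b ∈ BW W r, ((Ab W t A b).card : ℝ) = A.card * fW z ^ r := by
    have h2 := sum_single W t A
    have h3 : ((∑ b ∈ BW W r, (Ab W t A b).card : ℕ) : ℝ) = ((∑ a ∈ A, ∏ j, G W (t j * a) (t j * a) : ℕ) : ℝ) := by
      exact_mod_cast h2
    push_cast at h3
    rw [h3]
    have h4 : ∀ a ∈ A, ∏ j, (G W (t j * a) (t j * a) : ℝ) = fW z ^ r := by
      intro a _
      have h5 : ∀ j ∈ (univ : Finset (Fin r)), (G W (t j * a) (t j * a) : ℝ) = fW z := by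
        intro j _
        rw [hW, G_ad hz]
        unfold ad
        rw [Nat.sub_self, Nat.add_zero, mul_zero, cW_Sz_zero]
      rw [prod_congr rfl h5, prod_const, card_univ, Fintype.card_fin]
    rw [sum_congr rfl h4, sum_const, nsmul_eq_mul]
  have h2 : ∑ b ∈ BW W r, ((Ab W t A b).card : ℝ) ^ 2 = cW z ^ r * ∑ y ∈ A ×ˢ A, Uz z t (ad y.1 y.2) := by
    have h4 := sum_all W t A
    have h5 : ((∑ b ∈ BW W r, (Ab W t A b).card ^ 2 : ℕ) : ℝ) =
        ((∑ y ∈ A ×ˢ A, ∏ j, G W (t j * y.1) (t j * y.2) : ℕ) : ℝ) := by exact_mod_cast h4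
    rw [Nat.cast_sum, Nat.cast_sum] at h5
    rw [mul_sum]
    have h6 : ∀ y ∈ A ×ˢ A, ((∏ j, G W (t j * y.1) (t j * y.2) : ℕ) : ℝ) = cW z ^ r * Uz z t (ad y.1 y.2) := by
      intro y _
      rw [hW]
      exact prod_G hz t y.1 y.2
    rw [sum_congr rfl h6] at h5
    rw [← h5]
    apply sum_congr rfl
    intro b _
    push_cast
    rfl
  have h3 : (∑ b ∈ BW W r, ((Ab W t A b).card : ℝ)) ^ 2 ≤ ((BW W r).card : ℝ) * ∑ b ∈ BW W r, ((Ab W t A b).card : ℝ) ^ 2 :=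
    sq_sum_le_card_mul_sum_sq
  rw [h1, h2, card_BW] at h3
  push_cast at h3
  have h4 : ((W : ℝ) * cW z) ^ r ≤ (2 * fW z ^ 2) ^ r := pow_le_pow_left₀ (by positivity) (by rw [hW]; exact fW_sq hz) r
  have hS : 0 ≤ ∑ y ∈ A ×ˢ A, Uz z t (ad y.1 y.2) := sum_nonneg fun _ _ => Uz_nonneg _ _ _
  rw [div_le_iff₀ (by positivity)]
  have h5 : (A.card : ℝ) ^ 2 * (fW z ^ 2) ^ r ≤ (2 * fW z ^ 2) ^ r * ∑ y ∈ A ×ˢ A, Uz z t (ad y.1 y.2) := by
    calc (A.card : ℝ) ^ 2 * (fW z ^ 2) ^ r = (A.card * fW z ^ r) ^ 2 := by ring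
      _ ≤ (W : ℝ) ^ r * (cW z ^ r * ∑ y ∈ A ×ˢ A, Uz z t (ad y.1 y.2)) := h3
      _ = ((W : ℝ) * cW z) ^ r * ∑ y ∈ A ×ˢ A, Uz z t (ad y.1 y.2) := by rw [mul_pow]; ring
      _ ≤ _ := mul_le_mul_of_nonneg_right h4 hS
  rw [mul_pow] at h5
  have h6 : 0 < (fW z ^ 2) ^ r := by positivity
  have h7 : (A.card : ℝ) ^ 2 * (fW z ^ 2) ^ r ≤ (∑ y ∈ A ×ˢ A, Uz z t (ad y.1 y.2)) * 2 ^ r * (fW z ^ 2) ^ r := by
    linarith
  exact le_of_mul_le_mul_right h7 h6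

open Classical in
/-- **from the classes to all pairs** -/
theorem ordered {z : ℕ} (hz : 2 ≤ z) (t : Fin r → ℕ) (A : Finset ℕ) (C : ℕ × ℕ → Prop) (θ E : ℝ) (hθ : θ ≤ 1)
    (hE : 0 ≤ E) (h : ∀ b ∈ BW (primorial z) r, E ≤ ((Ab (primorial z) t A b).card : ℝ) →
      θ * ((Ab (primorial z) t A b).card : ℝ) ^ 2 ≤
        (((Ab (primorial z) t A b ×ˢ Ab (primorial z) t A b).filter C).card : ℝ)) :
    θ * ∑ y ∈ A ×ˢ A, Uz z t (ad y.1 y.2) ≤
      ∑ y ∈ (A ×ˢ A).filter C, Uz z t (ad y.1 y.2) + (primorial z : ℝ) ^ r * E ^ 2 / cW z ^ r := by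
  obtain ⟨W, hW⟩ : ∃ W, W = primorial z := ⟨_, rfl⟩
  rw [← hW] at h ⊢
  have hc : 0 < cW z ^ r := pow_pos (cW_pos z) r
  have h1 : ∀ b ∈ BW W r, θ * ((Ab W t A b).card : ℝ) ^ 2 ≤
      (((Ab W t A b ×ˢ Ab W t A b).filter C).card : ℝ) + E ^ 2 := by
    intro b hb
    rcases le_total E ((Ab W t A b).card : ℝ) with h2 | h2
    · have := h b hb h2
      have h3 : 0 ≤ E ^ 2 := sq_nonneg _
      linarith
    · have h3 : (0 : ℝ) ≤ ((Ab W t A b).card : ℝ) := Nat.cast_nonneg _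
      have h4 : ((Ab W t A b).card : ℝ) ^ 2 ≤ E ^ 2 := pow_le_pow_left₀ h3 h2 2
      have h5 : (0 : ℝ) ≤ (((Ab W t A b ×ˢ Ab W t A b).filter C).card : ℝ) := Nat.cast_nonneg _
      have h6 : θ * ((Ab W t A b).card : ℝ) ^ 2 ≤ 1 * ((Ab W t A b).card : ℝ) ^ 2 :=
        mul_le_mul_of_nonneg_right hθ (sq_nonneg _)
      linarith
  have h2 := sum_le_sum h1
  rw [← mul_sum, sum_add_distrib, sum_const, card_BW, nsmul_eq_mul] at h2
  have h3 : ∑ b ∈ BW W r, ((((Ab W t A b ×ˢ Ab W t A b).filter C).card : ℕ) : ℝ) =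
      cW z ^ r * ∑ y ∈ (A ×ˢ A).filter C, Uz z t (ad y.1 y.2) := by
    rw [← Nat.cast_sum, sum_pairs W t A C, Nat.cast_sum, mul_sum]
    apply sum_congr rfl
    intro y _
    rw [hW]
    exact prod_G hz t y.1 y.2
  have h3' : ∑ b ∈ BW W r, ((Ab W t A b).card : ℝ) ^ 2 = cW z ^ r * ∑ y ∈ A ×ˢ A, Uz z t (ad y.1 y.2) := by
    have h5 : ((∑ b ∈ BW W r, (Ab W t A b).card ^ 2 : ℕ) : ℝ) =
        ((∑ y ∈ A ×ˢ A, ∏ j, G W (t j * y.1) (t j * y.2) : ℕ) : ℝ) := by exact_mod_cast sum_all W t A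
    rw [Nat.cast_sum, Nat.cast_sum] at h5
    rw [mul_sum]
    have h6 : ∀ y ∈ A ×ˢ A, ((∏ j, G W (t j * y.1) (t j * y.2) : ℕ) : ℝ) = cW z ^ r * Uz z t (ad y.1 y.2) := by
      intro y _
      rw [hW]
      exact prod_G hz t y.1 y.2
    rw [sum_congr rfl h6] at h5
    rw [← h5]
    apply sum_congr rfl
    intro b _
    push_cast
    rfl
  rw [h3, h3'] at h2
  push_cast at h2
  have h4 : cW z ^ r * (θ * ∑ y ∈ A ×ˢ A, Uz z t (ad y.1 y.2)) ≤
      cW z ^ r * (∑ y ∈ (A ×ˢ A).filter C, Uz z t (ad y.1 y.2) + (W : ℝ) ^ r * E ^ 2 / cW z ^ r) := by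
    have e1 : cW z ^ r * (∑ y ∈ (A ×ˢ A).filter C, Uz z t (ad y.1 y.2) + (W : ℝ) ^ r * E ^ 2 / cW z ^ r) =
        cW z ^ r * ∑ y ∈ (A ×ˢ A).filter C, Uz z t (ad y.1 y.2) + (W : ℝ) ^ r * E ^ 2 := by
      rw [mul_add, mul_div_cancel₀ _ hc.ne']
    rw [e1]
    linarith
  exact le_of_mul_le_mul_left h4 hc

end Pool.Agent.L7h36.DS
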