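import Mathlib
import Pool.Agent.L7h36.DS.Few
import Pool.Agent.L7h36.DS.Sums

/-!
The main theorem on dense sets of shifts (helper36).
-/

set_option autoImplicit false

namespace Pool.Agent.L7h36.DS

open Finset Filter Topology
open Pool.Agent.N646.RG

variable {r : ℕ}

/-- the number of the primes `p ≤ x` for which `p - d` is prime -/
def pi2 (x d : ℕ) : ℕ := ((Icc 1 x).filter (fun p : ℕ => p.Prime ∧ (p - d).Prime)).card

theorem gdf_pi2 {κ : ℝ} {x d A B : ℕ} (hG : Gdf κ x ![((1 : ℤ), (A : ℤ)), ((1 : ℤ), (B : ℤ))])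
    (h1 : B = A + d) (h2 : ∀ n ∈ IN x, n + B ≤ x) :
    κ * (x / Real.log x ^ 2) ≤ (pi2 x d : ℝ) := by
  unfold Gdf at hG
  refine hG.trans ?_
  rw [Nat.cast_le]
  unfold pi2
  apply card_le_card_of_injOn (fun n : ℕ => n + B)
  · intro n hn
    rw [mem_coe, mem_filter] at hn
    have h3 : (ev ((1 : ℤ), (A : ℤ)) n).toNat.Prime := hn.2 0
    have h4 : (ev ((1 : ℤ), (B : ℤ)) n).toNat.Prime := hn.2 1
    have h5 := h2 n hn.1
    have e1 : (ev ((1 : ℤ), (A : ℤ)) n).toNat = n + A := by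
      show ((1 : ℤ) * (n : ℤ) + (A : ℤ)).toNat = n + A
      rw [one_mul]
      omega
    have e2 : (ev ((1 : ℤ), (B : ℤ)) n).toNat = n + B := by
      show ((1 : ℤ) * (n : ℤ) + (B : ℤ)).toNat = n + B
      rw [one_mul]
      omega
    rw [e1] at h3
    rw [e2] at h4
    have h6 : n + B - d = n + A := by omega
    have h7 := h4.pos
    refine mem_coe.2 (mem_filter.2 ⟨mem_Icc.2 ⟨h7, h5⟩, h4, ?_⟩)
    show (n + B - d).Prime
    rw [h6]
    exact h3
  · intro n _ n' _ he
    have he' : n + B = n' + B := he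
    omega

/-- positive lower bound of finitely many positive numbers -/
theorem exists_low (f : ℕ → ℝ) (hf : ∀ i, 0 < f i) (m : ℕ) : ∃ κ : ℝ, 0 < κ ∧ ∀ i < m, κ ≤ f i := by
  induction m with
  | zero => exact ⟨1, one_pos, fun i hi => by omega⟩
  | succ m ih =>
    obtain ⟨κ, hκ, h⟩ := ih
    refine ⟨min κ (f m), lt_min hκ (hf m), fun i hi => ?_⟩
    rcases Nat.lt_succ_iff_lt_or_eq.1 hi with h1 | h1
    · exact (min_le_left _ _).trans (h i h1)
    · rw [h1]
      exact min_le_right _ _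

theorem exists_up (f : ℕ → ℕ) (m : ℕ) : ∃ B : ℕ, ∀ i < m, f i ≤ B :=
  ⟨(range m).sup f, fun i hi => le_sup (f := f) (mem_range.2 hi)⟩

/-- the sum over ordered pairs -/
theorem split_pairs (A : Finset ℕ) (F : ℕ → ℝ) (C : ℕ → ℕ → Prop) [∀ x y, Decidable (C x y)]
    (hC : ∀ x y, C x y → C y x) (hF : 0 ≤ F 0) :
    ∑ y ∈ (A ×ˢ A).filter (fun y => C y.1 y.2), F (ad y.1 y.2) ≤
      2 * ∑ y ∈ (A ×ˢ A).filter (fun y => y.1 < y.2 ∧ C y.1 y.2), F (y.2 - y.1) + A.card * F 0 ∧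
    2 * ∑ y ∈ (A ×ˢ A).filter (fun y => y.1 < y.2 ∧ C y.1 y.2), F (y.2 - y.1) ≤
      ∑ y ∈ (A ×ˢ A).filter (fun y => C y.1 y.2), F (ad y.1 y.2) := by
  obtain ⟨P, hP⟩ : ∃ P, P = (A ×ˢ A).filter (fun y => C y.1 y.2) := ⟨_, rfl⟩
  have h1 : ∑ y ∈ P, F (ad y.1 y.2) = ∑ y ∈ P.filter (fun y => y.1 < y.2), F (ad y.1 y.2) +
      (∑ y ∈ P.filter (fun y => y.2 < y.1), F (ad y.1 y.2) + ∑ y ∈ P.filter (fun y => y.1 = y.2), F (ad y.1 y.2)) := by
    rw [← sum_filter_add_sum_filter_not P (fun y => y.1 < y.2)]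
    congr 1
    rw [← sum_filter_add_sum_filter_not (P.filter (fun y => ¬ y.1 < y.2)) (fun y => y.2 < y.1)]
    congr 1
    · apply sum_congr _ fun _ _ => rfl
      ext y
      rw [mem_filter, mem_filter, mem_filter]
      constructor
      · rintro ⟨⟨h1, _⟩, h3⟩
        exact ⟨h1, h3⟩
      · rintro ⟨h1, h3⟩
        exact ⟨⟨h1, by omega⟩, h3⟩
    · apply sum_congr _ fun _ _ => rfl
      ext y
      rw [mem_filter, mem_filter, mem_filter]
      constructor
      · rintro ⟨⟨h1, h2⟩, h3⟩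
        exact ⟨h1, by omega⟩
      · rintro ⟨h1, h3⟩
        exact ⟨⟨h1, by omega⟩, by omega⟩
  have h2 : ∑ y ∈ P.filter (fun y => y.2 < y.1), F (ad y.1 y.2) = ∑ y ∈ P.filter (fun y => y.1 < y.2), F (ad y.1 y.2) := by
    apply sum_nbij (fun y => (y.2, y.1))
    · intro y hy
      rw [hP, mem_filter, mem_filter, mem_product] at hy
      rw [hP, mem_filter, mem_filter, mem_product]
      exact ⟨⟨⟨hy.1.1.2, hy.1.1.1⟩, hC _ _ hy.1.2⟩, hy.2⟩
    · intro y _ y' _ h
      have h3 : y.2 = y'.2 := congrArg Prod.fst h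
      have h4 : y.1 = y'.1 := congrArg Prod.snd h
      exact Prod.ext h4 h3
    · intro y hy
      have hy' : y ∈ P.filter (fun y => y.1 < y.2) := hy
      rw [hP, mem_filter, mem_filter, mem_product] at hy'
      refine ⟨(y.2, y.1), ?_, rfl⟩
      rw [mem_coe, hP, mem_filter, mem_filter, mem_product]
      exact ⟨⟨⟨hy'.1.1.2, hy'.1.1.1⟩, hC _ _ hy'.1.2⟩, hy'.2⟩
    · intro y _
      unfold ad
      rw [Nat.add_comm]
  have h3 : ∑ y ∈ P.filter (fun y => y.1 < y.2), F (ad y.1 y.2) =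
      ∑ y ∈ (A ×ˢ A).filter (fun y => y.1 < y.2 ∧ C y.1 y.2), F (y.2 - y.1) := by
    rw [hP, filter_filter]
    apply sum_congr
    · apply filter_congr
      intro y _
      exact and_comm
    · intro y hy
      have h4 := (mem_filter.1 hy).2.1
      unfold ad
      congr 1
      omega
  have h4 : ∑ y ∈ P.filter (fun y => y.1 = y.2), F (ad y.1 y.2) = ((P.filter (fun y => y.1 = y.2)).card : ℝ) * F 0 := by
    rw [← nsmul_eq_mul, ← sum_const]
    apply sum_congr rfl
    intro y hy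
    have h5 := (mem_filter.1 hy).2
    unfold ad
    rw [h5, Nat.sub_self, Nat.add_zero]
  have h5 : ((P.filter (fun y => y.1 = y.2)).card : ℝ) ≤ A.card := by
    rw [Nat.cast_le]
    apply card_le_card_of_injOn (fun y => y.1)
    · intro y hy
      have hy' : y ∈ P.filter (fun y => y.1 = y.2) := hy
      rw [hP, mem_filter, mem_filter, mem_product] at hy'
      exact hy'.1.1.1
    · intro y hy y' hy' h
      have h6 := (mem_filter.1 (mem_coe.1 hy)).2
      have h7 := (mem_filter.1 (mem_coe.1 hy')).2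
      have h8 : y.1 = y'.1 := h
      exact Prod.ext h8 (by omega)
  rw [← hP, h1, h2, h4, h3]
  constructor
  · have := mul_le_mul_of_nonneg_right h5 hF
    linarith
  · have : 0 ≤ ((P.filter (fun y => y.1 = y.2)).card : ℝ) * F 0 := mul_nonneg (Nat.cast_nonneg _) hF
    linarith

/-- sums over pairs and sums over differences -/
theorem sum_diff_le (A : Finset ℕ) (H : ℕ) (hA : A ⊆ Icc 1 H) (F : ℕ → ℝ) (hF : ∀ d, 1 ≤ d → 0 ≤ F d)
    (C : ℕ → Prop) [DecidablePred C] :
    ∑ y ∈ (A ×ˢ A).filter (fun y => y.1 < y.2 ∧ C (y.2 - y.1)), F (y.2 - y.1) ≤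
      H * ∑ d ∈ (Icc 1 H).filter C, F d := by
  rw [← sum_fiberwise_of_maps_to (s := (A ×ˢ A).filter (fun y => y.1 < y.2 ∧ C (y.2 - y.1)))
    (t := (Icc 1 H).filter C) (g := fun y => y.2 - y.1), mul_sum]
  · apply sum_le_sum
    intro d hd
    have hd1 := (mem_Icc.1 (mem_filter.1 hd).1).1
    have h1 : ∀ y ∈ ((A ×ˢ A).filter (fun y => y.1 < y.2 ∧ C (y.2 - y.1))).filter (fun y => y.2 - y.1 = d),
        F (y.2 - y.1) = F d := by
      intro y hy
      rw [(mem_filter.1 hy).2]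
    rw [sum_congr rfl h1, sum_const, nsmul_eq_mul]
    apply mul_le_mul_of_nonneg_right _ (hF d hd1)
    rw [Nat.cast_le]
    have h2 : (Icc 1 H).card = H := by rw [Nat.card_Icc]; omega
    calc (((A ×ˢ A).filter (fun y => y.1 < y.2 ∧ C (y.2 - y.1))).filter (fun y => y.2 - y.1 = d)).card
        ≤ (Icc 1 H).card := by
          apply card_le_card_of_injOn (fun y => y.1)
          · intro y hy
            have hy' := mem_filter.1 (mem_filter.1 (mem_coe.1 hy)).1
            exact hA (mem_product.1 hy'.1).1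
          · intro y hy y' hy' h
            have h3 := (mem_filter.1 (mem_coe.1 hy)).2
            have h4 := (mem_filter.1 (mem_coe.1 hy')).2
            have h5 := (mem_filter.1 (mem_filter.1 (mem_coe.1 hy)).1).2.1
            have h6 := (mem_filter.1 (mem_filter.1 (mem_coe.1 hy')).1).2.1
            have h7 : y.1 = y'.1 := h
            exact Prod.ext h7 (by omega)
      _ = H := h2
  · intro y hy
    obtain ⟨h1, h2, h3⟩ := mem_filter.1 hy
    have h4 := mem_Icc.1 (hA (mem_product.1 h1).1)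
    have h5 := mem_Icc.1 (hA (mem_product.1 h1).2)
    exact mem_filter.2 ⟨mem_Icc.2 ⟨by omega, by omega⟩, h3⟩

end Pool.Agent.L7h36.DS
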