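import Mathlib
import Pool.Agent.L7h36.DS.Few

/-!
Dense sets in unions of windows: few bad tuples (helper36).
-/

set_option autoImplicit false

namespace Pool.Agent.L7h36.DS

open Finset Filter Topology
open Pool.Agent.N646.RG
open Pool.Agent.N646.TT (boxes)

/-- the number with the code `e` -/
def val (u : ℕ → ℕ) (R e : ℕ) : ℕ := u (e / R) + e % R

/-- all elements are in `V`, no `M + 1` elements are pairwise good -/
def BQW (κ : ℝ) (N t M : ℕ) (u : ℕ → ℕ) (R : ℕ) (V : Finset ℕ) {T : ℕ} (v : Fin T → ℕ) : Prop :=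
  (∀ g, v g ∈ V) ∧ ¬ Has (Qd κ N t) (M + 1) (fun g => val u R (v g))

open Classical in
/-- the boxes of bad tuples -/
noncomputable def BxW (κ : ℝ) (N t M : ℕ) (u : ℕ → ℕ) (l R : ℕ) (V : Finset ℕ) (T K : ℕ) :
    Finset (Fin T × Fin K → ℕ) :=
  (Fintype.piFinset (fun _ : Fin T × Fin K => range (l * R))).filter
    (fun H => ∀ σ : Fin T → Fin K, BQW κ N t M u R V (fun g => H (g, σ g)))

open Classical in
/-- the labels and admissible residues -/
noncomputable def CrW (t W b : ℕ) (u : ℕ → ℕ) (l T K : ℕ) :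
    Finset ((Fin T × Fin K → ℕ) × (Fin T × Fin K → ℕ)) :=
  ((Fintype.piFinset (fun _ : Fin T × Fin K => range l)) ×ˢ
    (Fintype.piFinset (fun _ : Fin T × Fin K => range W))).filter
      (fun c => ∀ x, (b + t * (u (c.1 x) + c.2 x)).Coprime W)

theorem sh_eqW (t W a y : ℕ) : sh ((1 : ℤ), ((t * (a + y % W) : ℕ) : ℤ)) (t * W * (y / W)) =
    ((1 : ℤ), ((t * (a + y) : ℕ) : ℤ)) := by
  unfold sh
  refine Prod.ext rfl ?_
  show ((t * (a + y % W) : ℕ) : ℤ) + ((t * W * (y / W) : ℕ) : ℤ) = ((t * (a + y) : ℕ) : ℤ)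
  have h13 : t * (a + y) = t * (a + y % W) + t * W * (y / W) := by
    conv_lhs => rw [← Nat.mod_add_div y W]
    ring
  rw [h13]
  push_cast
  ring

/-- a good transversal gives `M + 1` pairwise good elements -/
theorem has_of_trW {κ : ℝ} {N t W M T K R : ℕ} {u : ℕ → ℕ} {F : Fin T × Fin K → ℕ}
    (h : Tr κ N t W M (fun x => u (F x / R) + F x % R % W) (fun x => F x % R / W)) :
    ∃ σ : Fin T → Fin K, Has (Qd κ N t) (M + 1) (fun g => val u R (F (g, σ g))) := by
  obtain ⟨S, σ, hS, h11⟩ := h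
  refine ⟨σ, ?_⟩
  obtain ⟨g, hg⟩ : ∃ g : Fin (M + 1) → Fin T, Function.Injective g ∧ ∀ i, g i ∈ S := by
    obtain ⟨S', hS', hc⟩ := exists_subset_card_eq hS
    exact ⟨fun i => (S'.orderEmbOfFin hc i), fun i j hij => (S'.orderEmbOfFin hc).injective hij,
      fun i => hS' (orderEmbOfFin_mem S' hc i)⟩
  refine ⟨g, hg.1, fun a c hac => ?_⟩
  have h12 := h11 ![g a, g c] (pair_inj (fun h => hac (hg.1 h))) (by
    intro i
    fin_cases i
    · exact hg.2 a
    · exact hg.2 c)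
  unfold Qd
  have e2 : (fun i => sh ((1 : ℤ), ((t * (u (F (![g a, g c] i, σ (![g a, g c] i)) / R) +
      F (![g a, g c] i, σ (![g a, g c] i)) % R % W) : ℕ) : ℤ))
      (t * W * (F (![g a, g c] i, σ (![g a, g c] i)) % R / W))) =
      ![((1 : ℤ), ((t * val u R (F (g a, σ (g a))) : ℕ) : ℤ)), ((1 : ℤ), ((t * val u R (F (g c, σ (g c))) : ℕ) : ℤ))] := by
    funext i
    rw [sh_eqW]
    fin_cases i <;> rfl
  rw [← e2]
  exact h12

/-- the boxes of bad tuples are exceptional configurations -/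
theorem bx_leW {κ : ℝ} {N t M H W b T K l : ℕ} {u : ℕ → ℕ} (hK : 1 ≤ K) (hT : 1 ≤ T) (hW : 1 ≤ W) {V : Finset ℕ}
    (hVc : ∀ x ∈ V, (b + t * val u (H + 1) x).Coprime W) :
    (BxW κ N t M u l (H + 1) V T K).card ≤
      ∑ c ∈ CrW t W b u l T K, (Ec κ N t W M (H / W + 1) (fun x => u (c.1 x) + c.2 x)).card := by
  classical
  rw [← card_sigma]
  apply card_le_card_of_injOn (fun F => (⟨(fun x => F x / (H + 1), fun x => F x % (H + 1) % W),
    fun x => F x % (H + 1) / W⟩ :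
    Σ _ : (Fin T × Fin K → ℕ) × (Fin T × Fin K → ℕ), (Fin T × Fin K → ℕ)))
  · intro F hF
    have hF' : F ∈ BxW κ N t M u l (H + 1) V T K := hF
    unfold BxW at hF'
    rw [mem_filter] at hF'
    obtain ⟨h7, h8⟩ := hF'
    have h9 := Fintype.mem_piFinset.1 h7
    have h10 : ∀ x, F x ∈ V := by
      intro x
      exact (h8 (fun _ => x.2)).1 x.1
    rw [mem_coe, mem_sigma]
    constructor
    · show (fun x => F x / (H + 1), fun x => F x % (H + 1) % W) ∈ CrW t W b u l T K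
      unfold CrW
      rw [mem_filter, mem_product]
      refine ⟨⟨Fintype.mem_piFinset.2 fun x => mem_range.2 ?_,
        Fintype.mem_piFinset.2 fun x => mem_range.2 (Nat.mod_lt _ hW)⟩, fun x => ?_⟩
      · have h11 := mem_range.1 (h9 x)
        rw [mul_comm] at h11
        exact Nat.div_lt_of_lt_mul h11
      · have h11 := hVc _ (h10 x)
        have h12 : b + t * val u (H + 1) (F x) = (b + t * (u (F x / (H + 1)) + F x % (H + 1) % W)) +
            W * (t * (F x % (H + 1) / W)) := by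
          unfold val
          conv_lhs => rw [← Nat.mod_add_div (F x % (H + 1)) W]
          ring
        rw [h12] at h11
        exact (Nat.coprime_add_mul_left_left _ _ _).1 h11
    · show (fun x => F x % (H + 1) / W) ∈ Ec κ N t W M (H / W + 1) (fun x => u (F x / (H + 1)) + F x % (H + 1) % W)
      unfold Ec
      rw [mem_filter]
      refine ⟨Fintype.mem_piFinset.2 fun x => mem_range.2 ?_, ?_⟩
      · have h11 := Nat.mod_lt (F x) (Nat.succ_pos H)
        have h12 : F x % (H + 1) / W ≤ H / W := Nat.div_le_div_right (by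
          have : F x % (H + 1) < H + 1 := h11
          omega)
        omega
      · intro htr
        obtain ⟨σ, h11⟩ := has_of_trW htr
        exact (h8 σ).2 h11
  · intro F _ F' _ hFF
    have h7 : ((fun x => F x / (H + 1)), (fun x => F x % (H + 1) % W)) =
        ((fun x => F' x / (H + 1)), (fun x => F' x % (H + 1) % W)) := congrArg Sigma.fst hFF
    have h8 : (fun x => F x % (H + 1) / W) = (fun x => F' x % (H + 1) / W) := by
      have := (Sigma.mk.inj_iff.1 hFF).2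
      exact eq_of_heq this
    funext x
    have h10 : F x / (H + 1) = F' x / (H + 1) := congrFun (Prod.mk.inj h7).1 x
    have h11 : F x % (H + 1) % W = F' x % (H + 1) % W := congrFun (Prod.mk.inj h7).2 x
    have h12 : F x % (H + 1) / W = F' x % (H + 1) / W := congrFun h8 x
    have h13 : F x % (H + 1) = F' x % (H + 1) := by
      rw [← Nat.mod_add_div (F x % (H + 1)) W, h11, h12, Nat.mod_add_div]
    rw [← Nat.mod_add_div (F x) (H + 1), h13, h10, Nat.mod_add_div]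

theorem afm_ofW {N H t W T₁ a y s : ℕ} (hHN : 100 * (t * (a + H)) ≤ N) (hWT : W * T₁ ≤ 2 * H) (hy : y ≤ H) (hs : s ≤ T₁) :
    Afm N (sh ((1 : ℤ), ((t * (a + y) : ℕ) : ℤ)) (t * W * s)) := by
  have h9 : t * (a + y) + t * W * s ≤ 3 * (t * (a + H)) := by
    have h10 : t * (a + y) ≤ t * (a + H) := Nat.mul_le_mul_left t (by omega)
    have h11 : t * W * s ≤ 2 * (t * (a + H)) := by
      calc t * W * s = t * (W * s) := by ring
        _ ≤ t * (2 * (a + H)) := Nat.mul_le_mul_left t (((Nat.mul_le_mul_left W hs).trans hWT).trans (by omega))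
        _ = _ := by ring
    omega
  obtain ⟨z, hz⟩ : ∃ z, z = t * (a + y) + t * W * s := ⟨_, rfl⟩
  have h10 : 30 * z ≤ N := by omega
  have e1 : (sh ((1 : ℤ), ((t * (a + y) : ℕ) : ℤ)) (t * W * s)) = (1, (z : ℤ)) := by
    unfold sh
    refine Prod.ext rfl ?_
    show ((t * (a + y) : ℕ) : ℤ) + ((t * W * s : ℕ) : ℤ) = (z : ℤ)
    rw [hz]
    push_cast
    ring
  rw [e1]
  refine ⟨Or.inl rfl, ?_, fun u hu1 hu2 => ?_⟩
  · show 10 * |(z : ℤ)| ≤ 9 * N
    rw [abs_of_nonneg (by positivity)]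
    omega
  · show (N : ℝ) / 20 ≤ ((1 : ℤ) : ℝ) * u + (((z : ℕ) : ℤ) : ℝ)
    have h11 : (0 : ℝ) ≤ (((z : ℕ) : ℤ) : ℝ) := by positivity
    have h12 : (0 : ℝ) ≤ N := Nat.cast_nonneg _
    rw [Int.cast_one, one_mul]
    linarith

open Classical in
/-- **few bad tuples in a dense set in one class, in a union of windows** -/
theorem bad_fewW (hH : S_HITM2 1) (T M : ℕ) (hT : 1 ≤ T) (hTM : (18 / 5 : ℝ) * M < T) : ∃ K0 : ℕ,
    ∀ t W : ℕ, 1 ≤ t → 1 ≤ W → (∀ p : ℕ, p.Prime → p ≤ K0 → p ∣ W) → ∀ l : ℕ, 1 ≤ l →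
    ∀ lam η ε₁ : ℝ, 0 < lam → 0 < η → 0 < ε₁ → ∃ κ : ℝ, 0 < κ ∧ ∀ᶠ N : ℕ in atTop,
    ∀ H : ℕ, W ≤ H → lam * Real.log N ≤ H → ∀ u : ℕ → ℕ, (∀ i < l, 100 * (t * (u i + H)) ≤ N) →
      ∀ (b : ℕ) (A : Finset ℕ), (∀ a ∈ A, ∃ i < l, u i ≤ a ∧ a ≤ u i + H) → (∀ x ∈ A, (b + t * x).Coprime W) →
      η * H ≤ A.card → ((Bad (Qd κ N t) A T (M + 1)).card : ℝ) ≤ ε₁ * (A.card : ℝ) ^ T := by
  obtain ⟨K, hK, h1⟩ := hH T M hT hTM
  refine ⟨T * K, fun t W ht hW hpW l hl lam η ε₁ hlam hη hε₁ => ?_⟩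
  have hlR : (1 : ℝ) ≤ l := by exact_mod_cast hl
  obtain ⟨δ₀, hδ₀⟩ : ∃ δ₀ : ℝ, δ₀ = ε₁ * (η / (2 * l)) ^ T := ⟨_, rfl⟩
  have hδ₀0 : 0 < δ₀ := by rw [hδ₀]; positivity
  obtain ⟨δ', hδ'⟩ : ∃ δ' : ℝ, δ' = δ₀ ^ (K ^ T) / 2 ^ (T * K + 1) := ⟨_, rfl⟩
  have hδ'0 : 0 < δ' := by rw [hδ']; positivity
  have hWR : (0 : ℝ) < W := by exact_mod_cast hW
  obtain ⟨κ, hκ, h2⟩ := h1 (t * W) (Nat.mul_pos ht hW) (lam / W) δ' (div_pos hlam hWR) hδ'0
  refine ⟨κ, hκ, ?_⟩
  filter_upwards [h2] with N h3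
  intro H hWH hlH u hHN b A hA hAc hAd
  have hH1 : 1 ≤ H := hW.trans hWH
  have hHR : (1 : ℝ) ≤ H := by exact_mod_cast hH1
  by_contra hcon
  push Not at hcon
  obtain ⟨T₁, hT₁⟩ : ∃ T₁, T₁ = H / W + 1 := ⟨_, rfl⟩
  have hWT : W * T₁ ≤ 2 * H := by
    rw [hT₁, Nat.mul_add, mul_one]
    have := Nat.mul_div_le H W
    omega
  -- the codes
  choose! lab hlab1 hlab2 hlab3 using hA
  obtain ⟨code, hcode⟩ : ∃ code : ℕ → ℕ, code = fun a => lab a * (H + 1) + (a - u (lab a)) := ⟨_, rfl⟩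
  have hval : ∀ a ∈ A, val u (H + 1) (code a) = a := by
    intro a ha
    have h4 := hlab2 a ha
    have h5 := hlab3 a ha
    unfold val
    rw [hcode]
    have e1 : (lab a * (H + 1) + (a - u (lab a))) / (H + 1) = lab a := by
      rw [mul_comm, Nat.mul_add_div (Nat.succ_pos H), Nat.div_eq_of_lt (by omega), Nat.add_zero]
    have e2 : (lab a * (H + 1) + (a - u (lab a))) % (H + 1) = a - u (lab a) := by
      rw [mul_comm, Nat.mul_add_mod, Nat.mod_eq_of_lt (by omega)]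
    show u ((lab a * (H + 1) + (a - u (lab a))) / (H + 1)) + (lab a * (H + 1) + (a - u (lab a))) % (H + 1) = a
    rw [e1, e2]
    omega
  have hcr : ∀ a ∈ A, code a < l * (H + 1) := by
    intro a ha
    have h3 := hlab1 a ha
    have h4 := hlab2 a ha
    have h5 := hlab3 a ha
    rw [hcode]
    show lab a * (H + 1) + (a - u (lab a)) < l * (H + 1)
    calc lab a * (H + 1) + (a - u (lab a)) < lab a * (H + 1) + (H + 1) := by omega
      _ = (lab a + 1) * (H + 1) := by ring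
      _ ≤ l * (H + 1) := Nat.mul_le_mul_right _ h3
  have hinj : ∀ a ∈ A, ∀ a' ∈ A, code a = code a' → a = a' := by
    intro a ha a' ha' h
    rw [← hval a ha, h, hval a' ha']
  obtain ⟨V, hV⟩ : ∃ V, V = A.image code := ⟨_, rfl⟩
  have hVc : ∀ x ∈ V, (b + t * val u (H + 1) x).Coprime W := by
    intro x hx
    rw [hV, mem_image] at hx
    obtain ⟨a, ha, rfl⟩ := hx
    rw [hval a ha]
    exact hAc a ha
  -- the boxes
  have h4 : δ₀ ^ (K ^ T) * (((l * (H + 1) : ℕ) : ℝ)) ^ (T * K) ≤ ((BxW κ N t M u l (H + 1) V T K).card : ℝ) := by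
    unfold BxW
    apply boxG T K (l * (H + 1)) hK (fun v => BQW κ N t M u (H + 1) V v) δ₀ hδ₀0.le
    have h5 : δ₀ * (((l * (H + 1) : ℕ) : ℝ)) ^ T ≤ ε₁ * (A.card : ℝ) ^ T := by
      rw [hδ₀, mul_assoc, ← mul_pow]
      apply mul_le_mul_of_nonneg_left _ hε₁.le
      apply pow_le_pow_left₀ (by positivity)
      refine le_trans ?_ hAd
      push_cast
      have e1 : η / (2 * (l : ℝ)) * (l * ((H : ℝ) + 1)) = η * ((H + 1) / 2) := by
        field_simp
      rw [e1]
      apply mul_le_mul_of_nonneg_left _ hη.le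
      linarith
    refine h5.trans (hcon.le.trans ?_)
    rw [Nat.cast_le]
    apply card_le_card_of_injOn (fun v => fun g => code (v g))
    · intro v hv
      have hv' : v ∈ Bad (Qd κ N t) A T (M + 1) := hv
      unfold Bad at hv'
      rw [mem_filter] at hv'
      obtain ⟨h6, h7⟩ := hv'
      have h8 := Fintype.mem_piFinset.1 h6
      rw [mem_coe, mem_filter]
      refine ⟨Fintype.mem_piFinset.2 fun g => mem_range.2 (hcr _ (h8 g)), fun g => ?_, ?_⟩
      · rw [hV]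
        exact mem_image_of_mem _ (h8 g)
      · have e1 : (fun g => val u (H + 1) (code (v g))) = v := by
          funext g
          exact hval _ (h8 g)
        show ¬ Has (Qd κ N t) (M + 1) (fun g => val u (H + 1) (code (v g)))
        rw [e1]
        exact h7
    · intro v hv v' hv' h
      have h6 := Fintype.mem_piFinset.1 (mem_filter.1 (show v ∈ Bad (Qd κ N t) A T (M + 1) from hv)).1
      have h7 := Fintype.mem_piFinset.1 (mem_filter.1 (show v' ∈ Bad (Qd κ N t) A T (M + 1) from hv')).1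
      funext g
      exact hinj _ (h6 g) _ (h7 g) (congrFun h g)
  -- the exceptional configurations
  have hEc : ∀ c ∈ CrW t W b u l T K, ((Ec κ N t W M T₁ (fun x => u (c.1 x) + c.2 x)).card : ℝ) ≤
      δ' * (T₁ : ℝ) ^ (T * K) := by
    intro c hc
    unfold CrW at hc
    rw [mem_filter, mem_product] at hc
    obtain ⟨⟨h5l, h5⟩, h6⟩ := hc
    have h7 := Fintype.mem_piFinset.1 h5
    have h7l := Fintype.mem_piFinset.1 h5l
    have hx0 : ∃ _x : Fin T × Fin K, True := ⟨(⟨0, hT⟩, ⟨0, hK⟩), trivial⟩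
    obtain ⟨x0, -⟩ := hx0
    have key := h3 T₁ ?_ ?_ (fun x => ((1 : ℤ), ((t * (u (c.1 x) + c.2 x) : ℕ) : ℤ))) ?_ ?_
    · refine le_trans (le_of_eq ?_) key
      unfold Ec Tr
      congr
    · rw [div_mul_eq_mul_div, div_le_iff₀ hWR]
      refine hlH.trans ?_
      have h8 : H ≤ T₁ * W := by
        rw [hT₁, Nat.add_mul, one_mul]
        have := Nat.lt_div_mul_add (a := H) hW
        omega
      exact_mod_cast h8
    · have h8 : t * W * T₁ ≤ 2 * (t * (u (c.1 x0) + H)) := by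
        calc t * W * T₁ = t * (W * T₁) := by ring
          _ ≤ t * (2 * (u (c.1 x0) + H)) := Nat.mul_le_mul_left t (hWT.trans (by omega))
          _ = _ := by ring
      have h9 := hHN _ (mem_range.1 (h7l x0))
      omega
    · intro x s hs
      exact afm_ofW (hHN _ (mem_range.1 (h7l x))) hWT ((mem_range.1 (h7 x)).le.trans hWH) hs
    · intro p hp hpTK
      have h8 := hpW p hp hpTK
      refine ⟨h8.mul_left t, (b : ℤ), fun x hdvd => ?_⟩
      have h9 : ((1 : ℤ) * (b : ℤ) + ((t * (u (c.1 x) + c.2 x) : ℕ) : ℤ)) =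
          ((b + t * (u (c.1 x) + c.2 x) : ℕ) : ℤ) := by push_cast; ring
      have h10 : (p : ℤ) ∣ ((b + t * (u (c.1 x) + c.2 x) : ℕ) : ℤ) := by
        rw [← h9]
        exact hdvd
      have h11 : p ∣ b + t * (u (c.1 x) + c.2 x) := by exact_mod_cast h10
      exact Nat.Prime.not_coprime_iff_dvd.2 ⟨p, hp, h11, h8⟩ (h6 x)
  have h5 : ((BxW κ N t M u l (H + 1) V T K).card : ℝ) ≤
      ∑ c ∈ CrW t W b u l T K, ((Ec κ N t W M T₁ (fun x => u (c.1 x) + c.2 x)).card : ℝ) := by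
    rw [hT₁]
    exact_mod_cast bx_leW hK hT hW hVc
  have h6 : ∑ c ∈ CrW t W b u l T K, ((Ec κ N t W M T₁ (fun x => u (c.1 x) + c.2 x)).card : ℝ) ≤
      ((l : ℝ) * W) ^ (T * K) * (δ' * (T₁ : ℝ) ^ (T * K)) := by
    refine (sum_le_sum fun c hc => hEc c hc).trans ?_
    rw [sum_const, nsmul_eq_mul]
    apply mul_le_mul_of_nonneg_right _ (by positivity)
    have h7 : (CrW t W b u l T K).card ≤ (l * W) ^ (T * K) := by
      unfold CrW
      refine (card_filter_le _ _).trans (le_of_eq ?_)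
      rw [card_product, Fintype.card_piFinset, Fintype.card_piFinset, prod_const, prod_const, card_univ, Fintype.card_prod,
        Fintype.card_fin, Fintype.card_fin, card_range, card_range, mul_pow]
    exact_mod_cast h7
  have h7 : ((l : ℝ) * W) ^ (T * K) * (δ' * (T₁ : ℝ) ^ (T * K)) ≤
      δ' * 2 ^ (T * K) * (((l * (H + 1) : ℕ) : ℝ)) ^ (T * K) := by
    have h8 : ((l : ℝ) * (W * T₁)) ^ (T * K) ≤ (2 * ((l * (H + 1) : ℕ) : ℝ)) ^ (T * K) := by
      apply pow_le_pow_left₀ (by positivity)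
      have h9 : ((W * T₁ : ℕ) : ℝ) ≤ ((2 * (H + 1) : ℕ) : ℝ) := by exact_mod_cast (by omega : W * T₁ ≤ 2 * (H + 1))
      push_cast at h9 ⊢
      calc (l : ℝ) * (W * T₁) ≤ l * (2 * ((H : ℝ) + 1)) := mul_le_mul_of_nonneg_left h9 (by linarith)
        _ = _ := by ring
    calc ((l : ℝ) * W) ^ (T * K) * (δ' * (T₁ : ℝ) ^ (T * K)) = δ' * ((l : ℝ) * (W * T₁)) ^ (T * K) := by
          rw [mul_pow, mul_pow, mul_pow]; ring
      _ ≤ δ' * (2 * ((l * (H + 1) : ℕ) : ℝ)) ^ (T * K) := mul_le_mul_of_nonneg_left h8 hδ'0.le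
      _ = _ := by rw [mul_pow]; ring
  have h8 := h4.trans (h5.trans (h6.trans h7))
  have h9 : (0 : ℝ) < (((l * (H + 1) : ℕ) : ℝ)) ^ (T * K) := by
    have : 0 < l * (H + 1) := Nat.mul_pos hl (Nat.succ_pos H)
    have : (0 : ℝ) < ((l * (H + 1) : ℕ) : ℝ) := by exact_mod_cast this
    positivity
  have h10 := le_of_mul_le_mul_right h8 h9
  rw [hδ'] at h10
  have h11 : δ₀ ^ (K ^ T) / 2 ^ (T * K + 1) * 2 ^ (T * K) = δ₀ ^ (K ^ T) / 2 := by
    rw [pow_succ]
    field_simp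
  rw [h11] at h10
  have h12 : 0 < δ₀ ^ (K ^ T) := by positivity
  linarith

end Pool.Agent.L7h36.DS
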