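import Mathlib
import Pool.Agent.L7h36.DS.Core

/-!
The main theorem on dense sets of shifts (helper36).
-/

set_option autoImplicit false

namespace Pool.Agent.L7h36.DS

open Finset Filter Topology
open Pool.Agent.N646.RG

variable {r : ℕ}

/-- the final arithmetic -/
theorem arith {θ' ε c D X O G' T L E₂ dg H2 : ℝ} (hθ0 : 0 ≤ θ') (hθ1 : θ' ≤ 1)
    (h1 : θ' * O ≤ G' + c / 4 * H2)            -- classes
    (h2 : G' ≤ 2 * T + dg)                      -- good ordered pairs and pairs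
    (h3 : T ≤ X + E₂)                            -- large singular series
    (h4 : 2 * L ≤ O)                             -- all ordered pairs
    (h5 : D ≤ L + c / 4 * H2)                    -- tail
    (hdg : dg ≤ c / 4 * H2) (hE₂ : E₂ ≤ c / 4 * H2) (hH2 : 0 ≤ H2)
    (hD : c * H2 ≤ ε * D) (hc : 0 ≤ c) : (θ' - ε) * D ≤ X := by
  have e1 : 0 ≤ c * H2 := mul_nonneg hc hH2
  have h6 : θ' * D ≤ θ' * L + c / 4 * H2 := by
    have h7 : θ' * D ≤ θ' * (L + c / 4 * H2) := mul_le_mul_of_nonneg_left h5 hθ0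
    have h8 : θ' * (c / 4 * H2) ≤ 1 * (c / 4 * H2) := mul_le_mul_of_nonneg_right hθ1 (by linarith)
    linarith
  have h7 : θ' * (2 * L) ≤ θ' * O := mul_le_mul_of_nonneg_left h4 hθ0
  have h8 : 2 * (θ' * D) ≤ 2 * X + 2 * E₂ + dg + c / 4 * H2 + 2 * (c / 4 * H2) := by linarith
  linarith

open Classical in
/-- **main theorem** -/
theorem core (hH : S_HITM2 1) (t : Fin r → ℕ) (ht : ∀ j, 1 ≤ t j) (m : ℕ) (t' : ℕ → ℕ)
    (ht' : ∀ i < m, ∃ j, t' i = t j) (ε η lam : ℝ) (hε : 0 < ε) (hη : 0 < η) (hlam : 0 < lam) :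
    ∃ κ : ℝ, 0 < κ ∧ ∃ N₀ : ℕ, ∀ N : ℕ → ℕ, (∀ i < m, N₀ ≤ N i) → ∀ H : ℕ, N₀ ≤ H →
    (∀ i < m, lam * Real.log (N i) ≤ H ∧ 100 * (t' i * H) ≤ N i) → ∀ A : Finset ℕ, A ⊆ Icc 1 H →
    η * H ≤ A.card →
    (1 / ((TT m : ℝ) - 1) - ε) * ∑ y ∈ (A ×ˢ A).filter (fun y => y.1 < y.2), U t (y.2 - y.1) ≤
      ∑ y ∈ (A ×ˢ A).filter (fun y => y.1 < y.2 ∧ ∀ i < m,
        κ * (S (t' i * (y.2 - y.1)) * (N i / Real.log (N i) ^ 2)) ≤ (pi2 (N i) (t' i * (y.2 - y.1)) : ℝ)),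
        U t (y.2 - y.1) := by
  obtain ⟨θ, hθ⟩ : ∃ θ : ℝ, θ = 1 / ((TT m : ℝ) - 1) := ⟨_, rfl⟩
  rw [← hθ]
  have hTT : (2 : ℝ) ≤ TT m := by exact_mod_cast TT_ge m
  have hθ1 : θ ≤ 1 := by
    rw [hθ, div_le_one (by linarith)]
    linarith
  by_cases hcase : θ - ε < 0
  · refine ⟨1, one_pos, 0, fun N _ H _ _ A _ _ => ?_⟩
    have h1 : (0 : ℝ) ≤ ∑ y ∈ (A ×ˢ A).filter (fun y => y.1 < y.2), U t (y.2 - y.1) :=
      sum_nonneg fun _ _ => U_nonneg _ _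
    exact (mul_nonpos_of_nonpos_of_nonneg hcase.le h1).trans (sum_nonneg fun _ _ => U_nonneg _ _)
  push Not at hcase
  -- the constants
  obtain ⟨c, hc⟩ : ∃ c : ℝ, c = (ε / 2) * (η ^ 2 / 2 ^ (r + 2)) := ⟨_, rfl⟩
  have hc0 : 0 < c := by rw [hc]; positivity
  obtain ⟨ε₁, hε₁, hdense⟩ := dense_pairs m (ε / 2) (by positivity)
  have hbad := fun i : ℕ => bad_few hH (TT (i + 1)) (TT i - 1) (by have := TT_ge (i + 1); omega) (TT_succ i)
  choose K0 hK0 using hbad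
  obtain ⟨z₀, hz₀⟩ := tail_small t ht (c / 4) (by positivity)
  obtain ⟨Bk, hBk⟩ := exists_up K0 m
  obtain ⟨z, hz⟩ : ∃ z, z = max z₀ Bk := ⟨_, rfl⟩
  obtain ⟨hz2, htz, htail⟩ := hz₀ z (by rw [hz]; exact le_max_left _ _)
  obtain ⟨W, hW⟩ : ∃ W, W = primorial z := ⟨_, rfl⟩
  have hW1 : 1 ≤ W := by rw [hW]; exact primorial_pos z
  have hWR : (0 : ℝ) < W := by exact_mod_cast hW1
  have hWd : ∀ i < m, ∀ p : ℕ, p.Prime → p ≤ K0 i → p ∣ W := by
    intro i hi p hp hpi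
    rw [hW]
    unfold primorial
    apply dvd_prod_of_mem (fun p => p)
    rw [mem_filter, mem_range]
    refine ⟨?_, hp⟩
    have h1 : p ≤ z := by
      rw [hz]
      exact (hpi.trans (hBk i hi)).trans (le_max_right _ _)
    omega
  have hcW : 0 < cW z ^ r := pow_pos (cW_pos z) r
  obtain ⟨η', hη'⟩ : ∃ η' : ℝ, η' = Real.sqrt (c / 4 * (cW z ^ r / (W : ℝ) ^ r)) := ⟨_, rfl⟩
  have hη'0 : 0 < η' := by rw [hη']; exact Real.sqrt_pos.2 (by positivity)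
  have hη'sq : (W : ℝ) ^ r * η' ^ 2 / cW z ^ r = c / 4 := by
    rw [hη', Real.sq_sqrt (by positivity)]
    field_simp
  obtain ⟨B, hB1, hlarge⟩ := large_small t ht (c / 4) (by positivity)
  have hκi : ∀ i : ℕ, ∃ κ : ℝ, 0 < κ ∧ ∃ N₁ : ℕ, i < m → ∀ N : ℕ, N₁ ≤ N → ∀ H : ℕ, W ≤ H →
      lam * Real.log N ≤ H → 100 * (t' i * H) ≤ N → ∀ (b : ℕ) (V : Finset ℕ),
      V ⊆ range (H + 1) → (∀ x ∈ V, (b + t' i * x).Coprime W) → η' * H ≤ V.card →
      ((Bad (Qd κ N (t' i)) V (TT (i + 1)) (TT i)).card : ℝ) ≤ ε₁ * (V.card : ℝ) ^ TT (i + 1) := by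
    intro i
    by_cases hi : i < m
    · obtain ⟨j, hj⟩ := ht' i hi
      obtain ⟨κ, hκ, hev⟩ := hK0 i (t' i) W (by rw [hj]; exact ht j) hW1 (hWd i hi) lam η' ε₁ hlam hη'0 hε₁
      obtain ⟨N₁, hN₁⟩ := eventually_atTop.1 hev
      refine ⟨κ, hκ, N₁, fun _ N hN H h1 h2 h3 b V h4 h5 h6 => ?_⟩
      have h7 := hN₁ N hN H h1 h2 h3 b V h4 h5 h6
      have h8 : TT i - 1 + 1 = TT i := by have := TT_ge i; omega
      rw [h8] at h7
      exact h7
    · exact ⟨1, one_pos, 0, fun h => absurd h hi⟩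
  choose κi hκi0 N₁ hN₁ using hκi
  obtain ⟨κ₀, hκ₀, hκ₀le⟩ := exists_low κi hκi0 m
  obtain ⟨N₂, hN₂⟩ := exists_up N₁ m
  obtain ⟨Dg, hDg⟩ : ∃ Dg : ℝ, Dg = Uz z t 0 := ⟨_, rfl⟩
  have hDg0 : 0 ≤ Dg := by rw [hDg]; exact Uz_nonneg z t 0
  obtain ⟨H₁, hH₁⟩ := exists_nat_ge (4 * (Dg + 1) / c + 2 ^ (r + 2) * (Dg + 1) / η ^ 2)
  refine ⟨κ₀ / B, by positivity, max (max N₂ W) (max H₁ 1), fun N hN H hHN hcond A hA hAd => ?_⟩
  have hWH : W ≤ H := ((le_max_right _ _).trans (le_max_left _ _)).trans hHN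
  have hH1 : 1 ≤ H := ((le_max_right _ _).trans (le_max_right _ _)).trans hHN
  have hHR : (1 : ℝ) ≤ H := by exact_mod_cast hH1
  have hHH₁ : 4 * (Dg + 1) / c + 2 ^ (r + 2) * (Dg + 1) / η ^ 2 ≤ H :=
    hH₁.trans (by exact_mod_cast ((le_max_left _ _).trans (le_max_right _ _)).trans hHN)
  have hAH : (A.card : ℝ) ≤ H := by
    have h1 := card_le_card hA
    rw [Nat.card_Icc] at h1
    exact_mod_cast (by omega : A.card ≤ H)
  have hdgc : A.card * Dg ≤ c / 4 * (H : ℝ) ^ 2 := by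
    have h1 : 4 * (Dg + 1) / c ≤ H := by
      have : 0 ≤ 2 ^ (r + 2) * (Dg + 1) / η ^ 2 := by positivity
      linarith
    rw [div_le_iff₀ hc0] at h1
    calc A.card * Dg ≤ H * Dg := mul_le_mul_of_nonneg_right hAH hDg0
      _ ≤ H * (c / 4 * H) := by
        apply mul_le_mul_of_nonneg_left _ (by linarith)
        linarith
      _ = _ := by ring
  have hdgη : A.card * Dg ≤ η ^ 2 / 2 ^ (r + 2) * (H : ℝ) ^ 2 := by
    have h1 : 2 ^ (r + 2) * (Dg + 1) / η ^ 2 ≤ H := by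
      have : 0 ≤ 4 * (Dg + 1) / c := by positivity
      linarith
    rw [div_le_iff₀ (by positivity)] at h1
    have h2 : Dg ≤ η ^ 2 / 2 ^ (r + 2) * H := by
      rw [div_mul_eq_mul_div, le_div_iff₀ (by positivity)]
      have : (0 : ℝ) < 2 ^ (r + 2) := by positivity
      nlinarith
    calc A.card * Dg ≤ H * Dg := mul_le_mul_of_nonneg_right hAH hDg0
      _ ≤ H * (η ^ 2 / 2 ^ (r + 2) * H) := mul_le_mul_of_nonneg_left h2 (by linarith)
      _ = _ := by ring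
  -- the good pairs
  obtain ⟨P, hP⟩ : ∃ P : ℕ → ℕ → ℕ → Prop, P = fun i x y => Qd (κi i) (N i) (t' i) x y := ⟨_, rfl⟩
  have hPs : ∀ i x y, P i x y → P i y x := by
    intro i x y h
    rw [hP] at h ⊢
    exact Qd_symm h
  obtain ⟨C, hC⟩ : ∃ C : ℕ → ℕ → Prop, C = fun x y => ∀ i < m, P i x y := ⟨_, rfl⟩
  have hCs : ∀ x y, C x y → C y x := by
    intro x y h
    rw [hC] at h ⊢
    exact fun i hi => hPs i x y (h i hi)
  -- classes
  have h1 : (θ - ε / 2) * ∑ y ∈ A ×ˢ A, Uz z t (ad y.1 y.2) ≤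
      ∑ y ∈ (A ×ˢ A).filter (fun y => C y.1 y.2), Uz z t (ad y.1 y.2) + c / 4 * (H : ℝ) ^ 2 := by
    have h2 := ordered hz2 t A (fun y => C y.1 y.2) (θ - ε / 2) (η' * H) (by linarith) (by positivity) (by
      intro b _ hb
      rw [← hW] at hb ⊢
      have h3 := hdense P hPs (Ab W t A b) (by
        intro i hi
        obtain ⟨j, hj⟩ := ht' i hi
        rw [hP]
        refine hN₁ i hi (N i) ((hN₂ i hi).trans (((le_max_left _ _).trans (le_max_left _ _)).trans (hN i hi))) H hWH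
          (hcond i hi).1 (hcond i hi).2 (b j) (Ab W t A b) ?_ ?_ hb
        · intro x hx
          have h4 := mem_Icc.1 (hA (mem_filter.1 hx).1)
          rw [mem_range]
          omega
        · intro x hx
          rw [hj]
          exact (mem_filter.1 hx).2 j)
      rw [hθ]
      refine h3.trans (le_of_eq ?_)
      subst hC
      congr)
    have h3 : (primorial z : ℝ) ^ r * (η' * H) ^ 2 / cW z ^ r = c / 4 * (H : ℝ) ^ 2 := by
      rw [← hW, ← hη'sq]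
      ring
    rw [h3] at h2
    exact h2
  obtain ⟨h2, -⟩ := split_pairs A (Uz z t) C hCs (Uz_nonneg z t 0)
  obtain ⟨h2', h4⟩ := split_pairs A (Uz z t) (fun _ _ => True) (fun _ _ _ => trivial) (Uz_nonneg z t 0)
  simp only [Finset.filter_true, and_true] at h2' h4
  rw [← hDg] at h2 h2'
  -- large singular series
  have h3 : ∑ y ∈ (A ×ˢ A).filter (fun y => y.1 < y.2 ∧ C y.1 y.2), Uz z t (y.2 - y.1) ≤
      ∑ y ∈ (A ×ˢ A).filter (fun y => y.1 < y.2 ∧ ∀ i < m,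
        κ₀ / B * (S (t' i * (y.2 - y.1)) * (N i / Real.log (N i) ^ 2)) ≤ (pi2 (N i) (t' i * (y.2 - y.1)) : ℝ)),
        U t (y.2 - y.1) +
      ∑ y ∈ (A ×ˢ A).filter (fun y => y.1 < y.2 ∧ ∃ j, B < S (t j * (y.2 - y.1))), U t (y.2 - y.1) := by
    have h5 : (A ×ˢ A).filter (fun y => y.1 < y.2 ∧ C y.1 y.2) ⊆
        (A ×ˢ A).filter (fun y => y.1 < y.2 ∧ ∀ i < m,
        κ₀ / B * (S (t' i * (y.2 - y.1)) * (N i / Real.log (N i) ^ 2)) ≤ (pi2 (N i) (t' i * (y.2 - y.1)) : ℝ)) ∪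
        (A ×ˢ A).filter (fun y => y.1 < y.2 ∧ ∃ j, B < S (t j * (y.2 - y.1))) := by
      intro y hy
      obtain ⟨h6, h7, h8⟩ := mem_filter.1 hy
      rw [mem_union]
      by_cases h9 : ∃ j, B < S (t j * (y.2 - y.1))
      · exact Or.inr (mem_filter.2 ⟨h6, h7, h9⟩)
      · push Not at h9
        refine Or.inl (mem_filter.2 ⟨h6, h7, fun i hi => ?_⟩)
        obtain ⟨j, hj⟩ := ht' i hi
        have h10 := h9 j
        rw [← hj] at h10
        have h11 : P i y.1 y.2 := by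
          rw [hC] at h8
          exact h8 i hi
        rw [hP] at h11
        have h12 : Gdf (k := 1) (κi i) (N i) ![((1 : ℤ), ((t' i * y.1 : ℕ) : ℤ)), ((1 : ℤ), ((t' i * y.2 : ℕ) : ℤ))] := h11
        have h13 := gdf_pi2 h12 (d := t' i * (y.2 - y.1)) (by
          rw [Nat.mul_sub]
          have := Nat.mul_le_mul_left (t' i) h7.le
          omega) (by
          intro n hn
          have h14 := (mem_Icc.1 hn).2
          have h15 : t' i * y.2 ≤ t' i * H := Nat.mul_le_mul_left _ (mem_Icc.1 (hA (mem_product.1 h6).2)).2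
          have h16 := (hcond i hi).2
          omega)
        refine le_trans ?_ h13
        have h14 : (0 : ℝ) ≤ (N i : ℝ) / Real.log (N i) ^ 2 := by positivity
        have h15 := hκ₀le i hi
        calc κ₀ / B * (S (t' i * (y.2 - y.1)) * (N i / Real.log (N i) ^ 2)) ≤
            κ₀ / B * (B * (N i / Real.log (N i) ^ 2)) := by
              apply mul_le_mul_of_nonneg_left _ (by positivity)
              exact mul_le_mul_of_nonneg_right h10 h14
          _ = κ₀ * (N i / Real.log (N i) ^ 2) := by field_simp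
          _ ≤ κi i * (N i / Real.log (N i) ^ 2) := mul_le_mul_of_nonneg_right h15 h14
    have hUU : ∀ y ∈ (A ×ˢ A).filter (fun y => y.1 < y.2 ∧ C y.1 y.2), Uz z t (y.2 - y.1) ≤ U t (y.2 - y.1) := by
      intro y hy
      exact Uz_le_U hz2 ht htz (by have := (mem_filter.1 hy).2.1; omega)
    refine (sum_le_sum hUU).trans ((sum_le_sum_of_subset_of_nonneg h5 fun _ _ _ => U_nonneg _ _).trans ?_)
    rw [← sum_union_inter]
    have : 0 ≤ ∑ y ∈ (A ×ˢ A).filter (fun y => y.1 < y.2 ∧ ∀ i < m,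
        κ₀ / B * (S (t' i * (y.2 - y.1)) * (N i / Real.log (N i) ^ 2)) ≤ (pi2 (N i) (t' i * (y.2 - y.1)) : ℝ)) ∩
        (A ×ˢ A).filter (fun y => y.1 < y.2 ∧ ∃ j, B < S (t j * (y.2 - y.1))), U t (y.2 - y.1) :=
      sum_nonneg fun _ _ => U_nonneg _ _
    linarith
  have hE₂ : ∑ y ∈ (A ×ˢ A).filter (fun y => y.1 < y.2 ∧ ∃ j, B < S (t j * (y.2 - y.1))), U t (y.2 - y.1) ≤
      c / 4 * (H : ℝ) ^ 2 := by
    have h5 := sum_diff_le A H hA (U t) (fun d _ => U_nonneg t d) (fun d => ∃ j, B < S (t j * d))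
    have h6 := hlarge H
    calc _ ≤ (H : ℝ) * ∑ d ∈ (Icc 1 H).filter (fun d => ∃ j, B < S (t j * d)), U t d := h5
      _ ≤ H * (c / 4 * H) := mul_le_mul_of_nonneg_left h6 (by linarith)
      _ = _ := by ring
  -- the tail
  have h5 : ∑ y ∈ (A ×ˢ A).filter (fun y => y.1 < y.2), U t (y.2 - y.1) ≤
      ∑ y ∈ (A ×ˢ A).filter (fun y => y.1 < y.2), Uz z t (y.2 - y.1) + c / 4 * (H : ℝ) ^ 2 := by
    have h6 := sum_diff_le A H hA (fun d => U t d - Uz z t d)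
      (fun d hd => sub_nonneg.2 (Uz_le_U hz2 ht htz hd)) (fun _ => True)
    simp only [Finset.filter_true, and_true] at h6
    rw [sum_sub_distrib] at h6
    have h7 := htail H
    have h8 : (H : ℝ) * ∑ d ∈ Icc 1 H, (U t d - Uz z t d) ≤ c / 4 * (H : ℝ) ^ 2 := by
      calc (H : ℝ) * ∑ d ∈ Icc 1 H, (U t d - Uz z t d) ≤ H * (c / 4 * H) :=
            mul_le_mul_of_nonneg_left h7 (by linarith)
        _ = _ := by ring
    linarith
  -- the lower bound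
  have hlow := pairs_low hz2 t A
  have hD : c * (H : ℝ) ^ 2 ≤ (ε / 2) * ∑ y ∈ (A ×ˢ A).filter (fun y => y.1 < y.2), U t (y.2 - y.1) := by
    have h6 : ∑ y ∈ (A ×ˢ A).filter (fun y => y.1 < y.2), Uz z t (y.2 - y.1) ≤
        ∑ y ∈ (A ×ˢ A).filter (fun y => y.1 < y.2), U t (y.2 - y.1) := by
      apply sum_le_sum
      intro y hy
      exact Uz_le_U hz2 ht htz (by have := (mem_filter.1 hy).2; omega)
    have h7 : (η * H) ^ 2 ≤ (A.card : ℝ) ^ 2 := pow_le_pow_left₀ (by positivity) hAd 2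
    have h8 : (η * H) ^ 2 / 2 ^ r ≤ (A.card : ℝ) ^ 2 / 2 ^ r := div_le_div_of_nonneg_right h7 (by positivity)
    have h9 : (η * (H : ℝ)) ^ 2 / 2 ^ r = 4 * (η ^ 2 / 2 ^ (r + 2) * (H : ℝ) ^ 2) := by
      rw [pow_add]
      field_simp
      ring
    rw [h9] at h8
    have h10 : η ^ 2 / 2 ^ (r + 2) * (H : ℝ) ^ 2 ≤ ∑ y ∈ (A ×ˢ A).filter (fun y => y.1 < y.2), U t (y.2 - y.1) := by
      have : 0 ≤ η ^ 2 / 2 ^ (r + 2) * (H : ℝ) ^ 2 := by positivity
      linarith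
    rw [hc, mul_assoc]
    exact mul_le_mul_of_nonneg_left h10 (by positivity)
  have hfin := arith (θ' := θ - ε / 2) (ε := ε / 2) (c := c) (H2 := (H : ℝ) ^ 2) (by linarith) (by linarith)
    h1 h2 h3 h4 h5 hdgc hE₂ (by positivity) hD hc0.le
  have e1 : θ - ε / 2 - ε / 2 = θ - ε := by ring
  rw [e1] at hfin
  exact hfin

end Pool.Agent.L7h36.DS
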