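import Mathlib
import Pool.Agent.L7h36.DS.Main

/-!
Dense sets of shifts: the final form with real heights (helper36).
-/

set_option autoImplicit false

namespace Pool.Agent.L7h36.DS

open Finset Filter Topology
open Pool.Agent.N646.RG

variable {r : ℕ}

/-- the weighted number of all pairs of a dense set -/
theorem low_bound (t : Fin r → ℕ) (ht : ∀ j, 1 ≤ t j) (η : ℝ) (hη : 0 < η) : ∃ H₀ : ℕ, ∀ H : ℕ, H₀ ≤ H →
    ∀ A : Finset ℕ, A ⊆ Icc 1 H → η * H ≤ A.card →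
    η ^ 2 / 2 ^ (r + 2) * (H : ℝ) ^ 2 ≤ ∑ y ∈ (A ×ˢ A).filter (fun y => y.1 < y.2), U t (y.2 - y.1) := by
  obtain ⟨z, hz₀⟩ := tail_small t ht 1 one_pos
  obtain ⟨hz2, htz, -⟩ := hz₀ z le_rfl
  obtain ⟨Dg, hDg⟩ : ∃ Dg : ℝ, Dg = Uz z t 0 := ⟨_, rfl⟩
  have hDg0 : 0 ≤ Dg := by rw [hDg]; exact Uz_nonneg z t 0
  obtain ⟨H₁, hH₁⟩ := exists_nat_ge (2 ^ (r + 2) * (Dg + 1) / η ^ 2)
  refine ⟨max H₁ 1, fun H hHN A hA hAd => ?_⟩
  have hH1 : 1 ≤ H := (le_max_right _ _).trans hHN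
  have hHR : (1 : ℝ) ≤ H := by exact_mod_cast hH1
  have hHH₁ : 2 ^ (r + 2) * (Dg + 1) / η ^ 2 ≤ H :=
    hH₁.trans (by exact_mod_cast (le_max_left _ _).trans hHN)
  have hAH : (A.card : ℝ) ≤ H := by
    have h1 := card_le_card hA
    rw [Nat.card_Icc] at h1
    exact_mod_cast (by omega : A.card ≤ H)
  have hdgη : A.card * Dg ≤ η ^ 2 / 2 ^ (r + 2) * (H : ℝ) ^ 2 := by
    have h1 := hHH₁
    rw [div_le_iff₀ (by positivity)] at h1
    have h2 : Dg ≤ η ^ 2 / 2 ^ (r + 2) * H := by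
      rw [div_mul_eq_mul_div, le_div_iff₀ (by positivity)]
      have : (0 : ℝ) < 2 ^ (r + 2) := by positivity
      nlinarith
    calc A.card * Dg ≤ H * Dg := mul_le_mul_of_nonneg_right hAH hDg0
      _ ≤ H * (η ^ 2 / 2 ^ (r + 2) * H) := mul_le_mul_of_nonneg_left h2 (by linarith)
      _ = _ := by ring
  obtain ⟨h2', -⟩ := split_pairs A (Uz z t) (fun _ _ => True) (fun _ _ _ => trivial) (Uz_nonneg z t 0)
  simp only [Finset.filter_true, and_true] at h2'
  rw [← hDg] at h2'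
  have hlow := pairs_low hz2 t A
  have h6 : ∑ y ∈ (A ×ˢ A).filter (fun y => y.1 < y.2), Uz z t (y.2 - y.1) ≤
      ∑ y ∈ (A ×ˢ A).filter (fun y => y.1 < y.2), U t (y.2 - y.1) := by
    apply sum_le_sum
    intro y hy
    exact Uz_le_U hz2 ht htz (by have := (mem_filter.1 hy).2; omega)
  have h7 : (η * H) ^ 2 ≤ (A.card : ℝ) ^ 2 := pow_le_pow_left₀ (by positivity) hAd 2
  have h8 : (η * H) ^ 2 / 2 ^ r ≤ (A.card : ℝ) ^ 2 / 2 ^ r := div_le_div_of_nonneg_right h7 (by positivity)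
  have h9 : (η * (H : ℝ)) ^ 2 / 2 ^ r = 4 * (η ^ 2 / 2 ^ (r + 2) * (H : ℝ) ^ 2) := by
    rw [pow_add]
    field_simp
    ring
  rw [h9] at h8
  have : 0 ≤ η ^ 2 / 2 ^ (r + 2) * (H : ℝ) ^ 2 := by positivity
  linarith

/-- the number of the primes `p ≤ x` for which `p - d` is prime -/
noncomputable def pi2R (x : ℝ) (d : ℕ) : ℕ := ((Icc 1 ⌊x⌋₊).filter (fun p : ℕ => p.Prime ∧ (p - d).Prime)).card

open Classical in
/-- **main theorem with real heights** -/
theorem fin (hH : S_HITM2 1) (s : ℕ) (t : Fin r → ℕ) (ht : ∀ j, 1 ≤ t j) (ε η lam : ℝ) (hε : 0 < ε)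
    (hη : 0 < η) (hlam : 0 < lam) :
    ∃ κ : ℝ, 0 < κ ∧ ∃ X : ℝ, ∀ x : Fin s → ℝ, (∀ i, X ≤ x i) → ∀ H : ℕ, X ≤ H →
    (∀ i, lam * Real.log (x i) ≤ H) → (∀ i j, 100 * ((t j : ℝ) * H) ≤ x i) → ∀ A : Finset ℕ, A ⊆ Icc 1 H →
    η * H ≤ A.card →
    η ^ 2 / 2 ^ (r + 2) * (H : ℝ) ^ 2 ≤ ∑ y ∈ (A ×ˢ A).filter (fun y => y.1 < y.2), U t (y.2 - y.1) ∧
    (1 / ((TT (r * s) : ℝ) - 1) - ε) * ∑ y ∈ (A ×ˢ A).filter (fun y => y.1 < y.2), U t (y.2 - y.1) ≤
      ∑ y ∈ (A ×ˢ A).filter (fun y => y.1 < y.2 ∧ ∀ i j,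
        κ * (S (t j * (y.2 - y.1)) * (x i / Real.log (x i) ^ 2)) ≤ (pi2R (x i) (t j * (y.2 - y.1)) : ℝ)),
        U t (y.2 - y.1) := by
  obtain ⟨e, he⟩ : ∃ e : Fin (r * s) → Fin r × Fin s, e = fun i => finProdFinEquiv.symm i := ⟨_, rfl⟩
  obtain ⟨t', ht'⟩ : ∃ t' : ℕ → ℕ, t' = fun i => if h : i < r * s then t (e ⟨i, h⟩).1 else 1 := ⟨_, rfl⟩
  obtain ⟨κ, hκ, N₀, hN₀⟩ := core hH t ht (r * s) t' (by
    intro i hi
    refine ⟨(e ⟨i, hi⟩).1, ?_⟩
    rw [ht']
    simp only [hi, dif_pos]) ε η lam hε hη hlam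
  obtain ⟨H₀, hH₀⟩ := low_bound t ht η hη
  refine ⟨κ / 2, by positivity, (N₀ : ℝ) + H₀ + 3, fun x hx H hXH hl hxH A hA hAd => ⟨?_, ?_⟩⟩
  · apply hH₀ H _ A hA hAd
    have h1 : (H₀ : ℝ) ≤ H := by
      have : (0 : ℝ) ≤ N₀ := Nat.cast_nonneg _
      linarith
    exact_mod_cast h1
  obtain ⟨N, hN⟩ : ∃ N : ℕ → ℕ, N = fun i => if h : i < r * s then ⌊x (e ⟨i, h⟩).2⌋₊ else 0 := ⟨_, rfl⟩
  have hNi : ∀ i (hi : i < r * s), N i = ⌊x (e ⟨i, hi⟩).2⌋₊ := by
    intro i hi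
    rw [hN]
    simp only [hi, dif_pos]
  have hti : ∀ i (hi : i < r * s), t' i = t (e ⟨i, hi⟩).1 := by
    intro i hi
    rw [ht']
    simp only [hi, dif_pos]
  have hx3 : ∀ i, (N₀ : ℝ) + 3 ≤ x i := by
    intro i
    have : (0 : ℝ) ≤ H₀ := Nat.cast_nonneg _
    have := hx i
    linarith
  have hfl : ∀ i, N₀ + 3 ≤ ⌊x i⌋₊ := by
    intro i
    apply Nat.le_floor
    push_cast
    exact hx3 i
  have h1 := hN₀ N (by
    intro i hi
    rw [hNi i hi]
    have := hfl (e ⟨i, hi⟩).2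
    omega) H (by
    have h1 : (N₀ : ℝ) ≤ H := by
      have : (0 : ℝ) ≤ H₀ := Nat.cast_nonneg _
      linarith
    exact_mod_cast h1) (by
    intro i hi
    rw [hNi i hi, hti i hi]
    constructor
    · refine le_trans (mul_le_mul_of_nonneg_left ?_ hlam.le) (hl (e ⟨i, hi⟩).2)
      apply Real.log_le_log
      · have := hfl (e ⟨i, hi⟩).2
        exact_mod_cast (by omega : 0 < ⌊x (e ⟨i, hi⟩).2⌋₊)
      · apply Nat.floor_le
        have := hx3 (e ⟨i, hi⟩).2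
        have h0 : (0 : ℝ) ≤ N₀ := Nat.cast_nonneg _
        linarith
    · apply Nat.le_floor
      push_cast
      exact hxH _ _) A hA hAd
  refine h1.trans (sum_le_sum_of_subset_of_nonneg ?_ fun _ _ _ => U_nonneg _ _)
  intro y hy
  obtain ⟨h2, h3, h4⟩ := mem_filter.1 hy
  refine mem_filter.2 ⟨h2, h3, fun i j => ?_⟩
  obtain ⟨k, hk⟩ : ∃ k : Fin (r * s), e k = (j, i) := ⟨finProdFinEquiv (j, i), by rw [he]; simp⟩
  have h5 := h4 k.1 k.2
  rw [hNi k.1 k.2, hti k.1 k.2] at h5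
  have h6 : e ⟨k.1, k.2⟩ = (j, i) := hk
  rw [h6] at h5
  simp only at h5
  obtain ⟨n, hn⟩ : ∃ n, n = ⌊x i⌋₊ := ⟨_, rfl⟩
  have hx0 : (0 : ℝ) ≤ x i := by
    have := hx3 i
    have h0 : (0 : ℝ) ≤ N₀ := Nat.cast_nonneg _
    linarith
  have hnx : (n : ℝ) ≤ x i := by rw [hn]; exact Nat.floor_le hx0
  have hxn : x i < n + 1 := by rw [hn]; exact Nat.lt_floor_add_one _
  have hn3 : N₀ + 3 ≤ n := by rw [hn]; exact hfl i
  have hn3R : (3 : ℝ) ≤ n := by exact_mod_cast (by omega : 3 ≤ n)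
  have hln : 0 < Real.log n := Real.log_pos (by linarith)
  have hlnx : Real.log n ≤ Real.log (x i) := Real.log_le_log (by linarith) hnx
  unfold pi2 at h5
  unfold pi2R
  rw [← hn] at h5 ⊢
  refine le_trans ?_ h5
  have h7 : x i / Real.log (x i) ^ 2 ≤ 2 * (n / Real.log n ^ 2) := by
    rw [← mul_div_assoc]
    apply div_le_div₀ (by linarith) (by linarith) (by positivity)
    exact pow_le_pow_left₀ hln.le hlnx 2
  have h8 := S_nonneg (t j * (y.2 - y.1))
  calc κ / 2 * (S (t j * (y.2 - y.1)) * (x i / Real.log (x i) ^ 2)) ≤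
      κ / 2 * (S (t j * (y.2 - y.1)) * (2 * (n / Real.log n ^ 2))) := by
        apply mul_le_mul_of_nonneg_left _ (by positivity)
        exact mul_le_mul_of_nonneg_left h7 h8
    _ = _ := by ring

open Classical in
/-- **a positive proportion of the differences** -/
theorem fin2 (hH : S_HITM2 1) (s : ℕ) (t : Fin r → ℕ) (ht : ∀ j, 1 ≤ t j) (lam : ℝ) (hlam : 0 < lam) :
    ∃ δ κ : ℝ, 0 < δ ∧ 0 < κ ∧ ∃ X : ℝ, ∀ x : Fin s → ℝ, (∀ i, X ≤ x i) → ∀ H : ℕ, X ≤ H →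
    (∀ i, lam * Real.log (x i) ≤ H) → (∀ i j, 100 * ((t j : ℝ) * H) ≤ x i) →
    δ * H ≤ (((Icc 1 H).filter (fun d => (∀ j, Even (t j * d)) ∧ ∀ i j,
      κ * (S (t j * d) * (x i / Real.log (x i) ^ 2)) ≤ (pi2R (x i) (t j * d) : ℝ))).card : ℝ) := by
  obtain ⟨θ, hθ⟩ : ∃ θ : ℝ, θ = 1 / ((TT (r * s) : ℝ) - 1) := ⟨_, rfl⟩
  have hTT : (2 : ℝ) ≤ TT (r * s) := by exact_mod_cast TT_ge (r * s)
  have hθ0 : 0 < θ := by rw [hθ]; apply div_pos one_pos; linarith
  obtain ⟨κ, hκ, X, hX⟩ := fin hH s t ht (θ / 2) 1 lam (by positivity) one_pos hlam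
  obtain ⟨c, hc⟩ : ∃ c : ℝ, c = θ / 2 * (1 / 2 ^ (r + 2)) := ⟨_, rfl⟩
  have hc0 : 0 < c := by rw [hc]; positivity
  obtain ⟨B, hB1, hlarge⟩ := large_small t ht (c / 2) (by positivity)
  refine ⟨c / (2 * B ^ r), κ, by positivity, hκ, max X 1, fun x hx H hXH hl hxH => ?_⟩
  have hH1 : (1 : ℝ) ≤ H := (le_max_right _ _).trans hXH
  have hcard : (Icc 1 H).card = H := by rw [Nat.card_Icc]; omega
  obtain ⟨h1, h2⟩ := hX x (fun i => (le_max_left _ _).trans (hx i)) H ((le_max_left _ _).trans hXH) hl hxH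
    (Icc 1 H) (le_refl _) (by rw [hcard]; linarith)
  rw [← hθ] at h2
  obtain ⟨Q, hQ⟩ : ∃ Q : ℕ → Prop, Q = fun d => ∀ i j,
    κ * (S (t j * d) * (x i / Real.log (x i) ^ 2)) ≤ (pi2R (x i) (t j * d) : ℝ) := ⟨_, rfl⟩
  have h3 : ∑ y ∈ (Icc 1 H ×ˢ Icc 1 H).filter (fun y => y.1 < y.2 ∧ ∀ i j,
        κ * (S (t j * (y.2 - y.1)) * (x i / Real.log (x i) ^ 2)) ≤ (pi2R (x i) (t j * (y.2 - y.1)) : ℝ)),
        U t (y.2 - y.1) ≤ H * ∑ d ∈ (Icc 1 H).filter Q, U t d := by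
    have := sum_diff_le (Icc 1 H) H (le_refl _) (U t) (fun d _ => U_nonneg t d) Q
    subst hQ
    refine le_trans (le_of_eq ?_) this
    congr
  have h4 : c * (H : ℝ) ^ 2 ≤ H * ∑ d ∈ (Icc 1 H).filter Q, U t d := by
    refine le_trans ?_ (h2.trans h3)
    have e1 : θ - θ / 2 = θ / 2 := by ring
    rw [e1, hc, mul_assoc]
    apply mul_le_mul_of_nonneg_left _ (by positivity)
    have e2 : (1 : ℝ) ^ 2 / 2 ^ (r + 2) = 1 / 2 ^ (r + 2) := by norm_num
    rw [e2] at h1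
    exact h1
  have h5 : c * H ≤ ∑ d ∈ (Icc 1 H).filter Q, U t d := by
    have h6 : (H : ℝ) * (c * H) ≤ H * ∑ d ∈ (Icc 1 H).filter Q, U t d := by
      refine le_trans (le_of_eq ?_) h4
      ring
    exact le_of_mul_le_mul_left h6 (by linarith)
  -- the differences with bounded singular series
  obtain ⟨F, hF⟩ : ∃ F, F = (Icc 1 H).filter (fun d => (∀ j, Even (t j * d)) ∧ ∀ i j,
      κ * (S (t j * d) * (x i / Real.log (x i) ^ 2)) ≤ (pi2R (x i) (t j * d) : ℝ)) := ⟨_, rfl⟩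
  rw [← hF]
  have h6 : ∑ d ∈ (Icc 1 H).filter Q, U t d ≤ F.card * B ^ r + c / 2 * H := by
    have h7 : ∑ d ∈ (Icc 1 H).filter Q, U t d ≤ ∑ d ∈ F, B ^ r +
        ∑ d ∈ (Icc 1 H).filter (fun d => ∃ j, B < S (t j * d)), U t d := by
      have h8 : ∀ d ∈ (Icc 1 H).filter Q, U t d ≤ (if d ∈ F then B ^ r else 0) +
          (if d ∈ (Icc 1 H).filter (fun d => ∃ j, B < S (t j * d)) then U t d else 0) := by
        intro d hd
        obtain ⟨hd1, hd2⟩ := mem_filter.1 hd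
        have hBr : 0 ≤ B ^ r := by positivity
        by_cases h9 : ∃ j, B < S (t j * d)
        · have h10 : d ∈ (Icc 1 H).filter (fun d => ∃ j, B < S (t j * d)) := mem_filter.2 ⟨hd1, h9⟩
          rw [if_pos h10]
          split_ifs <;> linarith
        · push Not at h9
          by_cases h10 : ∀ j, Even (t j * d)
          · have h11 : d ∈ F := by
              rw [hF]
              refine mem_filter.2 ⟨hd1, h10, ?_⟩
              rw [hQ] at hd2
              exact hd2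
            rw [if_pos h11]
            have h12 : U t d ≤ B ^ r := by
              unfold U
              have h13 : B ^ r = ∏ _j : Fin r, B := by rw [prod_const, card_univ, Fintype.card_fin]
              rw [h13]
              exact Finset.prod_le_prod (fun _ _ => S_nonneg _) fun j _ => h9 j
            have h13 : 0 ≤ (if d ∈ (Icc 1 H).filter (fun d => ∃ j, B < S (t j * d)) then U t d else 0) := by
              split_ifs
              · exact U_nonneg t d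
              · exact le_rfl
            linarith
          · push Not at h10
            obtain ⟨j, hj⟩ := h10
            have h11 : U t d = 0 := by
              unfold U
              apply prod_eq_zero (mem_univ j)
              unfold S
              rw [if_neg hj]
            rw [h11]
            have h12 : (0 : ℝ) ≤ (if d ∈ F then B ^ r else 0) := by
              split_ifs
              · exact hBr
              · exact le_rfl
            have h13 : (0 : ℝ) ≤ (if d ∈ (Icc 1 H).filter (fun d => ∃ j, B < S (t j * d)) then (0 : ℝ) else 0) := by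
              split_ifs <;> exact le_rfl
            linarith
      refine (sum_le_sum h8).trans ?_
      rw [sum_add_distrib, ← sum_filter, ← sum_filter]
      apply add_le_add
      · apply sum_le_sum_of_subset_of_nonneg
        · intro d hd
          exact (mem_filter.1 hd).2
        · intro _ _ _
          positivity
      · apply sum_le_sum_of_subset_of_nonneg
        · intro d hd
          exact (mem_filter.1 hd).2
        · intro _ _ _
          exact U_nonneg t _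
    refine h7.trans ?_
    rw [sum_const, nsmul_eq_mul]
    have := hlarge H
    linarith
  rw [div_mul_eq_mul_div, div_le_iff₀ (by positivity)]
  nlinarith

end Pool.Agent.L7h36.DS
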