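import Mathlib
import Pool.Agent.L7h36.DS.Mul
import Pool.Agent.Helper601.Mertens

/-!
Powers of the singular series in windows (helper36).
-/

set_option autoImplicit false

namespace Pool.Agent.L7h36.DS

open Finset Filter Topology
open Pool.Agent.N646.TT (gg fac_ge gg_nonneg)

/-- the multiples in a window -/
theorem window_dvd (w L m : ℕ) (hm : 0 < m) :
    (((Ioc w (w + L)).filter (fun d => m ∣ d)).card : ℝ) ≤ (L : ℝ) / m + 1 := by
  have h1 : ((Ioc w (w + L)).filter (fun d => m ∣ d)).card + w / m = (w + L) / m := by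
    rw [← Nat.Ioc_filter_dvd_card_eq_div w m, ← Nat.Ioc_filter_dvd_card_eq_div (w + L) m, add_comm,
      ← card_union_of_disjoint]
    · congr 1
      ext d
      rw [mem_union, mem_filter, mem_filter, mem_filter, mem_Ioc, mem_Ioc, mem_Ioc]
      constructor
      · rintro (⟨h1, h2⟩ | ⟨h1, h2⟩)
        · exact ⟨⟨h1.1, by omega⟩, h2⟩
        · exact ⟨⟨by omega, h1.2⟩, h2⟩
      · rintro ⟨h1, h2⟩
        by_cases h3 : d ≤ w
        · exact Or.inl ⟨⟨h1.1, h3⟩, h2⟩
        · exact Or.inr ⟨⟨by omega, h1.2⟩, h2⟩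
    · rw [disjoint_left]
      intro d h1 h2
      have h3 := (mem_Ioc.1 (mem_filter.1 h1).1).2
      have h4 := (mem_Ioc.1 (mem_filter.1 h2).1).1
      omega
  have hm0 : (0 : ℝ) < m := by exact_mod_cast hm
  have h2 : (((w + L) / m : ℕ) : ℝ) ≤ ((w + L : ℕ) : ℝ) / m := Nat.cast_div_le
  have h3 : (w : ℝ) / m < ((w / m : ℕ) : ℝ) + 1 := by
    rw [div_lt_iff₀ hm0]
    have h4 := Nat.lt_div_mul_add (a := w) hm
    have h5 : (w : ℝ) < ((w / m * m + m : ℕ) : ℝ) := by exact_mod_cast h4
    push_cast at h5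
    linarith
  have h4 : ((((Ioc w (w + L)).filter (fun d => m ∣ d)).card : ℕ) : ℝ) + ((w / m : ℕ) : ℝ) = (((w + L) / m : ℕ) : ℝ) := by
    exact_mod_cast h1
  have h5 : ((w + L : ℕ) : ℝ) / m = (w : ℝ) / m + L / m := by push_cast; ring
  linarith

/-- the sum over a window of a product over the prime factors in `(z, L]` -/
theorem sum_prod_win (φ : ℕ → ℝ) (hφ : ∀ p, 0 ≤ φ p) (z L w : ℕ) :
    ∑ d ∈ Ioc w (w + L), ∏ p ∈ d.primeFactors.filter (fun p => z < p ∧ p ≤ L), (1 + φ p) ≤
      L * Real.exp (∑ p ∈ (Icc (z + 1) L).filter Nat.Prime, φ p / p) +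
        Real.exp (∑ p ∈ (Icc (z + 1) L).filter Nat.Prime, φ p) := by
  classical
  obtain ⟨Q, hQ⟩ : ∃ Q, Q = (Icc (z + 1) L).filter Nat.Prime := ⟨_, rfl⟩
  have hQp : ∀ p ∈ Q, p.Prime := by
    intro p hp
    rw [hQ] at hp
    exact (mem_filter.1 hp).2
  have h1 : ∀ d ∈ Ioc w (w + L), ∏ p ∈ d.primeFactors.filter (fun p => z < p ∧ p ≤ L), (1 + φ p) =
      ∑ R ∈ Q.powerset, if (∏ p ∈ R, p) ∣ d then ∏ p ∈ R, φ p else 0 := by
    intro d hd
    have hd1 := (mem_Ioc.1 hd).1
    have e1 : d.primeFactors.filter (fun p => z < p ∧ p ≤ L) = Q.filter (fun p => p ∣ d) := by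
      ext p
      rw [hQ, mem_filter, mem_filter, mem_filter, mem_Icc, Nat.mem_primeFactors]
      constructor
      · rintro ⟨⟨h1, h2, h3⟩, h4, h5⟩
        exact ⟨⟨⟨h4, h5⟩, h1⟩, h2⟩
      · rintro ⟨⟨⟨h1, h2⟩, h3⟩, h4⟩
        exact ⟨⟨h3, h4, by omega⟩, h1, h2⟩
    rw [e1, prod_one_add, ← sum_filter]
    apply sum_congr _ fun _ _ => rfl
    ext R
    rw [mem_powerset, mem_filter, mem_powerset]
    constructor
    · intro h
      refine ⟨h.trans (filter_subset _ _), ?_⟩
      apply Finset.prod_primes_dvd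
      · intro p hp
        exact (hQp p (mem_filter.1 (h hp)).1).prime
      · intro p hp
        exact (mem_filter.1 (h hp)).2
    · rintro ⟨h2, h3⟩ p hp
      exact mem_filter.2 ⟨h2 hp, (dvd_prod_of_mem (fun p => p) hp).trans h3⟩
  rw [sum_congr rfl h1, sum_comm]
  have h2 : ∀ R ∈ Q.powerset, ∑ d ∈ Ioc w (w + L), (if (∏ p ∈ R, p) ∣ d then ∏ p ∈ R, φ p else 0) ≤
      L * ∏ p ∈ R, (φ p / p) + ∏ p ∈ R, φ p := by
    intro R hR
    have hR' := mem_powerset.1 hR
    rw [← sum_filter, sum_const, nsmul_eq_mul]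
    have hpos : 0 < ∏ p ∈ R, p := prod_pos fun p hp => (hQp p (hR' hp)).pos
    have h4 := window_dvd w L (∏ p ∈ R, p) hpos
    rw [prod_div_distrib]
    have h6 : 0 ≤ ∏ p ∈ R, φ p := prod_nonneg fun p _ => hφ p
    calc _ ≤ ((L : ℝ) / ((∏ p ∈ R, p : ℕ) : ℝ) + 1) * ∏ p ∈ R, φ p := mul_le_mul_of_nonneg_right h4 h6
      _ = L * ((∏ p ∈ R, φ p) / ∏ p ∈ R, (p : ℝ)) + ∏ p ∈ R, φ p := by
          push_cast
          ring
  refine (sum_le_sum h2).trans ?_
  rw [sum_add_distrib, ← mul_sum, ← prod_one_add, ← prod_one_add, ← hQ]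
  apply add_le_add
  · apply mul_le_mul_of_nonneg_left _ (Nat.cast_nonneg _)
    rw [Real.exp_sum]
    apply Finset.prod_le_prod
    · intro p _
      have := hφ p
      positivity
    · intro p _
      have := Real.add_one_le_exp (φ p / p)
      linarith
  · rw [Real.exp_sum]
    apply Finset.prod_le_prod
    · intro p _
      have := hφ p
      positivity
    · intro p _
      have := Real.add_one_le_exp (φ p)
      linarith

/-- the number of the large prime factors -/
theorem large_factors {d L : ℕ} (hd : 1 ≤ d) (hL : 2 ≤ L) :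
    (((d.primeFactors.filter (fun p => L < p)).card : ℕ) : ℝ) * Real.log L ≤ Real.log d := by
  have h1 : L ^ (d.primeFactors.filter (fun p => L < p)).card ≤ d := by
    calc L ^ (d.primeFactors.filter (fun p => L < p)).card = ∏ _p ∈ d.primeFactors.filter (fun p => L < p), L := by
          rw [prod_const]
      _ ≤ ∏ p ∈ d.primeFactors.filter (fun p => L < p), p :=
          prod_le_prod' fun p hp => (mem_filter.1 hp).2.le
      _ ≤ ∏ p ∈ d.primeFactors, p := prod_le_prod_of_subset_of_one_le' (filter_subset _ _)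
          fun p hp _ => (Nat.prime_of_mem_primeFactors hp).one_le
      _ ≤ d := Nat.le_of_dvd (by omega) (Nat.prod_primeFactors_dvd d)
  have h2 : ((L : ℝ)) ^ (d.primeFactors.filter (fun p => L < p)).card ≤ (d : ℝ) := by exact_mod_cast h1
  have hL0 : (0 : ℝ) < L := by exact_mod_cast (by omega : 0 < L)
  have h3 := Real.log_le_log (by positivity) h2
  rwa [Real.log_pow] at h3

/-- **moments of the singular series in windows** -/
theorem momW (k z : ℕ) (hz2 : 2 ≤ z) (lam ε : ℝ) (hlam : 0 < lam) (hε : 0 < ε) : ∃ X₀ : ℕ, ∀ X : ℕ, X₀ ≤ X →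
    ∀ L : ℕ, X₀ ≤ L → lam * Real.log X ≤ L → ∀ w : ℕ, w + L ≤ X →
    ∑ d ∈ Ioc w (w + L), hz z d ^ k ≤ L * ((1 + ε) * Real.exp (2 ^ k * (2 / (z - 1 : ℝ)))) := by
  have hzR : (2 : ℝ) ≤ z := by exact_mod_cast hz2
  obtain ⟨C, hC⟩ := Pool.Agent.Helper601.Mertens.mertens_inv
  obtain ⟨E, hE⟩ : ∃ E : ℝ, E = Real.exp (2 ^ k * (2 / (z - 1 : ℝ))) := ⟨_, rfl⟩
  have hE1 : 1 ≤ E := by
    rw [hE]
    apply Real.one_le_exp
    have : (0 : ℝ) ≤ 2 / (z - 1 : ℝ) := by
      apply div_nonneg (by norm_num)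
      linarith
    positivity
  rw [← hE]
  obtain ⟨c, hc⟩ : ∃ c : ℝ, c = 3 * 2 ^ k := ⟨_, rfl⟩
  -- choice of the size
  have tL : Tendsto (fun L : ℕ => Real.log (L : ℝ)) atTop atTop := Real.tendsto_log_atTop.comp tendsto_natCast_atTop_atTop
  have e1 : ∀ᶠ L : ℕ in atTop, Real.exp (c * (Real.log (Real.log L) + |C|)) ≤ ε / 8 * L := by
    have h := (isLittleO_log_rpow_rpow_atTop (c) (s := 1) one_pos).def
      (show 0 < ε / 8 * Real.exp (-(c * |C|)) by positivity)
    filter_upwards [(tendsto_natCast_atTop_atTop (R := ℝ)).eventually h, tL.eventually_ge_atTop 1, eventually_ge_atTop 1]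
      with L h1 h2 h3
    have hL1 : (1 : ℝ) ≤ L := by exact_mod_cast h3
    rw [Real.rpow_one, Real.norm_of_nonneg (Real.rpow_nonneg (by linarith) _), Real.norm_of_nonneg (by linarith)] at h1
    have h4 : Real.exp (c * (Real.log (Real.log L) + |C|)) = Real.log L ^ c * Real.exp (c * |C|) := by
      rw [mul_add, Real.exp_add, Real.rpow_def_of_pos (by linarith), mul_comm c (Real.log (Real.log L))]
    rw [h4]
    calc Real.log L ^ c * Real.exp (c * |C|) ≤ (ε / 8 * Real.exp (-(c * |C|)) * L) * Real.exp (c * |C|) :=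
          mul_le_mul_of_nonneg_right h1 (Real.exp_pos _).le
      _ = ε / 8 * L * (Real.exp (-(c * |C|)) * Real.exp (c * |C|)) := by ring
      _ = ε / 8 * L := by rw [← Real.exp_add, neg_add_cancel, Real.exp_zero, mul_one]
  obtain ⟨η, hη⟩ : ∃ η : ℝ, 0 < η ∧ Real.exp (k * η) * (1 + ε / 4) ≤ 1 + ε / 2 := by
    have h : Tendsto (fun η : ℝ => Real.exp (k * η) * (1 + ε / 4)) (𝓝 0) (𝓝 (Real.exp (k * 0) * (1 + ε / 4))) :=
      ((Real.continuous_exp.comp (continuous_const.mul continuous_id)).mul continuous_const).tendsto 0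
    rw [mul_zero, Real.exp_zero, one_mul] at h
    have h2 := h.eventually (gt_mem_nhds (show 1 + ε / 4 < 1 + ε / 2 by linarith))
    obtain ⟨δ, hδ, hb⟩ := Metric.eventually_nhds_iff.1 h2
    refine ⟨δ / 2, by positivity, (hb ?_).le⟩
    rw [Real.dist_eq, sub_zero, abs_of_pos (by positivity)]
    linarith
  have e2 : ∀ᶠ L : ℕ in atTop, 2 / (lam * Real.log L) ≤ η := by
    filter_upwards [tL.eventually_ge_atTop (2 / (lam * η)), tL.eventually_ge_atTop 1] with L h1 h2
    rw [div_le_iff₀ (by positivity)]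
    rw [div_le_iff₀ (mul_pos hlam hη.1)] at h1
    linarith
  obtain ⟨L₀, hL₀⟩ := eventually_atTop.1 (e1.and (e2.and (tL.eventually_ge_atTop 1)))
  refine ⟨max L₀ (max 4 (z + 1)), fun X hX L hL hlL w hw => ?_⟩
  obtain ⟨h1, h2, h3⟩ := hL₀ L ((le_max_left _ _).trans hL)
  have hL4 : 4 ≤ L := ((le_max_left _ _).trans (le_max_right _ _)).trans hL
  have hLz : z + 1 ≤ L := ((le_max_right _ _).trans (le_max_right _ _)).trans hL
  have hL4R : (4 : ℝ) ≤ L := by exact_mod_cast hL4
  obtain ⟨φ, hφ⟩ : ∃ φ : ℕ → ℝ, φ = fun p : ℕ => if 2 < p then (((p : ℝ) - 1) / ((p : ℝ) - 2)) ^ k - 1 else 0 := ⟨_, rfl⟩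
  have hφ0 : ∀ p, 0 ≤ φ p := by
    intro p
    rw [hφ]
    by_cases hp : 2 < p
    · simp only [hp, if_true]
      have := one_le_pow₀ (fac_ge hp) (n := k)
      linarith
    · simp only [hp, if_false]; exact le_rfl
  have hφle : ∀ p : ℕ, 3 ≤ p → φ p ≤ 2 ^ k * (1 / ((p : ℝ) - 2)) := by
    intro p hp
    have hp3 : (3 : ℝ) ≤ p := by exact_mod_cast hp
    have hp2 : 2 < p := hp
    rw [hφ]
    simp only [hp2, if_true]
    have h3 : ((p : ℝ) - 1) / ((p : ℝ) - 2) = 1 + 1 / ((p : ℝ) - 2) := by
      have : (p : ℝ) - 2 ≠ 0 := by linarith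
      field_simp
      ring
    have h4 : (0 : ℝ) ≤ 1 / ((p : ℝ) - 2) := by
      apply div_nonneg <;> linarith
    have h5 : 1 / ((p : ℝ) - 2) ≤ 1 := by
      rw [div_le_one (by linarith)]; linarith
    have h6 := pow_one_add_le k h4 h5
    rw [h3]
    linarith
  -- the small prime factors
  have h4 := sum_prod_win φ hφ0 z L w
  have h5 : ∑ p ∈ (Icc (z + 1) L).filter Nat.Prime, φ p / p ≤ 2 ^ k * (2 / (z - 1 : ℝ)) := by
    have h6 : ∑ p ∈ (Icc (z + 1) L).filter Nat.Prime, φ p / p ≤
        ∑ p ∈ Icc (z + 1) L, 2 ^ k * (1 / ((p : ℝ) * ((p : ℝ) - 2))) := by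
      refine (sum_le_sum fun p hp => ?_).trans (sum_le_sum_of_subset_of_nonneg (filter_subset _ _) fun p hp _ => ?_)
      · have hp1 := (mem_Icc.1 (mem_filter.1 hp).1).1
        have hp3 : (3 : ℝ) ≤ p := by exact_mod_cast (by omega : 3 ≤ p)
        calc φ p / p ≤ (2 ^ k * (1 / ((p : ℝ) - 2))) / p := by
              apply div_le_div_of_nonneg_right _ (by linarith)
              exact hφle p (by omega)
          _ = 2 ^ k * (1 / ((p : ℝ) * ((p : ℝ) - 2))) := by
              have : (p : ℝ) - 2 ≠ 0 := by linarith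
              have : (p : ℝ) ≠ 0 := by linarith
              field_simp
      · have hp1 := (mem_Icc.1 hp).1
        have hp3 : (3 : ℝ) ≤ p := by exact_mod_cast (by omega : 3 ≤ p)
        have : 0 ≤ 1 / ((p : ℝ) * ((p : ℝ) - 2)) := by
          apply div_nonneg (by norm_num)
          nlinarith
        positivity
    refine h6.trans ?_
    rw [← mul_sum]
    exact mul_le_mul_of_nonneg_left (tail_sum z L hz2) (by positivity)
  have h6 : ∑ p ∈ (Icc (z + 1) L).filter Nat.Prime, φ p ≤ c * (Real.log (Real.log L) + |C|) := by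
    have h7 : ∑ p ∈ (Icc (z + 1) L).filter Nat.Prime, φ p ≤
        ∑ p ∈ (Icc (z + 1) L).filter Nat.Prime, c * ((1 : ℝ) / p) := by
      apply sum_le_sum
      intro p hp
      have hp1 := (mem_Icc.1 (mem_filter.1 hp).1).1
      have hp3 : (3 : ℝ) ≤ p := by exact_mod_cast (by omega : 3 ≤ p)
      refine (hφle p (by omega)).trans ?_
      rw [hc]
      have h8 : 1 / ((p : ℝ) - 2) ≤ 3 * (1 / p) := by
        rw [mul_one_div, div_le_div_iff₀ (by linarith) (by linarith)]
        linarith
      calc (2 : ℝ) ^ k * (1 / ((p : ℝ) - 2)) ≤ 2 ^ k * (3 * (1 / p)) := mul_le_mul_of_nonneg_left h8 (by positivity)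
        _ = _ := by ring
    refine h7.trans ?_
    rw [← mul_sum]
    apply mul_le_mul_of_nonneg_left _ (by rw [hc]; positivity)
    have h8 : ∑ p ∈ (Icc (z + 1) L).filter Nat.Prime, (1 : ℝ) / p ≤ ∑ p ∈ (Icc 1 L).filter Nat.Prime, (1 : ℝ) / p := by
      apply sum_le_sum_of_subset_of_nonneg
      · exact filter_subset_filter _ (Icc_subset_Icc (by omega) le_rfl)
      · intro p _ _
        positivity
    have h9 := (abs_le.1 (hC L (by omega))).2
    have h10 := le_abs_self C
    linarith
  have h7 : ∑ d ∈ Ioc w (w + L), ∏ p ∈ d.primeFactors.filter (fun p => z < p ∧ p ≤ L), (1 + φ p) ≤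
      L * ((1 + ε / 4) * E) := by
    have h8 : Real.exp (∑ p ∈ (Icc (z + 1) L).filter Nat.Prime, φ p / p) ≤ E := by
      rw [hE]; exact Real.exp_le_exp.2 h5
    have h9 : Real.exp (∑ p ∈ (Icc (z + 1) L).filter Nat.Prime, φ p) ≤ ε / 8 * L :=
      (Real.exp_le_exp.2 h6).trans h1
    have h10 : (L : ℝ) * Real.exp (∑ p ∈ (Icc (z + 1) L).filter Nat.Prime, φ p / p) ≤ L * E :=
      mul_le_mul_of_nonneg_left h8 (by linarith)
    have h11 : ε / 8 * L ≤ L * (ε / 4 * E) := by
      have : ε / 8 * L * 1 ≤ ε / 8 * L * E := mul_le_mul_of_nonneg_left hE1 (by positivity)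
      have h12 : 0 ≤ ε / 8 * L * E := by positivity
      linarith
    calc _ ≤ _ := h4
      _ ≤ L * E + L * (ε / 4 * E) := by linarith
      _ = _ := by ring
  -- the large prime factors
  have h8 : ∀ d ∈ Ioc w (w + L), hz z d ^ k ≤
      Real.exp (k * η) * ∏ p ∈ d.primeFactors.filter (fun p => z < p ∧ p ≤ L), (1 + φ p) := by
    intro d hd
    obtain ⟨hd1, hd2⟩ := mem_Ioc.1 hd
    have e3 : d.primeFactors.filter (fun p => z < p) = d.primeFactors.filter (fun p => z < p ∧ p ≤ L) ∪
        d.primeFactors.filter (fun p => L < p) := by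
      ext p
      rw [mem_union, mem_filter, mem_filter, mem_filter]
      constructor
      · rintro ⟨h1, h2⟩
        by_cases h3 : p ≤ L
        · exact Or.inl ⟨h1, h2, h3⟩
        · exact Or.inr ⟨h1, by omega⟩
      · rintro (⟨h1, h2, h3⟩ | ⟨h1, h2⟩)
        · exact ⟨h1, h2⟩
        · exact ⟨h1, by omega⟩
    have e4 : hz z d = (∏ p ∈ d.primeFactors.filter (fun p => z < p ∧ p ≤ L), (((p : ℝ) - 1) / ((p : ℝ) - 2))) *
        ∏ p ∈ d.primeFactors.filter (fun p => L < p), (((p : ℝ) - 1) / ((p : ℝ) - 2)) := by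
      unfold hz
      rw [e3, prod_union]
      rw [disjoint_left]
      intro p h1 h2
      have h3 := (mem_filter.1 h1).2.2
      have h4 := (mem_filter.1 h2).2
      omega
    rw [e4, mul_pow, mul_comm]
    have h9 : (∏ p ∈ d.primeFactors.filter (fun p => z < p ∧ p ≤ L), (((p : ℝ) - 1) / ((p : ℝ) - 2))) ^ k =
        ∏ p ∈ d.primeFactors.filter (fun p => z < p ∧ p ≤ L), (1 + φ p) := by
      rw [← prod_pow]
      apply prod_congr rfl
      intro p hp
      have hp2 : 2 < p := by
        have := (mem_filter.1 hp).2.1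
        omega
      rw [hφ]
      simp only [hp2, if_true]
      ring
    rw [h9]
    apply mul_le_mul_of_nonneg_right
    · rw [mul_comm (k : ℝ) η, Real.exp_mul, Real.rpow_natCast]
      apply pow_le_pow_left₀
      · apply prod_nonneg
        intro p hp
        have h10 : (4 : ℝ) ≤ p := by
          have := (mem_filter.1 hp).2
          exact_mod_cast (by omega : 4 ≤ p)
        apply div_nonneg <;> linarith
      · calc ∏ p ∈ d.primeFactors.filter (fun p => L < p), (((p : ℝ) - 1) / ((p : ℝ) - 2)) ≤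
            ∏ _p ∈ d.primeFactors.filter (fun p => L < p), Real.exp (2 / L) := by
              apply Finset.prod_le_prod
              · intro p hp
                have h10 : (4 : ℝ) ≤ p := by
                  have := (mem_filter.1 hp).2
                  exact_mod_cast (by omega : 4 ≤ p)
                apply div_nonneg <;> linarith
              · intro p hp
                have h10 : (L : ℝ) < p := by
                  have := (mem_filter.1 hp).2
                  exact_mod_cast this
                have h11 : ((p : ℝ) - 1) / ((p : ℝ) - 2) = 1 + 1 / ((p : ℝ) - 2) := by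
                  have : (p : ℝ) - 2 ≠ 0 := by linarith
                  field_simp
                  ring
                have h12 : 1 / ((p : ℝ) - 2) ≤ 2 / L := by
                  rw [div_le_div_iff₀ (by linarith) (by linarith)]
                  linarith
                have h13 := Real.add_one_le_exp (2 / (L : ℝ))
                rw [h11]
                linarith
          _ = Real.exp (((d.primeFactors.filter (fun p => L < p)).card : ℝ) * (2 / L)) := by
              rw [prod_const, Real.exp_nat_mul]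
          _ ≤ Real.exp η := by
              apply Real.exp_le_exp.2
              have h10 := large_factors (d := d) (L := L) (by omega) (by omega)
              have h11 : Real.log d ≤ L / lam := by
                rw [le_div_iff₀ hlam, mul_comm]
                refine le_trans (mul_le_mul_of_nonneg_left ?_ hlam.le) hlL
                apply Real.log_le_log
                · exact_mod_cast (by omega : 0 < d)
                · exact_mod_cast hd2.trans hw
              have hlog : 0 < Real.log L := by linarith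
              refine le_trans ?_ h2
              have h12 : ((d.primeFactors.filter (fun p => L < p)).card : ℝ) ≤ L / lam / Real.log L := by
                rw [le_div_iff₀ hlog]
                exact h10.trans h11
              calc ((d.primeFactors.filter (fun p => L < p)).card : ℝ) * (2 / L) ≤ L / lam / Real.log L * (2 / L) :=
                    mul_le_mul_of_nonneg_right h12 (by positivity)
                _ = 2 / (lam * Real.log L) := by
                    field_simp
    · apply prod_nonneg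
      intro p _
      have := hφ0 p
      linarith
  refine (sum_le_sum h8).trans ?_
  rw [← mul_sum]
  have h9 : 0 ≤ (L : ℝ) * E := by positivity
  calc Real.exp (k * η) * ∑ d ∈ Ioc w (w + L), ∏ p ∈ d.primeFactors.filter (fun p => z < p ∧ p ≤ L), (1 + φ p) ≤
      Real.exp (k * η) * (L * ((1 + ε / 4) * E)) := mul_le_mul_of_nonneg_left h7 (Real.exp_pos _).le
    _ = (Real.exp (k * η) * (1 + ε / 4)) * (L * E) := by ring
    _ ≤ (1 + ε / 2) * (L * E) := mul_le_mul_of_nonneg_right hη.2 h9
    _ ≤ L * ((1 + ε) * E) := by nlinarith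

end Pool.Agent.L7h36.DS
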