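import Mathlib
import Pool.Agent.L7h36.DS.Wts
import Pool.Agent.L7h36.DS.MulW

/-!
The weights of the differences in windows (helper36).
-/

set_option autoImplicit false

namespace Pool.Agent.L7h36.DS

open Finset Filter Topology
open Pool.Agent.N646.TT (gg fac_ge gg_nonneg)

variable {r : ℕ}

/-- **the large primes do not matter** -/
theorem tail_smallW (t : Fin r → ℕ) (ht : ∀ j, 1 ≤ t j) (ε : ℝ) (hε : 0 < ε) : ∃ z₀ : ℕ, ∀ z : ℕ, z₀ ≤ z →
    2 ≤ z ∧ (∀ j, t j ≤ z) ∧ ∀ lam : ℝ, 0 < lam → ∃ X₀ : ℕ, ∀ X : ℕ, X₀ ≤ X → ∀ L : ℕ, X₀ ≤ L →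
      lam * Real.log X ≤ L → ∀ w : ℕ, w + L ≤ X → ∑ d ∈ Ioc w (w + L), (U t d - Uz z t d) ≤ ε * L := by
  have hC := Ct_pos t
  obtain ⟨A, hA⟩ : ∃ A, A = (1 + 1) * Real.exp (2 ^ (2 * r) * (2 / (((2 : ℕ) : ℝ) - 1))) := ⟨_, rfl⟩
  have hA0 : 0 < A := by rw [hA]; positivity
  obtain ⟨s, hs⟩ : ∃ s, s = ε / (Ct t * A) := ⟨_, rfl⟩
  have hs0 : 0 < s := by rw [hs]; positivity
  obtain ⟨q, hq⟩ : ∃ q, q = ε * s / Ct t := ⟨_, rfl⟩
  have hq0 : 0 < q := by rw [hq]; positivity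
  -- choice of z
  have hlim : Tendsto (fun z : ℕ => Real.exp (2 ^ (2 * r) * (2 / ((z : ℝ) - 1)))) atTop (𝓝 1) := by
    have h1 : Tendsto (fun z : ℕ => (z : ℝ) - 1) atTop atTop :=
      tendsto_atTop_add_const_right _ (-1) tendsto_natCast_atTop_atTop
    have h2 : Tendsto (fun z : ℕ => 2 ^ (2 * r) * (2 / ((z : ℝ) - 1))) atTop (𝓝 ((2 : ℝ) ^ (2 * r) * 0)) :=
      (tendsto_const_nhds).mul (tendsto_const_nhds.div_atTop h1)
    rw [mul_zero] at h2
    have h3 := (Real.continuous_exp.tendsto 0).comp h2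
    rw [Real.exp_zero] at h3
    exact h3
  have hev := hlim.eventually (gt_mem_nhds (show (1 : ℝ) < 1 + q / 2 by linarith))
  obtain ⟨z₁, hz₁⟩ := eventually_atTop.1 hev
  refine ⟨max z₁ (max 2 (univ.sup t)), fun z hzz => ?_⟩
  have hz2 : 2 ≤ z := ((le_max_left _ _).trans (le_max_right _ _)).trans hzz
  have htz : ∀ j, t j ≤ z := fun j => (le_sup (f := t) (mem_univ j)).trans
    (((le_max_right _ _).trans (le_max_right _ _)).trans hzz)
  refine ⟨hz2, htz, fun lam hlam => ?_⟩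
  have h1 := hz₁ z ((le_max_left _ _).trans hzz)
  obtain ⟨X₁, hX₁⟩ := momW (2 * r) 2 le_rfl lam 1 hlam one_pos
  obtain ⟨X₂, hX₂⟩ := momW (2 * r) z hz2 lam ((q / 2) / (1 + q / 2)) hlam (by positivity)
  refine ⟨max X₁ X₂, fun X hX L hL hlL w hw => ?_⟩
  have h2 : ∀ d ∈ Ioc w (w + L), U t d - Uz z t d ≤ Ct t / 2 * (s * gg d ^ (2 * r) + (hz z d ^ (2 * r) - 1) / s) := by
    intro d hd
    have hd1 : 1 ≤ d := by
      have := (mem_Ioc.1 hd).1
      omega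
    have h3 := U_eq hz2 ht htz hd1
    have h4 : Uz z t d ≤ Ct t * gg d ^ r := (Uz_le_U hz2 ht htz hd1).trans (U_le ht hd1)
    have h5 : 1 ≤ hz z d ^ r := one_le_pow₀ (one_le_hz hz2 d)
    have h6 : 0 ≤ gg d ^ r := pow_nonneg (gg_nonneg d) _
    calc U t d - Uz z t d = Uz z t d * (hz z d ^ r - 1) := by rw [h3]; ring
      _ ≤ Ct t * gg d ^ r * (hz z d ^ r - 1) := mul_le_mul_of_nonneg_right h4 (by linarith)
      _ ≤ Ct t / 2 * (s * gg d ^ (2 * r) + (hz z d ^ (2 * r) - 1) / s) := by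
        obtain ⟨x, hx⟩ : ∃ x, x = gg d ^ r := ⟨_, rfl⟩
        obtain ⟨y, hy⟩ : ∃ y, y = hz z d ^ r := ⟨_, rfl⟩
        rw [pow_mul', pow_mul', ← hx, ← hy]
        rw [← hx] at h6
        rw [← hy] at h5
        have h7 : x * (y - 1) ≤ (s * x ^ 2 + (y ^ 2 - 1) / s) / 2 := by
          have h8 : (y - 1) ^ 2 / s ≤ (y ^ 2 - 1) / s := by
            apply div_le_div_of_nonneg_right _ hs0.le
            nlinarith
          have h9 : 0 ≤ (s * x - (y - 1)) ^ 2 / s := by positivity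
          have h10 : (s * x - (y - 1)) ^ 2 / s = s * x ^ 2 - 2 * (x * (y - 1)) + (y - 1) ^ 2 / s := by
            field_simp
            ring
          linarith
        calc Ct t * x * (y - 1) = Ct t * (x * (y - 1)) := by ring
          _ ≤ Ct t * ((s * x ^ 2 + (y ^ 2 - 1) / s) / 2) := mul_le_mul_of_nonneg_left h7 hC.le
          _ = _ := by ring
  refine (sum_le_sum h2).trans ?_
  rw [← mul_sum, sum_add_distrib, ← mul_sum, ← sum_div, sum_sub_distrib, sum_const, Nat.card_Ioc, nsmul_eq_mul, mul_one]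
  have h3 := hX₁ X ((le_max_left _ _).trans hX) L ((le_max_left _ _).trans hL) hlL w hw
  simp only [hz_two] at h3
  rw [← hA] at h3
  have h4 := hX₂ X ((le_max_right _ _).trans hX) L ((le_max_right _ _).trans hL) hlL w hw
  have hH : (0 : ℝ) ≤ L := Nat.cast_nonneg _
  have e1 : ((w + L - w : ℕ) : ℝ) = L := by simp
  rw [e1]
  have h5 : (∑ d ∈ Ioc w (w + L), hz z d ^ (2 * r) - (L : ℝ)) / s ≤ ε / Ct t * L := by
    rw [div_le_iff₀ hs0]
    have h6 : (1 + (q / 2) / (1 + q / 2)) * Real.exp (2 ^ (2 * r) * (2 / ((z : ℝ) - 1))) ≤ 1 + q := by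
      calc (1 + (q / 2) / (1 + q / 2)) * Real.exp (2 ^ (2 * r) * (2 / ((z : ℝ) - 1))) ≤
          (1 + (q / 2) / (1 + q / 2)) * (1 + q / 2) := mul_le_mul_of_nonneg_left h1.le (by positivity)
        _ = 1 + q := by
          field_simp
          ring
    have h7 := mul_le_mul_of_nonneg_left h6 hH
    have h8 : ε / Ct t * L * s = L * q := by
      rw [hq]; ring
    rw [h8]
    linarith
  have h6 : s * ∑ d ∈ Ioc w (w + L), gg d ^ (2 * r) ≤ ε / Ct t * L := by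
    calc s * ∑ d ∈ Ioc w (w + L), gg d ^ (2 * r) ≤ s * (L * A) := mul_le_mul_of_nonneg_left h3 hs0.le
      _ = ε / Ct t * L := by
        rw [hs]
        field_simp
  calc Ct t / 2 * (s * ∑ d ∈ Ioc w (w + L), gg d ^ (2 * r) + (∑ d ∈ Ioc w (w + L), hz z d ^ (2 * r) - (L : ℝ)) / s) ≤
      Ct t / 2 * (ε / Ct t * L + ε / Ct t * L) := by
        apply mul_le_mul_of_nonneg_left _ (by positivity)
        linarith
    _ = ε * L := by field_simp; ring

open Classical in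
/-- **large singular series do not matter** -/
theorem large_smallW (t : Fin r → ℕ) (ht : ∀ j, 1 ≤ t j) (ε : ℝ) (hε : 0 < ε) : ∃ B : ℝ, 1 ≤ B ∧
    ∀ lam : ℝ, 0 < lam → ∃ X₀ : ℕ, ∀ X : ℕ, X₀ ≤ X → ∀ L : ℕ, X₀ ≤ L →
      lam * Real.log X ≤ L → ∀ w : ℕ, w + L ≤ X →
      ∑ d ∈ (Ioc w (w + L)).filter (fun d => ∃ j, B < S (t j * d)), U t d ≤ ε * L := by
  have hC := Ct_pos t
  obtain ⟨A, hA⟩ : ∃ A, A = (1 + 1) * Real.exp (2 ^ (r + 1) * (2 / (((2 : ℕ) : ℝ) - 1))) := ⟨_, rfl⟩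
  have hA0 : 0 < A := by rw [hA]; positivity
  obtain ⟨B, hB⟩ : ∃ B, B = Ct t * Ct t * A / ε + 1 := ⟨_, rfl⟩
  have hB1 : 1 ≤ B := by
    rw [hB]
    have : 0 ≤ Ct t * Ct t * A / ε := by positivity
    linarith
  refine ⟨B, hB1, fun lam hlam => ?_⟩
  obtain ⟨X₁, hX₁⟩ := momW (r + 1) 2 le_rfl lam 1 hlam one_pos
  refine ⟨X₁, fun X hX L hL hlL w hw => ?_⟩
  have hB0 : 0 < B := by linarith
  have h1 : ∀ d ∈ (Ioc w (w + L)).filter (fun d => ∃ j, B < S (t j * d)), U t d ≤ Ct t * Ct t / B * gg d ^ (r + 1) := by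
    intro d hd
    obtain ⟨hd1, j, hj⟩ := mem_filter.1 hd
    have hd2 : 1 ≤ d := by
      have := (mem_Ioc.1 hd1).1
      omega
    have h2 := U_le ht hd2
    have h3 : B ≤ Ct t * gg d := hj.le.trans ((S_le (ht j) hd2).trans
      (mul_le_mul_of_nonneg_right (gg_le_Ct t j) (gg_nonneg d)))
    have h4 : 0 ≤ Ct t * gg d ^ r := mul_nonneg hC.le (pow_nonneg (gg_nonneg d) _)
    calc U t d ≤ Ct t * gg d ^ r := h2
      _ = Ct t * gg d ^ r * 1 := by ring
      _ ≤ Ct t * gg d ^ r * (Ct t * gg d / B) := by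
          apply mul_le_mul_of_nonneg_left _ h4
          rw [le_div_iff₀ hB0]
          linarith
      _ = _ := by rw [pow_succ]; ring
  refine (sum_le_sum h1).trans ?_
  rw [← mul_sum]
  have h2 : ∑ d ∈ (Ioc w (w + L)).filter (fun d => ∃ j, B < S (t j * d)), gg d ^ (r + 1) ≤ L * A := by
    refine (sum_le_sum_of_subset_of_nonneg (filter_subset _ _) fun d _ _ => pow_nonneg (gg_nonneg d) _).trans ?_
    have h3 := hX₁ X hX L hL hlL w hw
    simp only [hz_two] at h3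
    rw [hA]
    exact h3
  have hH : (0 : ℝ) ≤ L := Nat.cast_nonneg _
  calc Ct t * Ct t / B * ∑ d ∈ (Ioc w (w + L)).filter (fun d => ∃ j, B < S (t j * d)), gg d ^ (r + 1) ≤
      Ct t * Ct t / B * (L * A) := mul_le_mul_of_nonneg_left h2 (by positivity)
    _ = (Ct t * Ct t * A / B) * L := by ring
    _ ≤ ε * L := by
      apply mul_le_mul_of_nonneg_right _ hH
      rw [div_le_iff₀ hB0, hB, mul_add, mul_one, mul_div_assoc', mul_comm ε, mul_div_assoc, div_self hε.ne', mul_one]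
      linarith

end Pool.Agent.L7h36.DS
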