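import Mathlib
import Pool.Agent.L7h36.DS.Fin
import Pool.Agent.L7h36.DS.WtsW
import Pool.Agent.L7h36.DS.FewW

/-!
Dense sets in unions of windows: the main theorem (helper36).
-/

set_option autoImplicit false

namespace Pool.Agent.L7h36.DS

open Finset Filter Topology
open Pool.Agent.N646.RG

variable {r : ℕ}

/-- the left end of the window of the differences -/
def wd (u : ℕ → ℕ) (H i j : ℕ) : ℕ := u j - (u i + H) - 1

/-- sums over pairs and sums over differences, for unions of windows -/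
theorem sum_diff_leW (A : Finset ℕ) (H l : ℕ) (u : ℕ → ℕ) (hA : ∀ a ∈ A, ∃ i < l, u i ≤ a ∧ a ≤ u i + H)
    (F : ℕ → ℝ) (hF : ∀ d, 1 ≤ d → 0 ≤ F d) (C : ℕ → Prop) [DecidablePred C] :
    ∑ y ∈ (A ×ˢ A).filter (fun y => y.1 < y.2 ∧ C (y.2 - y.1)), F (y.2 - y.1) ≤
      (H + 1) * ∑ i ∈ range l, ∑ j ∈ range l, ∑ d ∈ (Ioc (wd u H i j) (wd u H i j + (2 * H + 2))).filter C, F d := by
  classical
  choose! lab hlab1 hlab2 hlab3 using hA
  have h1 : ∑ y ∈ (A ×ˢ A).filter (fun y => y.1 < y.2 ∧ C (y.2 - y.1)), F (y.2 - y.1) =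
      ∑ i ∈ range l, ∑ j ∈ range l, ∑ y ∈ ((A ×ˢ A).filter (fun y => y.1 < y.2 ∧ C (y.2 - y.1))).filter
        (fun y => lab y.1 = i ∧ lab y.2 = j), F (y.2 - y.1) := by
    rw [← sum_product' (f := fun i j => ∑ y ∈ ((A ×ˢ A).filter (fun y => y.1 < y.2 ∧ C (y.2 - y.1))).filter
        (fun y => lab y.1 = i ∧ lab y.2 = j), F (y.2 - y.1))]
    rw [← sum_fiberwise_of_maps_to (s := (A ×ˢ A).filter (fun y => y.1 < y.2 ∧ C (y.2 - y.1)))
      (t := range l ×ˢ range l) (g := fun y => (lab y.1, lab y.2))]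
    · apply sum_congr rfl
      intro x _
      apply sum_congr _ fun _ _ => rfl
      apply filter_congr
      intro y _
      exact Prod.ext_iff
    · intro y hy
      have h2 := mem_product.1 (mem_filter.1 hy).1
      exact mem_product.2 ⟨mem_range.2 (hlab1 _ h2.1), mem_range.2 (hlab1 _ h2.2)⟩
  rw [h1, mul_sum]
  apply sum_le_sum
  intro i _
  rw [mul_sum]
  apply sum_le_sum
  intro j _
  rw [← sum_fiberwise_of_maps_to (s := ((A ×ˢ A).filter (fun y => y.1 < y.2 ∧ C (y.2 - y.1))).filter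
      (fun y => lab y.1 = i ∧ lab y.2 = j))
    (t := (Ioc (wd u H i j) (wd u H i j + (2 * H + 2))).filter C) (g := fun y => y.2 - y.1), mul_sum]
  · apply sum_le_sum
    intro d hd
    have hd1 : 1 ≤ d := by
      have := (mem_Ioc.1 (mem_filter.1 hd).1).1
      omega
    have h1 : ∀ y ∈ (((A ×ˢ A).filter (fun y => y.1 < y.2 ∧ C (y.2 - y.1))).filter
        (fun y => lab y.1 = i ∧ lab y.2 = j)).filter (fun y => y.2 - y.1 = d), F (y.2 - y.1) = F d := by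
      intro y hy
      rw [(mem_filter.1 hy).2]
    rw [sum_congr rfl h1, sum_const, nsmul_eq_mul]
    apply mul_le_mul_of_nonneg_right _ (hF d hd1)
    have h3 : ((((A ×ˢ A).filter (fun y => y.1 < y.2 ∧ C (y.2 - y.1))).filter
        (fun y => lab y.1 = i ∧ lab y.2 = j)).filter (fun y => y.2 - y.1 = d)).card ≤ H + 1 := by
      calc _ ≤ (Icc (u i) (u i + H)).card := by
            apply card_le_card_of_injOn (fun y => y.1)
            · intro y hy
              obtain ⟨h4, h5, h6⟩ := mem_filter.1 (mem_filter.1 (mem_coe.1 hy)).1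
              have h7 := (mem_product.1 (mem_filter.1 h4).1).1
              have h8 := hlab2 _ h7
              have h9 := hlab3 _ h7
              rw [h5] at h8 h9
              exact mem_coe.2 (mem_Icc.2 ⟨h8, h9⟩)
            · intro y hy y' hy' h
              have h3 := (mem_filter.1 (mem_coe.1 hy)).2
              have h4 := (mem_filter.1 (mem_coe.1 hy')).2
              have h5 := (mem_filter.1 (mem_filter.1 (mem_filter.1 (mem_coe.1 hy)).1).1).2.1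
              have h6 := (mem_filter.1 (mem_filter.1 (mem_filter.1 (mem_coe.1 hy')).1).1).2.1
              have h7 : y.1 = y'.1 := h
              exact Prod.ext h7 (by omega)
        _ = H + 1 := by rw [Nat.card_Icc]; omega
    exact_mod_cast h3
  · intro y hy
    obtain ⟨h4, h5, h6⟩ := mem_filter.1 hy
    obtain ⟨h7, h8, h9⟩ := mem_filter.1 h4
    obtain ⟨h10, h11⟩ := mem_product.1 h7
    have h12 := hlab2 _ h10
    have h13 := hlab3 _ h10
    have h14 := hlab2 _ h11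
    have h15 := hlab3 _ h11
    rw [h5] at h12 h13
    rw [h6] at h14 h15
    refine mem_filter.2 ⟨mem_Ioc.2 ⟨?_, ?_⟩, h9⟩
    · show wd u H i j < y.2 - y.1
      unfold wd
      omega
    · show y.2 - y.1 ≤ wd u H i j + (2 * H + 2)
      unfold wd
      omega

open Classical in
/-- **main theorem for unions of windows** -/
theorem coreW (hH : S_HITM2 1) (t : Fin r → ℕ) (ht : ∀ j, 1 ≤ t j) (m : ℕ) (hm : 1 ≤ m) (t' : ℕ → ℕ)
    (ht' : ∀ i < m, ∃ j, t' i = t j) (l : ℕ) (hl : 1 ≤ l) (ε η lam : ℝ) (hε : 0 < ε) (hη : 0 < η) (hlam : 0 < lam) :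
    ∃ κ : ℝ, 0 < κ ∧ ∃ N₀ : ℕ, ∀ N : ℕ → ℕ, (∀ i < m, N₀ ≤ N i) → ∀ H : ℕ, N₀ ≤ H →
    (∀ i < m, lam * Real.log (N i) ≤ H) → ∀ u : ℕ → ℕ, (∀ i < m, ∀ k < l, 100 * (t' i * (u k + H)) ≤ N i) →
    ∀ A : Finset ℕ, (∀ a ∈ A, ∃ k < l, u k ≤ a ∧ a ≤ u k + H) → η * H ≤ A.card →
    η ^ 2 / 2 ^ (r + 2) * (H : ℝ) ^ 2 ≤ ∑ y ∈ (A ×ˢ A).filter (fun y => y.1 < y.2), U t (y.2 - y.1) ∧
    (1 / ((TT m : ℝ) - 1) - ε) * ∑ y ∈ (A ×ˢ A).filter (fun y => y.1 < y.2), U t (y.2 - y.1) ≤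
      ∑ y ∈ (A ×ˢ A).filter (fun y => y.1 < y.2 ∧ ∀ i < m,
        κ * (S (t' i * (y.2 - y.1)) * (N i / Real.log (N i) ^ 2)) ≤ (pi2 (N i) (t' i * (y.2 - y.1)) : ℝ)),
        U t (y.2 - y.1) := by
  obtain ⟨θ, hθ⟩ : ∃ θ : ℝ, θ = 1 / ((TT m : ℝ) - 1) := ⟨_, rfl⟩
  rw [← hθ]
  have hTT : (2 : ℝ) ≤ TT m := by exact_mod_cast TT_ge m
  have hθ1 : θ ≤ 1 := by
    rw [hθ, div_le_one (by linarith)]
    linarith
  have hθ0 : 0 ≤ θ := by
    rw [hθ]
    apply div_nonneg zero_le_one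
    linarith
  have hlR : (1 : ℝ) ≤ l := by exact_mod_cast hl
  -- it suffices to treat small `ε`
  obtain ⟨ε', hε'⟩ : ∃ ε' : ℝ, ε' = min ε θ := ⟨_, rfl⟩
  have hTT0 : 0 < θ := by
    rw [hθ]
    apply div_pos one_pos
    linarith
  have hε'0 : 0 < ε' := by rw [hε']; exact lt_min hε hTT0
  have hε'1 : ε' ≤ ε := by rw [hε']; exact min_le_left _ _
  have hε'2 : ε' ≤ θ := by rw [hε']; exact min_le_right _ _
  -- the constants
  obtain ⟨c, hc⟩ : ∃ c : ℝ, c = (ε' / 2) * (η ^ 2 / 2 ^ (r + 2)) := ⟨_, rfl⟩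
  have hc0 : 0 < c := by rw [hc]; positivity
  obtain ⟨c', hc'⟩ : ∃ c' : ℝ, c' = min (c / 4) (η ^ 2 / 2 ^ (r + 2)) / (8 * (l : ℝ) ^ 2) := ⟨_, rfl⟩
  have hc'0 : 0 < c' := by
    rw [hc']
    apply div_pos (lt_min (by positivity) (by positivity))
    positivity
  have hc'1 : c' * (8 * (l : ℝ) ^ 2) ≤ c / 4 := by
    rw [hc', div_mul_cancel₀ _ (by positivity)]
    exact min_le_left _ _
  obtain ⟨ε₁, hε₁, hdense⟩ := dense_pairs m (ε' / 2) (by positivity)
  have hbad := fun i : ℕ => bad_fewW hH (TT (i + 1)) (TT i - 1) (by have := TT_ge (i + 1); omega) (TT_succ i)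
  choose K0 hK0 using hbad
  obtain ⟨z₀, hz₀⟩ := tail_smallW t ht c' hc'0
  obtain ⟨Bk, hBk⟩ := exists_up K0 m
  obtain ⟨z, hz⟩ : ∃ z, z = max z₀ Bk := ⟨_, rfl⟩
  obtain ⟨hz2, htz, htail⟩ := hz₀ z (by rw [hz]; exact le_max_left _ _)
  obtain ⟨Xa, hXa⟩ := htail lam hlam
  obtain ⟨W, hW⟩ : ∃ W, W = primorial z := ⟨_, rfl⟩
  have hW1 : 1 ≤ W := by rw [hW]; exact primorial_pos z
  have hWR : (0 : ℝ) < W := by exact_mod_cast hW1
  have hWd : ∀ i < m, ∀ p : ℕ, p.Prime → p ≤ K0 i → p ∣ W := by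
    intro i hi p hp hpi
    rw [hW]
    unfold primorial
    apply dvd_prod_of_mem (fun p => p)
    rw [mem_filter, mem_range]
    refine ⟨?_, hp⟩
    have h1 : p ≤ z := by
      rw [hz]
      exact (hpi.trans (hBk i hi)).trans (le_max_right _ _)
    omega
  have hcW : 0 < cW z ^ r := pow_pos (cW_pos z) r
  obtain ⟨η', hη'⟩ : ∃ η' : ℝ, η' = Real.sqrt (c / 4 * (cW z ^ r / (W : ℝ) ^ r)) := ⟨_, rfl⟩
  have hη'0 : 0 < η' := by rw [hη']; exact Real.sqrt_pos.2 (by positivity)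
  have hη'sq : (W : ℝ) ^ r * η' ^ 2 / cW z ^ r = c / 4 := by
    rw [hη', Real.sq_sqrt (by positivity)]
    field_simp
  obtain ⟨B, hB1, hlarge⟩ := large_smallW t ht c' hc'0
  obtain ⟨Xb, hXb⟩ := hlarge lam hlam
  have hκi : ∀ i : ℕ, ∃ κ : ℝ, 0 < κ ∧ ∃ N₁ : ℕ, i < m → ∀ N : ℕ, N₁ ≤ N → ∀ H : ℕ, W ≤ H →
      lam * Real.log N ≤ H → ∀ u : ℕ → ℕ, (∀ k < l, 100 * (t' i * (u k + H)) ≤ N) → ∀ (b : ℕ) (V : Finset ℕ),
      (∀ a ∈ V, ∃ k < l, u k ≤ a ∧ a ≤ u k + H) → (∀ x ∈ V, (b + t' i * x).Coprime W) → η' * H ≤ V.card →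
      ((Bad (Qd κ N (t' i)) V (TT (i + 1)) (TT i)).card : ℝ) ≤ ε₁ * (V.card : ℝ) ^ TT (i + 1) := by
    intro i
    by_cases hi : i < m
    · obtain ⟨j, hj⟩ := ht' i hi
      obtain ⟨κ, hκ, hev⟩ := hK0 i (t' i) W (by rw [hj]; exact ht j) hW1 (hWd i hi) l hl lam η' ε₁ hlam hη'0 hε₁
      obtain ⟨N₁, hN₁⟩ := eventually_atTop.1 hev
      refine ⟨κ, hκ, N₁, fun _ N hN H h1 h2 u h3 b V h4 h5 h6 => ?_⟩
      have h7 := hN₁ N hN H h1 h2 u h3 b V h4 h5 h6
      have h8 : TT i - 1 + 1 = TT i := by have := TT_ge i; omega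
      rw [h8] at h7
      exact h7
    · exact ⟨1, one_pos, 0, fun h => absurd h hi⟩
  choose κi hκi0 N₁ hN₁ using hκi
  obtain ⟨κ₀, hκ₀, hκ₀le⟩ := exists_low κi hκi0 m
  obtain ⟨N₂, hN₂⟩ := exists_up N₁ m
  obtain ⟨Dg, hDg⟩ : ∃ Dg : ℝ, Dg = 2 * l * Uz z t 0 := ⟨_, rfl⟩
  have hDg0 : 0 ≤ Dg := by
    rw [hDg]
    have := Uz_nonneg z t 0
    positivity
  obtain ⟨H₁, hH₁⟩ := exists_nat_ge (4 * (Dg + 1) / c + 2 ^ (r + 2) * (Dg + 1) / η ^ 2)
  refine ⟨κ₀ / B, by positivity, max (max (max Xa Xb) (max N₂ W)) (max H₁ 1),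
    fun N hN H hHN hlog u hwin A hA hAd => ?_⟩
  have hWH : W ≤ H := ((le_max_right _ _).trans ((le_max_right _ _).trans (le_max_left _ _))).trans hHN
  have hXaH : Xa ≤ H := ((le_max_left _ _).trans ((le_max_left _ _).trans (le_max_left _ _))).trans hHN
  have hXbH : Xb ≤ H := ((le_max_right _ _).trans ((le_max_left _ _).trans (le_max_left _ _))).trans hHN
  have hH1 : 1 ≤ H := ((le_max_right _ _).trans (le_max_right _ _)).trans hHN
  have hHR : (1 : ℝ) ≤ H := by exact_mod_cast hH1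
  have hHH₁ : 4 * (Dg + 1) / c + 2 ^ (r + 2) * (Dg + 1) / η ^ 2 ≤ H :=
    hH₁.trans (by exact_mod_cast ((le_max_left _ _).trans (le_max_right _ _)).trans hHN)
  have hXaN : Xa ≤ N 0 := ((le_max_left _ _).trans ((le_max_left _ _).trans (le_max_left _ _))).trans (hN 0 hm)
  have hXbN : Xb ≤ N 0 := ((le_max_right _ _).trans ((le_max_left _ _).trans (le_max_left _ _))).trans (hN 0 hm)
  have hAH : (A.card : ℝ) ≤ 2 * l * H := by
    have h1 : A ⊆ (range l).biUnion (fun k => Icc (u k) (u k + H)) := by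
      intro a ha
      obtain ⟨k, hk, h2, h3⟩ := hA a ha
      exact mem_biUnion.2 ⟨k, mem_range.2 hk, mem_Icc.2 ⟨h2, h3⟩⟩
    have h2 : A.card ≤ l * (H + 1) := by
      refine (card_le_card h1).trans (card_biUnion_le.trans (le_of_eq ?_))
      have h3 : ∀ k ∈ range l, (Icc (u k) (u k + H)).card = H + 1 := by
        intro k _
        rw [Nat.card_Icc]
        omega
      rw [sum_congr rfl h3, sum_const, card_range, smul_eq_mul]
    have h3 : (A.card : ℝ) ≤ l * (H + 1) := by exact_mod_cast h2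
    nlinarith
  have hdg' : (A.card : ℝ) * Uz z t 0 ≤ H * Dg := by
    rw [hDg]
    have := mul_le_mul_of_nonneg_right hAH (Uz_nonneg z t 0)
    linarith
  have hdgc : (A.card : ℝ) * Uz z t 0 ≤ c / 4 * (H : ℝ) ^ 2 := by
    have h1 : 4 * (Dg + 1) / c ≤ H := by
      have : 0 ≤ 2 ^ (r + 2) * (Dg + 1) / η ^ 2 := by positivity
      linarith
    rw [div_le_iff₀ hc0] at h1
    calc (A.card : ℝ) * Uz z t 0 ≤ H * Dg := hdg'
      _ ≤ H * (c / 4 * H) := by
        apply mul_le_mul_of_nonneg_left _ (by linarith)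
        linarith
      _ = _ := by ring
  have hdgη : (A.card : ℝ) * Uz z t 0 ≤ η ^ 2 / 2 ^ (r + 2) * (H : ℝ) ^ 2 := by
    have h1 : 2 ^ (r + 2) * (Dg + 1) / η ^ 2 ≤ H := by
      have : 0 ≤ 4 * (Dg + 1) / c := by positivity
      linarith
    rw [div_le_iff₀ (by positivity)] at h1
    have h2 : Dg ≤ η ^ 2 / 2 ^ (r + 2) * H := by
      rw [div_mul_eq_mul_div, le_div_iff₀ (by positivity)]
      have : (0 : ℝ) < 2 ^ (r + 2) := by positivity
      nlinarith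
    calc (A.card : ℝ) * Uz z t 0 ≤ H * Dg := hdg'
      _ ≤ H * (η ^ 2 / 2 ^ (r + 2) * H) := mul_le_mul_of_nonneg_left h2 (by linarith)
      _ = _ := by ring
  -- the windows of the differences
  have hlogL : lam * Real.log (N 0) ≤ ((2 * H + 2 : ℕ) : ℝ) := by
    refine (hlog 0 hm).trans ?_
    push_cast
    linarith
  have ht0 : 1 ≤ t' 0 := by
    obtain ⟨j, hj⟩ := ht' 0 hm
    rw [hj]
    exact ht j
  have hwtop : ∀ i ∈ range l, ∀ j ∈ range l, wd u H i j + (2 * H + 2) ≤ N 0 := by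
    intro i _ j hj
    have h1 := hwin 0 hm j (mem_range.1 hj)
    have h2 : u j + H ≤ t' 0 * (u j + H) := Nat.le_mul_of_pos_left _ ht0
    unfold wd
    omega
  have hsumW : ∀ (F : ℕ → ℝ) (C : ℕ → Prop), (∀ d, 1 ≤ d → 0 ≤ F d) →
      (∀ i ∈ range l, ∀ j ∈ range l, ∑ d ∈ (Ioc (wd u H i j) (wd u H i j + (2 * H + 2))).filter C, F d ≤
        c' * ((2 * H + 2 : ℕ) : ℝ)) →
      ∑ y ∈ (A ×ˢ A).filter (fun y => y.1 < y.2 ∧ C (y.2 - y.1)), F (y.2 - y.1) ≤ c / 4 * (H : ℝ) ^ 2 := by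
    intro F C hF h1
    refine (sum_diff_leW A H l u hA F hF C).trans ?_
    have h2 : ∑ i ∈ range l, ∑ j ∈ range l, ∑ d ∈ (Ioc (wd u H i j) (wd u H i j + (2 * H + 2))).filter C, F d ≤
        (l : ℝ) ^ 2 * (c' * ((2 * H + 2 : ℕ) : ℝ)) := by
      refine (sum_le_sum fun i hi => sum_le_sum fun j hj => h1 i hi j hj).trans (le_of_eq ?_)
      rw [sum_const, sum_const, card_range, nsmul_eq_mul, nsmul_eq_mul]
      ring
    calc ((H : ℝ) + 1) * ∑ i ∈ range l, ∑ j ∈ range l, ∑ d ∈ (Ioc (wd u H i j) (wd u H i j + (2 * H + 2))).filter C, F d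
        ≤ (H + 1) * ((l : ℝ) ^ 2 * (c' * ((2 * H + 2 : ℕ) : ℝ))) := mul_le_mul_of_nonneg_left h2 (by positivity)
      _ = (c' * (8 * (l : ℝ) ^ 2)) * (((H : ℝ) + 1) ^ 2 / 4) := by
          push_cast
          ring
      _ ≤ c / 4 * (H : ℝ) ^ 2 := by
          apply mul_le_mul hc'1 _ (by positivity) (by positivity)
          nlinarith
  -- the good pairs
  obtain ⟨P, hP⟩ : ∃ P : ℕ → ℕ → ℕ → Prop, P = fun i x y => Qd (κi i) (N i) (t' i) x y := ⟨_, rfl⟩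
  have hPs : ∀ i x y, P i x y → P i y x := by
    intro i x y h
    rw [hP] at h ⊢
    exact Qd_symm h
  obtain ⟨C, hC⟩ : ∃ C : ℕ → ℕ → Prop, C = fun x y => ∀ i < m, P i x y := ⟨_, rfl⟩
  have hCs : ∀ x y, C x y → C y x := by
    intro x y h
    rw [hC] at h ⊢
    exact fun i hi => hPs i x y (h i hi)
  -- classes
  have h1 : (θ - ε' / 2) * ∑ y ∈ A ×ˢ A, Uz z t (ad y.1 y.2) ≤
      ∑ y ∈ (A ×ˢ A).filter (fun y => C y.1 y.2), Uz z t (ad y.1 y.2) + c / 4 * (H : ℝ) ^ 2 := by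
    have h2 := ordered hz2 t A (fun y => C y.1 y.2) (θ - ε' / 2) (η' * H) (by linarith) (by positivity) (by
      intro b _ hb
      rw [← hW] at hb ⊢
      have h3 := hdense P hPs (Ab W t A b) (by
        intro i hi
        obtain ⟨j, hj⟩ := ht' i hi
        rw [hP]
        refine hN₁ i hi (N i) ((hN₂ i hi).trans (((le_max_left _ _).trans ((le_max_right _ _).trans
          (le_max_left _ _))).trans (hN i hi))) H hWH
          (hlog i hi) u (hwin i hi) (b j) (Ab W t A b) ?_ ?_ hb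
        · intro x hx
          exact hA x (mem_filter.1 hx).1
        · intro x hx
          rw [hj]
          exact (mem_filter.1 hx).2 j)
      rw [hθ]
      refine h3.trans (le_of_eq ?_)
      subst hC
      congr)
    have h3 : (primorial z : ℝ) ^ r * (η' * H) ^ 2 / cW z ^ r = c / 4 * (H : ℝ) ^ 2 := by
      rw [← hW, ← hη'sq]
      ring
    rw [h3] at h2
    exact h2
  obtain ⟨h2, -⟩ := split_pairs A (Uz z t) C hCs (Uz_nonneg z t 0)
  obtain ⟨h2', h4⟩ := split_pairs A (Uz z t) (fun _ _ => True) (fun _ _ _ => trivial) (Uz_nonneg z t 0)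
  simp only [Finset.filter_true, and_true] at h2' h4
  -- large singular series
  have h3 : ∑ y ∈ (A ×ˢ A).filter (fun y => y.1 < y.2 ∧ C y.1 y.2), Uz z t (y.2 - y.1) ≤
      ∑ y ∈ (A ×ˢ A).filter (fun y => y.1 < y.2 ∧ ∀ i < m,
        κ₀ / B * (S (t' i * (y.2 - y.1)) * (N i / Real.log (N i) ^ 2)) ≤ (pi2 (N i) (t' i * (y.2 - y.1)) : ℝ)),
        U t (y.2 - y.1) +
      ∑ y ∈ (A ×ˢ A).filter (fun y => y.1 < y.2 ∧ ∃ j, B < S (t j * (y.2 - y.1))), U t (y.2 - y.1) := by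
    have h5 : (A ×ˢ A).filter (fun y => y.1 < y.2 ∧ C y.1 y.2) ⊆
        (A ×ˢ A).filter (fun y => y.1 < y.2 ∧ ∀ i < m,
        κ₀ / B * (S (t' i * (y.2 - y.1)) * (N i / Real.log (N i) ^ 2)) ≤ (pi2 (N i) (t' i * (y.2 - y.1)) : ℝ)) ∪
        (A ×ˢ A).filter (fun y => y.1 < y.2 ∧ ∃ j, B < S (t j * (y.2 - y.1))) := by
      intro y hy
      obtain ⟨h6, h7, h8⟩ := mem_filter.1 hy
      rw [mem_union]
      by_cases h9 : ∃ j, B < S (t j * (y.2 - y.1))
      · exact Or.inr (mem_filter.2 ⟨h6, h7, h9⟩)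
      · push Not at h9
        refine Or.inl (mem_filter.2 ⟨h6, h7, fun i hi => ?_⟩)
        obtain ⟨j, hj⟩ := ht' i hi
        have h10 := h9 j
        rw [← hj] at h10
        have h11 : P i y.1 y.2 := by
          rw [hC] at h8
          exact h8 i hi
        rw [hP] at h11
        have h12 : Gdf (k := 1) (κi i) (N i) ![((1 : ℤ), ((t' i * y.1 : ℕ) : ℤ)), ((1 : ℤ), ((t' i * y.2 : ℕ) : ℤ))] := h11
        have h13 := gdf_pi2 h12 (d := t' i * (y.2 - y.1)) (by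
          rw [Nat.mul_sub]
          have := Nat.mul_le_mul_left (t' i) h7.le
          omega) (by
          intro n hn
          have h14 := (mem_Icc.1 hn).2
          obtain ⟨k, hk, -, h15⟩ := hA _ (mem_product.1 h6).2
          have h16 := hwin i hi k hk
          have h17 : t' i * y.2 ≤ t' i * (u k + H) := Nat.mul_le_mul_left _ h15
          omega)
        refine le_trans ?_ h13
        have h14 : 0 ≤ (N i : ℝ) / Real.log (N i) ^ 2 := by positivity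
        have h15 := hκ₀le i hi
        calc κ₀ / B * (S (t' i * (y.2 - y.1)) * (N i / Real.log (N i) ^ 2)) ≤
            κ₀ / B * (B * (N i / Real.log (N i) ^ 2)) := by
              apply mul_le_mul_of_nonneg_left _ (by positivity)
              exact mul_le_mul_of_nonneg_right h10 h14
          _ = κ₀ * (N i / Real.log (N i) ^ 2) := by field_simp
          _ ≤ κi i * (N i / Real.log (N i) ^ 2) := mul_le_mul_of_nonneg_right h15 h14
    have hUU : ∀ y ∈ (A ×ˢ A).filter (fun y => y.1 < y.2 ∧ C y.1 y.2), Uz z t (y.2 - y.1) ≤ U t (y.2 - y.1) := by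
      intro y hy
      exact Uz_le_U hz2 ht htz (by have := (mem_filter.1 hy).2.1; omega)
    refine (sum_le_sum hUU).trans ((sum_le_sum_of_subset_of_nonneg h5 fun _ _ _ => U_nonneg _ _).trans ?_)
    rw [← sum_union_inter]
    have : 0 ≤ ∑ y ∈ (A ×ˢ A).filter (fun y => y.1 < y.2 ∧ ∀ i < m,
        κ₀ / B * (S (t' i * (y.2 - y.1)) * (N i / Real.log (N i) ^ 2)) ≤ (pi2 (N i) (t' i * (y.2 - y.1)) : ℝ)) ∩
        (A ×ˢ A).filter (fun y => y.1 < y.2 ∧ ∃ j, B < S (t j * (y.2 - y.1))), U t (y.2 - y.1) :=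
      sum_nonneg fun _ _ => U_nonneg _ _
    linarith
  have hE₂ : ∑ y ∈ (A ×ˢ A).filter (fun y => y.1 < y.2 ∧ ∃ j, B < S (t j * (y.2 - y.1))), U t (y.2 - y.1) ≤
      c / 4 * (H : ℝ) ^ 2 := by
    refine le_trans (le_of_eq ?_) (hsumW (U t) (fun d => ∃ j, B < S (t j * d)) (fun d _ => U_nonneg t d) ?_)
    · congr
    · intro i hi j hj
      refine le_trans (le_of_eq ?_) (hXb (N 0) hXbN (2 * H + 2) (by omega) hlogL _ (hwtop i hi j hj))
      congr
  -- the tail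
  have h5 : ∑ y ∈ (A ×ˢ A).filter (fun y => y.1 < y.2), U t (y.2 - y.1) ≤
      ∑ y ∈ (A ×ˢ A).filter (fun y => y.1 < y.2), Uz z t (y.2 - y.1) + c / 4 * (H : ℝ) ^ 2 := by
    have h6 := hsumW (fun d => U t d - Uz z t d) (fun _ => True)
      (fun d hd => sub_nonneg.2 (Uz_le_U hz2 ht htz hd)) (by
      intro i hi j hj
      simp only [Finset.filter_true]
      exact hXa (N 0) hXaN (2 * H + 2) (by omega) hlogL _ (hwtop i hi j hj))
    simp only [and_true] at h6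
    rw [sum_sub_distrib] at h6
    linarith
  -- the lower bound
  have hlow := pairs_low hz2 t A
  have h6 : ∑ y ∈ (A ×ˢ A).filter (fun y => y.1 < y.2), Uz z t (y.2 - y.1) ≤
      ∑ y ∈ (A ×ˢ A).filter (fun y => y.1 < y.2), U t (y.2 - y.1) := by
    apply sum_le_sum
    intro y hy
    exact Uz_le_U hz2 ht htz (by have := (mem_filter.1 hy).2; omega)
  have h7 : (η * H) ^ 2 ≤ (A.card : ℝ) ^ 2 := pow_le_pow_left₀ (by positivity) hAd 2
  have h8 : (η * H) ^ 2 / 2 ^ r ≤ (A.card : ℝ) ^ 2 / 2 ^ r := div_le_div_of_nonneg_right h7 (by positivity)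
  have h9 : (η * (H : ℝ)) ^ 2 / 2 ^ r = 4 * (η ^ 2 / 2 ^ (r + 2) * (H : ℝ) ^ 2) := by
    rw [pow_add]
    field_simp
    ring
  rw [h9] at h8
  have h10 : η ^ 2 / 2 ^ (r + 2) * (H : ℝ) ^ 2 ≤ ∑ y ∈ (A ×ˢ A).filter (fun y => y.1 < y.2), U t (y.2 - y.1) := by
    have : 0 ≤ η ^ 2 / 2 ^ (r + 2) * (H : ℝ) ^ 2 := by positivity
    linarith
  refine ⟨h10, ?_⟩
  have hD : c * (H : ℝ) ^ 2 ≤ (ε' / 2) * ∑ y ∈ (A ×ˢ A).filter (fun y => y.1 < y.2), U t (y.2 - y.1) := by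
    rw [hc, mul_assoc]
    exact mul_le_mul_of_nonneg_left h10 (by positivity)
  have hfin := arith (θ' := θ - ε' / 2) (ε := ε' / 2) (c := c) (H2 := (H : ℝ) ^ 2) (by linarith) (by linarith)
    h1 h2 h3 h4 h5 hdgc hE₂ (by positivity) hD hc0.le
  have e1 : θ - ε' / 2 - ε' / 2 = θ - ε' := by ring
  rw [e1] at hfin
  refine le_trans ?_ hfin
  apply mul_le_mul_of_nonneg_right (by linarith)
  exact sum_nonneg fun _ _ => U_nonneg _ _

end Pool.Agent.L7h36.DS
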