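import Mathlib
import Pool.Agent.L7h36.DS.MainW

/-!
Dense sets in unions of windows: the final form (helper36).
-/

set_option autoImplicit false

namespace Pool.Agent.L7h36.DS

open Finset Filter Topology
open Pool.Agent.N646.RG

theorem U_one (d : ℕ) : U (fun _ : Fin 1 => 1) d = S d := by
  unfold U
  rw [Fin.prod_univ_one, one_mul]

open Classical in
/-- **dense sets in unions of windows** -/
theorem finW (hH : S_HITM2 1) (l : ℕ) (hl : 1 ≤ l) (ε η lam : ℝ) (hε : 0 < ε) (hη : 0 < η) (hlam : 0 < lam) :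
    ∃ κ : ℝ, 0 < κ ∧ ∃ X : ℝ, ∀ x : ℝ, X ≤ x → ∀ H : ℕ, lam * Real.log x ≤ H → ∀ u : Fin l → ℕ,
    (∀ i, 100 * ((u i : ℝ) + H) ≤ x) → ∀ A : Finset ℕ, (∀ a ∈ A, ∃ i, u i ≤ a ∧ a ≤ u i + H) → η * H ≤ A.card →
    η ^ 2 / 8 * (H : ℝ) ^ 2 ≤ ∑ y ∈ (A ×ˢ A).filter (fun y => y.1 < y.2), S (y.2 - y.1) ∧
    (1 / 3 - ε) * ∑ y ∈ (A ×ˢ A).filter (fun y => y.1 < y.2), S (y.2 - y.1) ≤
      ∑ y ∈ (A ×ˢ A).filter (fun y => y.1 < y.2 ∧
        κ * (S (y.2 - y.1) * (x / Real.log x ^ 2)) ≤ (pi2R x (y.2 - y.1) : ℝ)), S (y.2 - y.1) := by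
  obtain ⟨κ, hκ, N₀, hN₀⟩ := coreW hH (fun _ : Fin 1 => 1) (fun _ => le_rfl) 1 le_rfl (fun _ => 1)
    (fun _ _ => ⟨0, rfl⟩) l hl ε η lam hε hη hlam
  simp only [U_one] at hN₀
  -- large `x`
  obtain ⟨X₁, hX₁⟩ : ∃ X₁ : ℝ, ∀ x : ℝ, X₁ ≤ x → (N₀ : ℝ) ≤ lam * Real.log x := by
    have h1 : ∀ᶠ x : ℝ in atTop, (N₀ : ℝ) / lam ≤ Real.log x := Real.tendsto_log_atTop.eventually_ge_atTop _
    obtain ⟨X₁, hX₁⟩ := eventually_atTop.1 h1
    refine ⟨X₁, fun x hx => ?_⟩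
    have := hX₁ x hx
    rw [div_le_iff₀ hlam] at this
    linarith
  refine ⟨κ / 2, by positivity, max X₁ ((N₀ : ℝ) + 3), fun x hx H hlH u hu A hA hAd => ?_⟩
  have hx3 : (N₀ : ℝ) + 3 ≤ x := (le_max_right _ _).trans hx
  have hN0 : (0 : ℝ) ≤ N₀ := Nat.cast_nonneg _
  have hx0 : 0 < x := by linarith
  have hfl : N₀ + 3 ≤ ⌊x⌋₊ := by
    apply Nat.le_floor
    push_cast
    exact hx3
  obtain ⟨n, hn⟩ : ∃ n, n = ⌊x⌋₊ := ⟨_, rfl⟩
  rw [← hn] at hfl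
  have hnx : (n : ℝ) ≤ x := by rw [hn]; exact Nat.floor_le hx0.le
  have hxn : x < n + 1 := by rw [hn]; exact Nat.lt_floor_add_one _
  have hn3R : (3 : ℝ) ≤ n := by exact_mod_cast (by omega : 3 ≤ n)
  have hln : 0 < Real.log n := Real.log_pos (by linarith)
  have hlnx : Real.log n ≤ Real.log x := Real.log_le_log (by linarith) hnx
  have hN₀H : N₀ ≤ H := by
    have h1 := (hX₁ x ((le_max_left _ _).trans hx)).trans hlH
    exact_mod_cast h1
  obtain ⟨u', hu'⟩ : ∃ u' : ℕ → ℕ, u' = fun i => if h : i < l then u ⟨i, h⟩ else 0 := ⟨_, rfl⟩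
  have hu'i : ∀ i (hi : i < l), u' i = u ⟨i, hi⟩ := by
    intro i hi
    rw [hu']
    simp only [hi, dif_pos]
  obtain ⟨h1, h2⟩ := hN₀ (fun _ => n) (fun _ _ => by omega) H hN₀H
    (fun _ _ => (mul_le_mul_of_nonneg_left hlnx hlam.le).trans hlH) u' (by
      intro _ _ k hk
      rw [hu'i k hk, one_mul, hn]
      apply Nat.le_floor
      push_cast
      exact hu _) A (by
      intro a ha
      obtain ⟨i, h3, h4⟩ := hA a ha
      refine ⟨i.1, i.2, ?_, ?_⟩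
      · rw [hu'i i.1 i.2]; exact h3
      · rw [hu'i i.1 i.2]; exact h4) hAd
  have e1 : (1 : ℝ) / ((TT 1 : ℝ) - 1) = 1 / 3 := by
    have : TT 1 = 4 := rfl
    rw [this]
    norm_num
  rw [e1] at h2
  refine ⟨?_, ?_⟩
  · have e2 : (2 : ℝ) ^ (1 + 2) = 8 := by norm_num
    rw [e2] at h1
    exact h1
  · refine h2.trans (sum_le_sum_of_subset_of_nonneg ?_ fun _ _ _ => S_nonneg _)
    intro y hy
    obtain ⟨h3, h4, h5⟩ := mem_filter.1 hy
    refine mem_filter.2 ⟨h3, h4, ?_⟩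
    have h6 := h5 0 one_pos
    simp only [one_mul] at h6
    unfold pi2 at h6
    unfold pi2R
    rw [← hn]
    refine le_trans ?_ h6
    have h7 : x / Real.log x ^ 2 ≤ 2 * (n / Real.log n ^ 2) := by
      rw [← mul_div_assoc]
      apply div_le_div₀ (by linarith) (by linarith) (by positivity)
      exact pow_le_pow_left₀ hln.le hlnx 2
    have h8 := S_nonneg (y.2 - y.1)
    calc κ / 2 * (S (y.2 - y.1) * (x / Real.log x ^ 2)) ≤
        κ / 2 * (S (y.2 - y.1) * (2 * (n / Real.log n ^ 2))) := by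
          apply mul_le_mul_of_nonneg_left _ (by positivity)
          exact mul_le_mul_of_nonneg_left h7 h8
      _ = _ := by ring

end Pool.Agent.L7h36.DS
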