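import Mathlib
import Pool.Agent.L7h36.DS.Comb
import Pool.Agent.H152.HR.Ramsey

/-!
Ramsey's theorem relative to several hereditary properties (helper36).
-/

set_option autoImplicit false

namespace Pool.Agent.L7h36.DS

open Finset Pool.Agent.H362R2.CM Pool.Agent.H210S

/-- the number of elements needed for `q` elements which are good for `m` conditions -/
def TQ (q : ℕ) : ℕ → ℕ
  | 0 => q
  | m + 1 => 18 * (TQ q m - 1) / 5 + 1

theorem TQ_ge {q : ℕ} (hq : 2 ≤ q) (m : ℕ) : q ≤ TQ q m := by
  induction m with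
  | zero => exact le_rfl
  | succ m ih =>
    show q ≤ 18 * (TQ q m - 1) / 5 + 1
    omega

theorem TQ_succ {q : ℕ} (m : ℕ) : (18 / 5 : ℝ) * ((TQ q m - 1 : ℕ) : ℝ) < (TQ q (m + 1) : ℝ) := by
  have h1 : 18 * (TQ q m - 1) < 5 * TQ q (m + 1) := by
    show 18 * (TQ q m - 1) < 5 * (18 * (TQ q m - 1) / 5 + 1)
    omega
  have h2 : ((18 * (TQ q m - 1) : ℕ) : ℝ) < ((5 * TQ q (m + 1) : ℕ) : ℝ) := by exact_mod_cast h1
  push_cast at h2
  linarith

theorem exists_clique (q : ℕ) (P : ℕ → ℕ → ℕ → Prop) (m R : ℕ) (v : Fin R → ℕ) (hR : R = TQ q m)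
    (h : ∀ i < m, ∀ e : Fin (TQ q (i + 1)) → Fin R, Function.Injective e → Has (P i) (TQ q i) (fun a => v (e a))) :
    ∃ g : Fin q → Fin R, Function.Injective g ∧ ∀ a b, a ≠ b → ∀ i < m, P i (v (g a)) (v (g b)) := by
  subst hR
  have key : ∀ j n : ℕ, n + j = m → ∃ e : Fin (TQ q n) → Fin (TQ q m), Function.Injective e ∧
      ∀ i, n ≤ i → i < m → ∀ a b, a ≠ b → P i (v (e a)) (v (e b)) := by
    intro j
    induction j with
    | zero =>
      intro n hn
      rw [Nat.add_zero] at hn
      subst hn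
      exact ⟨id, Function.injective_id, fun i h1 h2 => by omega⟩
    | succ j ih =>
      intro n hn
      obtain ⟨e, he, h1⟩ := ih (n + 1) (by omega)
      obtain ⟨g, hg, h2⟩ := h n (by omega) e he
      refine ⟨fun a => e (g a), he.comp hg, fun k hk1 hk2 a b hab => ?_⟩
      rcases Nat.eq_or_lt_of_le hk1 with h3 | h3
      · rw [← h3]
        exact h2 a b hab
      · exact h1 k (by omega) hk2 _ _ (fun h4 => hab (hg h4))
  obtain ⟨e, he, h1⟩ := key m 0 (by omega)
  exact ⟨e, he, fun a b hab i hi => h1 i (by omega) hi a b hab⟩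

/-- all elements of `Q` are pairwise good for all `P i`, `i < m` -/
def Cl (P : ℕ → ℕ → ℕ → Prop) (m : ℕ) (Q : Finset ℕ) : Prop := ∀ a ∈ Q, ∀ b ∈ Q, a ≠ b → ∀ i < m, P i a b

/-- all the subsets with `u` elements of `Q` have the same colour -/
def Mono {K : Type} (χ : Finset ℕ → K) (u : ℕ) (Q : Finset ℕ) : Prop := ∃ col : K, ∀ J ⊆ Q, J.card = u → χ J = col

open Classical in
/-- the good sets -/
noncomputable def GS {K : Type} (P : ℕ → ℕ → ℕ → Prop) (m : ℕ) (χ : Finset ℕ → K) (u q : ℕ) (V : Finset ℕ) :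
    Finset (Finset ℕ) := (V.powersetCard q).filter (fun Q => Mono χ u Q ∧ Cl P m Q)

open Classical in
/-- an injective tuple outside the exceptional sets contains a good set -/
theorem good_tuple (K : Type) [Fintype K] (u q m : ℕ) : ∃ R : ℕ, ∀ (P : ℕ → ℕ → ℕ → Prop)
    (χ : Finset ℕ → K) (V : Finset ℕ) (v : Fin R → ℕ), (∀ i, v i ∈ V) → Function.Injective v →
    (∀ i < m, ∀ e : Fin (TQ q (i + 1)) → Fin R, Function.Injective e → Has (P i) (TQ q i) (fun a => v (e a))) →
    ∃ g : Fin q → Fin R, Function.Injective g ∧ univ.image (fun a => v (g a)) ∈ GS P m χ u q V := by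
  obtain ⟨R, hR⟩ := H152HR.ramsey K u (TQ q m)
  refine ⟨R, fun P χ V v hv hinj h => ?_⟩
  obtain ⟨Q, hQ, hQc, col, hcol⟩ := hR χ (univ.image v) (by
    rw [card_image_of_injective _ hinj, card_univ, Fintype.card_fin])
  -- enumerate `Q`
  have hQ' : ∀ x : Fin (TQ q m), ∃ i : Fin R, v i = (Q.orderEmbOfFin hQc) x := by
    intro x
    have h1 := hQ (orderEmbOfFin_mem Q hQc x)
    obtain ⟨i, -, hi⟩ := mem_image.1 h1
    exact ⟨i, hi⟩
  choose e he using hQ'
  have hei : Function.Injective e := by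
    intro x y hxy
    have h1 : (Q.orderEmbOfFin hQc) x = (Q.orderEmbOfFin hQc) y := by rw [← he x, ← he y, hxy]
    exact (Q.orderEmbOfFin hQc).injective h1
  obtain ⟨g, hg, hg2⟩ := exists_clique q P m (TQ q m) (fun x => v (e x)) rfl (by
    intro i hi e' he'
    exact h i hi (fun a => e (e' a)) (hei.comp he'))
  refine ⟨fun a => e (g a), hei.comp hg, ?_⟩
  unfold GS
  rw [mem_filter, mem_powersetCard]
  have hinj' : Function.Injective (fun a => v (e (g a))) := hinj.comp (hei.comp hg)
  refine ⟨⟨?_, ?_⟩, ?_, ?_⟩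
  · intro y hy
    obtain ⟨a, -, rfl⟩ := mem_image.1 hy
    exact hv _
  · rw [card_image_of_injective _ hinj', card_univ, Fintype.card_fin]
  · refine ⟨col, fun J hJ hJc => hcol J (hJ.trans ?_) hJc⟩
    intro y hy
    obtain ⟨a, -, rfl⟩ := mem_image.1 hy
    show v (e (g a)) ∈ Q
    rw [he]
    exact orderEmbOfFin_mem Q hQc _
  · intro y hy z hz hyz i hi
    obtain ⟨a, -, rfl⟩ := mem_image.1 hy
    obtain ⟨b, -, rfl⟩ := mem_image.1 hz
    exact hg2 a b (fun hab => hyz (by rw [hab])) i hi

open Classical in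
/-- **many good sets** -/
theorem many_good (K : Type) [Fintype K] (u q m : ℕ) (hq : 2 ≤ q) : ∃ (ε₁ c : ℝ) (n₀ : ℕ), 0 < ε₁ ∧ 0 < c ∧
    ∀ (P : ℕ → ℕ → ℕ → Prop) (χ : Finset ℕ → K) (V : Finset ℕ), n₀ ≤ V.card →
    (∀ i < m, ((Bad (P i) V (TQ q (i + 1)) (TQ q i)).card : ℝ) ≤ ε₁ * (V.card : ℝ) ^ TQ q (i + 1)) →
    c * (V.card : ℝ) ^ q ≤ ((GS P m χ u q V).card : ℝ) := by
  obtain ⟨R, hR⟩ := good_tuple K u q m
  obtain ⟨C, hC⟩ : ∃ C : ℕ, C = ∑ i ∈ range m, R ^ TQ q (i + 1) := ⟨_, rfl⟩
  refine ⟨1 / (4 * (C + 1)), 1 / (2 * ((R : ℝ) ^ q * (q : ℝ) ^ q + 1)), 4 * R ^ 2 + 1, by positivity, by positivity,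
    fun P χ V hV hbad => ?_⟩
  obtain ⟨n, hn⟩ : ∃ n : ℝ, n = (V.card : ℝ) := ⟨_, rfl⟩
  have hn0 : 0 < n := by
    rw [hn]
    exact_mod_cast (by omega : 0 < V.card)
  have hnR : 4 * (R : ℝ) ^ 2 ≤ n := by
    rw [hn]
    exact_mod_cast (by omega : 4 * R ^ 2 ≤ V.card)
  -- all tuples
  have hall : (((Fintype.piFinset (fun _ : Fin R => V)).card : ℕ) : ℝ) = n ^ R := by
    rw [Fintype.card_piFinset, prod_const, card_univ, Fintype.card_fin, hn]
    push_cast
    rfl
  obtain ⟨E1, hE1⟩ : ∃ E1 : Fin R → Fin R → Finset (Fin R → ℕ), E1 = fun i j =>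
    (Fintype.piFinset (fun _ : Fin R => V)).filter (fun v => i ≠ j ∧ v i = v j) := ⟨_, rfl⟩
  obtain ⟨E3, hE3⟩ : ∃ E3 : (Fin q → Fin R) → Finset (Fin R → ℕ), E3 = fun g =>
    (Fintype.piFinset (fun _ : Fin R => V)).filter (fun v => Function.Injective g ∧
      univ.image (fun a => v (g a)) ∈ GS P m χ u q V) := ⟨_, rfl⟩
  have hcov : (Fintype.piFinset (fun _ : Fin R => V)) ⊆
      (univ.biUnion (fun i => univ.biUnion (fun j => E1 i j))) ∪
      (((range m).biUnion (fun i => univ.biUnion (fun e : Fin (TQ q (i + 1)) → Fin R =>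
        (Fintype.piFinset (fun _ : Fin R => V)).filter (fun v => Function.Injective e ∧
          ¬ Has (P i) (TQ q i) (fun a => v (e a)))))) ∪
      (univ.biUnion (fun g => E3 g))) := by
    intro v hv
    rw [mem_union, mem_union]
    by_cases h1 : Function.Injective v
    · by_cases h2 : ∀ i < m, ∀ e : Fin (TQ q (i + 1)) → Fin R, Function.Injective e →
          Has (P i) (TQ q i) (fun a => v (e a))
      · obtain ⟨g, hg, hg2⟩ := hR P χ V v (Fintype.mem_piFinset.1 hv) h1 h2
        refine Or.inr (Or.inr ?_)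
        rw [mem_biUnion]
        refine ⟨g, mem_univ _, ?_⟩
        rw [hE3]
        exact mem_filter.2 ⟨hv, hg, hg2⟩
      · push Not at h2
        obtain ⟨i, hi, e, he, h3⟩ := h2
        refine Or.inr (Or.inl ?_)
        rw [mem_biUnion]
        refine ⟨i, mem_range.2 hi, ?_⟩
        rw [mem_biUnion]
        exact ⟨e, mem_univ _, mem_filter.2 ⟨hv, he, h3⟩⟩
    · have h2 : ∃ i j, v i = v j ∧ i ≠ j := by
        by_contra h3
        push Not at h3
        exact h1 h3
      obtain ⟨i, j, h3, h4⟩ := h2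
      refine Or.inl ?_
      rw [mem_biUnion]
      refine ⟨i, mem_univ _, ?_⟩
      rw [mem_biUnion]
      refine ⟨j, mem_univ _, ?_⟩
      rw [hE1]
      exact mem_filter.2 ⟨hv, h4, h3⟩
  -- coincidences
  have h1 : ∀ i j, ((E1 i j).card : ℝ) ≤ n ^ R / n := by
    intro i j
    rw [hE1]
    by_cases hij : i = j
    · have : (Fintype.piFinset (fun _ : Fin R => V)).filter (fun v => i ≠ j ∧ v i = v j) = ∅ :=
        filter_eq_empty_iff.2 fun v _ h => h.1 hij
      simp only [this, card_empty, Nat.cast_zero]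
      positivity
    · have h2 : ((Fintype.piFinset (fun _ : Fin R => V)).filter (fun v => i ≠ j ∧ v i = v j)).card * V.card ≤
          (Fintype.piFinset (fun _ : Fin R => V)).card := by
        rw [← card_product]
        apply card_le_card_of_injOn (fun y => Function.update y.1 i y.2)
        · intro y hy
          obtain ⟨h3, h4⟩ := mem_product.1 (mem_coe.1 hy)
          have h5 := Fintype.mem_piFinset.1 (mem_filter.1 h3).1
          rw [mem_coe, Fintype.mem_piFinset]
          intro a
          show Function.update y.1 i y.2 a ∈ V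
          by_cases ha : a = i
          · rw [ha, Function.update_self]; exact h4
          · rw [Function.update_of_ne ha]; exact h5 a
        · intro y hy y' hy' h
          obtain ⟨h3, h4⟩ := mem_product.1 (mem_coe.1 hy)
          obtain ⟨h3', h4'⟩ := mem_product.1 (mem_coe.1 hy')
          have h5 := (mem_filter.1 h3).2.2
          have h5' := (mem_filter.1 h3').2.2
          have h6 : ∀ a, Function.update y.1 i y.2 a = Function.update y'.1 i y'.2 a := fun a => congrFun h a
          have h7 : y.2 = y'.2 := by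
            have := h6 i
            rwa [Function.update_self, Function.update_self] at this
          have h8 : ∀ a, a ≠ i → y.1 a = y'.1 a := by
            intro a ha
            have := h6 a
            rwa [Function.update_of_ne ha, Function.update_of_ne ha] at this
          have h9 : y.1 = y'.1 := by
            funext a
            by_cases ha : a = i
            · rw [ha, h5, h5', h8 j (Ne.symm hij)]
            · exact h8 a ha
          exact Prod.ext h9 h7
      rw [le_div_iff₀ hn0, ← hall, hn]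
      exact_mod_cast h2
  -- bad sub-tuples
  have h2 : ∀ i ∈ range m, ∀ e : Fin (TQ q (i + 1)) → Fin R,
      ((((Fintype.piFinset (fun _ : Fin R => V)).filter (fun v => Function.Injective e ∧
          ¬ Has (P i) (TQ q i) (fun a => v (e a)))).card : ℕ) : ℝ) ≤ 1 / (4 * (C + 1)) * n ^ R := by
    intro i hi e
    by_cases he : Function.Injective e
    · have hle : TQ q (i + 1) ≤ R := by
        have := Fintype.card_le_of_injective e he
        rwa [Fintype.card_fin, Fintype.card_fin] at this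
      have h4 : ((Fintype.piFinset (fun _ : Fin R => V)).filter (fun v => Function.Injective e ∧
          ¬ Has (P i) (TQ q i) (fun a => v (e a)))).card ≤
          (Bad (P i) V (TQ q (i + 1)) (TQ q i)).card * V.card ^ (R - TQ q (i + 1)) := by
        refine le_trans (card_le_card (?_ : _ ⊆ (Fintype.piFinset (fun _ : Fin R => V)).filter
          (fun v => ¬ Has (P i) (TQ q i) (fun a => v (e a))))) ?_
        · intro v hv
          obtain ⟨h5, h6⟩ := mem_filter.1 hv
          exact mem_filter.2 ⟨h5, h6.2⟩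
        · refine (le_of_eq ?_).trans ((fiber V e he (fun w => ¬ Has (P i) (TQ q i) w)).trans (le_of_eq ?_))
          · congr
          · unfold Bad
            congr
      have h5 := hbad i (mem_range.1 hi)
      have h6 : ((((Fintype.piFinset (fun _ : Fin R => V)).filter (fun v => Function.Injective e ∧
          ¬ Has (P i) (TQ q i) (fun a => v (e a)))).card : ℕ) : ℝ) ≤
          ((Bad (P i) V (TQ q (i + 1)) (TQ q i)).card : ℝ) * (V.card : ℝ) ^ (R - TQ q (i + 1)) := by
        exact_mod_cast h4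
      refine h6.trans ((mul_le_mul_of_nonneg_right h5 (by positivity)).trans (le_of_eq ?_))
      rw [mul_assoc, ← pow_add, hn]
      congr 2
      omega
    · have h3 : (Fintype.piFinset (fun _ : Fin R => V)).filter (fun v => Function.Injective e ∧
          ¬ Has (P i) (TQ q i) (fun a => v (e a))) = ∅ := filter_eq_empty_iff.2 fun f _ hf => he hf.1
      rw [h3, card_empty, Nat.cast_zero]
      positivity
  -- good sub-tuples
  have h3 : ∀ g : Fin q → Fin R, ((E3 g).card : ℝ) ≤ ((GS P m χ u q V).card : ℝ) * (q : ℝ) ^ q * (n ^ R / n ^ q) := by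
    intro g
    rw [hE3]
    by_cases hg : Function.Injective g
    · have hle : q ≤ R := by
        have := Fintype.card_le_of_injective g hg
        rwa [Fintype.card_fin, Fintype.card_fin] at this
      obtain ⟨G', hG'⟩ : ∃ G' : Finset (Fin q → ℕ), G' = (Fintype.piFinset (fun _ : Fin q => V)).filter
        (fun w => univ.image w ∈ GS P m χ u q V) := ⟨_, rfl⟩
      have h4 : ((Fintype.piFinset (fun _ : Fin R => V)).filter (fun v => Function.Injective g ∧
          univ.image (fun a => v (g a)) ∈ GS P m χ u q V)).card ≤ G'.card * V.card ^ (R - q) := by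
        refine le_trans (card_le_card (?_ : _ ⊆ (Fintype.piFinset (fun _ : Fin R => V)).filter
          (fun v => univ.image (fun a => v (g a)) ∈ GS P m χ u q V))) ?_
        · intro v hv
          obtain ⟨h5, h6⟩ := mem_filter.1 hv
          exact mem_filter.2 ⟨h5, h6.2⟩
        · rw [hG']
          refine (le_of_eq ?_).trans ((fiber V g hg (fun w => univ.image w ∈ GS P m χ u q V)).trans (le_of_eq ?_))
          · congr
          · congr
      have h5 : G'.card ≤ (GS P m χ u q V).card * q ^ q := by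
        have h6 : G' ⊆ (GS P m χ u q V).biUnion (fun Q => Fintype.piFinset (fun _ : Fin q => Q)) := by
          intro w hw
          rw [hG'] at hw
          obtain ⟨-, h7⟩ := mem_filter.1 hw
          rw [mem_biUnion]
          refine ⟨univ.image w, h7, Fintype.mem_piFinset.2 fun a => mem_image_of_mem _ (mem_univ a)⟩
        refine (card_le_card h6).trans (card_biUnion_le.trans ?_)
        rw [← smul_eq_mul, ← sum_const]
        apply sum_le_sum
        intro Q hQ
        unfold GS at hQ
        rw [mem_filter, mem_powersetCard] at hQ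
        rw [Fintype.card_piFinset, prod_const, card_univ, Fintype.card_fin, hQ.1.2]
      have h6 : ((((Fintype.piFinset (fun _ : Fin R => V)).filter (fun v => Function.Injective g ∧
          univ.image (fun a => v (g a)) ∈ GS P m χ u q V)).card : ℕ) : ℝ) ≤
          ((GS P m χ u q V).card : ℝ) * (q : ℝ) ^ q * (V.card : ℝ) ^ (R - q) := by
        exact_mod_cast h4.trans (Nat.mul_le_mul_right _ h5)
      refine h6.trans (le_of_eq ?_)
      rw [hn, div_eq_mul_inv, ← pow_sub₀ _ (by rw [← hn]; exact hn0.ne') hle]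
    · have h3 : (Fintype.piFinset (fun _ : Fin R => V)).filter (fun v => Function.Injective g ∧
          univ.image (fun a => v (g a)) ∈ GS P m χ u q V) = ∅ := filter_eq_empty_iff.2 fun f _ hf => hg hf.1
      simp only [h3, card_empty, Nat.cast_zero]
      positivity
  -- sum up
  have h4 : n ^ R ≤ ∑ i : Fin R, ∑ j : Fin R, ((E1 i j).card : ℝ) +
      (∑ i ∈ range m, ∑ e : Fin (TQ q (i + 1)) → Fin R,
        ((((Fintype.piFinset (fun _ : Fin R => V)).filter (fun v => Function.Injective e ∧
          ¬ Has (P i) (TQ q i) (fun a => v (e a)))).card : ℕ) : ℝ) +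
      ∑ g : Fin q → Fin R, ((E3 g).card : ℝ)) := by
    rw [← hall]
    have h5 := (card_le_card hcov).trans ((card_union_le _ _).trans (Nat.add_le_add
      (card_biUnion_le.trans (sum_le_sum fun i _ => card_biUnion_le))
      ((card_union_le _ _).trans (Nat.add_le_add
        (card_biUnion_le.trans (sum_le_sum fun i _ => card_biUnion_le)) card_biUnion_le))))
    exact_mod_cast h5
  have h5 : ∑ i : Fin R, ∑ j : Fin R, ((E1 i j).card : ℝ) ≤ n ^ R / 4 := by
    refine (sum_le_sum fun i _ => sum_le_sum fun j _ => h1 i j).trans ?_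
    rw [sum_const, sum_const, card_univ, Fintype.card_fin, smul_smul, nsmul_eq_mul]
    push_cast
    rw [mul_div_assoc', div_le_div_iff₀ hn0 (by norm_num)]
    have : 0 < n ^ R := by positivity
    nlinarith
  have h6 : ∑ i ∈ range m, ∑ e : Fin (TQ q (i + 1)) → Fin R,
        ((((Fintype.piFinset (fun _ : Fin R => V)).filter (fun v => Function.Injective e ∧
          ¬ Has (P i) (TQ q i) (fun a => v (e a)))).card : ℕ) : ℝ) ≤ n ^ R / 4 := by
    refine (sum_le_sum fun i hi => sum_le_sum fun e _ => h2 i hi e).trans ?_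
    have h7 : ∀ i ∈ range m, ∑ _e : Fin (TQ q (i + 1)) → Fin R, 1 / (4 * ((C : ℝ) + 1)) * n ^ R =
        ((R ^ TQ q (i + 1) : ℕ) : ℝ) * (1 / (4 * ((C : ℝ) + 1)) * n ^ R) := by
      intro i _
      rw [sum_const, card_univ, Fintype.card_fun, Fintype.card_fin, Fintype.card_fin, nsmul_eq_mul]
    rw [sum_congr rfl h7, ← sum_mul, ← Nat.cast_sum, ← hC]
    have h8 : (C : ℝ) * (1 / (4 * ((C : ℝ) + 1)) * n ^ R) = (C / (C + 1)) * (n ^ R / 4) := by
      field_simp
    rw [h8]
    have h9 : (C : ℝ) / (C + 1) ≤ 1 := by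
      rw [div_le_one (by positivity)]; linarith
    have h10 : 0 ≤ n ^ R / 4 := by positivity
    nlinarith
  have h7 : ∑ g : Fin q → Fin R, ((E3 g).card : ℝ) ≤
      (R : ℝ) ^ q * (((GS P m χ u q V).card : ℝ) * (q : ℝ) ^ q * (n ^ R / n ^ q)) := by
    refine (sum_le_sum fun g _ => h3 g).trans (le_of_eq ?_)
    rw [sum_const, card_univ, Fintype.card_fun, Fintype.card_fin, Fintype.card_fin, nsmul_eq_mul]
    push_cast
    ring
  have h8 : n ^ R / 2 ≤ (R : ℝ) ^ q * (((GS P m χ u q V).card : ℝ) * (q : ℝ) ^ q * (n ^ R / n ^ q)) := by linarith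
  obtain ⟨g0, hg0⟩ : ∃ g0 : ℝ, g0 = ((GS P m χ u q V).card : ℝ) := ⟨_, rfl⟩
  rw [← hg0] at h8 ⊢
  rw [← hn]
  have hg00 : 0 ≤ g0 := by rw [hg0]; exact Nat.cast_nonneg _
  have h9 : n ^ q ≤ 2 * ((R : ℝ) ^ q * (q : ℝ) ^ q * g0) := by
    have hp : 0 < n ^ R := by positivity
    have hq' : 0 < n ^ q := by positivity
    have e1 : (R : ℝ) ^ q * (g0 * (q : ℝ) ^ q * (n ^ R / n ^ q)) = ((R : ℝ) ^ q * (q : ℝ) ^ q * g0) * n ^ R / n ^ q := by
      ring
    rw [e1, le_div_iff₀ hq'] at h8
    have h10 : n ^ R * n ^ q ≤ n ^ R * (2 * ((R : ℝ) ^ q * (q : ℝ) ^ q * g0)) := by linarith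
    exact le_of_mul_le_mul_left h10 hp
  rw [one_div, inv_mul_le_iff₀ (by positivity)]
  nlinarith

end Pool.Agent.L7h36.DS
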