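import Mathlib
import Pool.Agent.L7h36.DS.Ram
import Pool.Agent.L7h36.DS.Fin

/-!
The Ramsey theorem relative to the good differences: the assembly (helper36).
-/

set_option autoImplicit false

namespace Pool.Agent.L7h36.DS

open Finset Filter Topology
open Pool.Agent.N646.RG

variable {r : ℕ}

/-- a rich class -/
theorem rich {z : ℕ} (hz : 2 ≤ z) (t : Fin r → ℕ) (A : Finset ℕ) :
    ∃ b ∈ BW (primorial z) r, (fW z / (primorial z : ℝ)) ^ r * A.card ≤ ((Ab (primorial z) t A b).card : ℝ) := by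
  classical
  obtain ⟨W, hW⟩ : ∃ W, W = primorial z := ⟨_, rfl⟩
  have hW1 : 0 < W := by rw [hW]; exact primorial_pos z
  have hW0 : (0 : ℝ) < W := by exact_mod_cast hW1
  have h1 : ∑ b ∈ BW W r, ((Ab W t A b).card : ℝ) = A.card * fW z ^ r := by
    have h2 := sum_single W t A
    have h3 : ((∑ b ∈ BW W r, (Ab W t A b).card : ℕ) : ℝ) = ((∑ a ∈ A, ∏ j, G W (t j * a) (t j * a) : ℕ) : ℝ) := by
      exact_mod_cast h2
    push_cast at h3
    rw [h3]
    have h4 : ∀ a ∈ A, ∏ j, (G W (t j * a) (t j * a) : ℝ) = fW z ^ r := by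
      intro a _
      have h5 : ∀ j ∈ (univ : Finset (Fin r)), (G W (t j * a) (t j * a) : ℝ) = fW z := by
        intro j _
        rw [hW, G_ad hz]
        unfold ad
        rw [Nat.sub_self, Nat.add_zero, mul_zero, cW_Sz_zero]
      rw [prod_congr rfl h5, prod_const, card_univ, Fintype.card_fin]
    rw [sum_congr rfl h4, sum_const, nsmul_eq_mul]
  rw [← hW]
  by_contra hcon
  push Not at hcon
  have hne : (BW W r).Nonempty := by
    unfold BW
    rw [Fintype.piFinset_nonempty]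
    intro _
    exact nonempty_range_iff.2 (by omega)
  have h2 := sum_lt_sum_of_nonempty hne hcon
  rw [h1, sum_const, card_BW, nsmul_eq_mul] at h2
  push_cast at h2
  have h3 : (W : ℝ) ^ r * ((fW z / (W : ℝ)) ^ r * A.card) = A.card * fW z ^ r := by
    rw [div_pow]
    field_simp
  rw [h3] at h2
  exact lt_irrefl _ h2

/-- two elements of a class: even differences -/
theorem even_of_class {z : ℕ} (hz : 2 ≤ z) {t : Fin r → ℕ} {A : Finset ℕ} {b : Fin r → ℕ} {x y : ℕ}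
    (hx : x ∈ Ab (primorial z) t A b) (hy : y ∈ Ab (primorial z) t A b) (hxy : x < y) (j : Fin r) :
    Even (t j * (y - x)) := by
  have h1 := (mem_filter.1 hx).2 j
  have h2 := (mem_filter.1 hy).2 j
  have h3 : 2 ∣ primorial z := by rw [primorial_eq hz]; exact Dvd.intro _ rfl
  have h4 : (b j + t j * x).Coprime 2 := h1.coprime_dvd_right h3
  have h5 : (b j + t j * y).Coprime 2 := h2.coprime_dvd_right h3
  rw [Nat.coprime_two_right] at h4 h5
  have h6 : t j * (y - x) = (b j + t j * y) - (b j + t j * x) := by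
    rw [Nat.mul_sub]
    have := Nat.mul_le_mul_left (t j) hxy.le
    omega
  rw [h6]
  exact Nat.Odd.sub_odd h5 h4

/-- few sets contain a pair with a large singular series -/
theorem few_large (A : Finset ℕ) (H q : ℕ) (hA : A ⊆ Icc 1 H) (hq : 2 ≤ q) (L : ℕ → Prop) [DecidablePred L] (E : ℝ)
    (hE : (((Icc 1 H).filter L).card : ℝ) ≤ E * H) :
    (((A.powersetCard q).filter (fun Q => ∃ x ∈ Q, ∃ y ∈ Q, x < y ∧ L (y - x))).card : ℝ) ≤ E * (H : ℝ) ^ q := by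
  classical
  -- the pairs
  obtain ⟨Pr, hPr⟩ : ∃ Pr, Pr = (A ×ˢ A).filter (fun y => y.1 < y.2 ∧ L (y.2 - y.1)) := ⟨_, rfl⟩
  have h1 : (Pr.card : ℝ) ≤ E * (H : ℝ) ^ 2 := by
    have h2 := sum_diff_le A H hA (fun _ => 1) (fun _ _ => zero_le_one) L
    rw [sum_const, sum_const, nsmul_eq_mul, nsmul_eq_mul, mul_one, mul_one, ← hPr] at h2
    have hH : (0 : ℝ) ≤ H := Nat.cast_nonneg _
    nlinarith
  have hAH : A.card ≤ H := by
    have h1 := card_le_card hA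
    rw [Nat.card_Icc] at h1
    omega
  have h2 : ((A.powersetCard q).filter (fun Q => ∃ x ∈ Q, ∃ y ∈ Q, x < y ∧ L (y - x))).card ≤
      Pr.card * H ^ (q - 2) := by
    have h3 : (A.powersetCard q).filter (fun Q => ∃ x ∈ Q, ∃ y ∈ Q, x < y ∧ L (y - x)) ⊆
        (Pr ×ˢ (A.powersetCard (q - 2))).image (fun z => insert z.1.1 (insert z.1.2 z.2)) := by
      intro Q hQ
      obtain ⟨h4, x, hx, y, hy, hxy, hL⟩ := mem_filter.1 hQ
      obtain ⟨h5, h6⟩ := mem_powersetCard.1 h4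
      rw [mem_image]
      refine ⟨((x, y), (Q.erase x).erase y), ?_, ?_⟩
      · rw [mem_product, hPr, mem_filter, mem_product, mem_powersetCard]
        refine ⟨⟨⟨h5 hx, h5 hy⟩, hxy, hL⟩, ?_, ?_⟩
        · exact (erase_subset _ _).trans ((erase_subset _ _).trans h5)
        · rw [card_erase_of_mem (mem_erase.2 ⟨by omega, hy⟩), card_erase_of_mem hx, h6]
          omega
      · show insert x (insert y ((Q.erase x).erase y)) = Q
        rw [insert_erase (mem_erase.2 ⟨by omega, hy⟩), insert_erase hx]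
    refine (card_le_card h3).trans (card_image_le.trans ?_)
    rw [card_product, card_powersetCard]
    apply Nat.mul_le_mul_left
    exact (Nat.choose_le_pow _ _).trans (Nat.pow_le_pow_left hAH _)
  have h3 : (((A.powersetCard q).filter (fun Q => ∃ x ∈ Q, ∃ y ∈ Q, x < y ∧ L (y - x))).card : ℝ) ≤
      (Pr.card : ℝ) * (H : ℝ) ^ (q - 2) := by
    exact_mod_cast h2
  refine h3.trans ((mul_le_mul_of_nonneg_right h1 (by positivity)).trans (le_of_eq ?_))
  rw [mul_assoc, ← pow_add]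
  congr 2
  omega

open Classical in
/-- **the Ramsey theorem relative to the good differences** -/
theorem ram_core (hH : S_HITM2 1) (t : Fin r → ℕ) (ht : ∀ j, 1 ≤ t j) (m : ℕ) (t' : ℕ → ℕ)
    (ht' : ∀ i < m, ∃ j, t' i = t j) (K : Type) [Fintype K] (u q : ℕ) (hq : 2 ≤ q) (η lam : ℝ) (hη : 0 < η)
    (hlam : 0 < lam) :
    ∃ δ κ : ℝ, 0 < δ ∧ 0 < κ ∧ ∃ N₀ : ℕ, ∀ N : ℕ → ℕ, (∀ i < m, N₀ ≤ N i) → ∀ H : ℕ, N₀ ≤ H →
    (∀ i < m, lam * Real.log (N i) ≤ H ∧ 100 * (t' i * H) ≤ N i) → ∀ A : Finset ℕ, A ⊆ Icc 1 H →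
    η * H ≤ A.card → ∀ χ : Finset ℕ → K,
    δ * (H : ℝ) ^ q ≤ (((A.powersetCard q).filter (fun Q => Mono χ u Q ∧ ∀ x ∈ Q, ∀ y ∈ Q, x < y →
      (∀ j, Even (t j * (y - x))) ∧ ∀ i < m,
        κ * (S (t' i * (y - x)) * (N i / Real.log (N i) ^ 2)) ≤ (pi2 (N i) (t' i * (y - x)) : ℝ))).card : ℝ) := by
  obtain ⟨ε₁, c, n₀, hε₁, hc, hmany⟩ := many_good K u q m hq
  have hbad := fun i : ℕ => bad_few hH (TQ q (i + 1)) (TQ q i - 1) (by have := TQ_ge hq (i + 1); omega) (TQ_succ i)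
  choose K0 hK0 using hbad
  obtain ⟨Bk, hBk⟩ := exists_up K0 m
  obtain ⟨z, hz⟩ : ∃ z, z = max 2 Bk := ⟨_, rfl⟩
  have hz2 : 2 ≤ z := by rw [hz]; exact le_max_left _ _
  obtain ⟨W, hW⟩ : ∃ W, W = primorial z := ⟨_, rfl⟩
  have hW1 : 1 ≤ W := by rw [hW]; exact primorial_pos z
  have hWR : (0 : ℝ) < W := by exact_mod_cast hW1
  have hWd : ∀ i < m, ∀ p : ℕ, p.Prime → p ≤ K0 i → p ∣ W := by
    intro i hi p hp hpi
    rw [hW]
    unfold primorial
    apply dvd_prod_of_mem (fun p => p)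
    rw [mem_filter, mem_range]
    refine ⟨?_, hp⟩
    have h1 : p ≤ z := by
      rw [hz]
      exact (hpi.trans (hBk i hi)).trans (le_max_right _ _)
    omega
  have hfW := fW_pos z
  obtain ⟨η', hη'⟩ : ∃ η' : ℝ, η' = (fW z / (W : ℝ)) ^ r * η := ⟨_, rfl⟩
  have hη'0 : 0 < η' := by rw [hη']; positivity
  obtain ⟨δ, hδ⟩ : ∃ δ : ℝ, δ = c * η' ^ q / 2 := ⟨_, rfl⟩
  have hδ0 : 0 < δ := by rw [hδ]; positivity
  obtain ⟨B, hB1, hlarge⟩ := large_small t ht δ hδ0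
  have hκi : ∀ i : ℕ, ∃ κ : ℝ, 0 < κ ∧ ∃ N₁ : ℕ, i < m → ∀ N : ℕ, N₁ ≤ N → ∀ H : ℕ, W ≤ H →
      lam * Real.log N ≤ H → 100 * (t' i * H) ≤ N → ∀ (b : ℕ) (V : Finset ℕ),
      V ⊆ range (H + 1) → (∀ x ∈ V, (b + t' i * x).Coprime W) → η' * H ≤ V.card →
      ((Bad (Qd κ N (t' i)) V (TQ q (i + 1)) (TQ q i)).card : ℝ) ≤ ε₁ * (V.card : ℝ) ^ TQ q (i + 1) := by
    intro i
    by_cases hi : i < m
    · obtain ⟨j, hj⟩ := ht' i hi
      obtain ⟨κ, hκ, hev⟩ := hK0 i (t' i) W (by rw [hj]; exact ht j) hW1 (hWd i hi) lam η' ε₁ hlam hη'0 hε₁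
      obtain ⟨N₁, hN₁⟩ := eventually_atTop.1 hev
      refine ⟨κ, hκ, N₁, fun _ N hN H h1 h2 h3 b V h4 h5 h6 => ?_⟩
      have h7 := hN₁ N hN H h1 h2 h3 b V h4 h5 h6
      have h8 : TQ q i - 1 + 1 = TQ q i := by have := TQ_ge hq i; omega
      rw [h8] at h7
      exact h7
    · exact ⟨1, one_pos, 0, fun h => absurd h hi⟩
  choose κi hκi0 N₁ hN₁ using hκi
  obtain ⟨κ₀, hκ₀, hκ₀le⟩ := exists_low κi hκi0 m
  obtain ⟨N₂, hN₂⟩ := exists_up N₁ m
  obtain ⟨H₁, hH₁⟩ := exists_nat_ge ((n₀ : ℝ) / η')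
  refine ⟨δ, κ₀ / B, hδ0, by positivity, max (max N₂ W) (max H₁ 1), fun N hN H hHN hcond A hA hAd χ => ?_⟩
  have hWH : W ≤ H := ((le_max_right _ _).trans (le_max_left _ _)).trans hHN
  have hH1 : 1 ≤ H := ((le_max_right _ _).trans (le_max_right _ _)).trans hHN
  have hHR : (1 : ℝ) ≤ H := by exact_mod_cast hH1
  have hHH₁ : (n₀ : ℝ) / η' ≤ H :=
    hH₁.trans (by exact_mod_cast ((le_max_left _ _).trans (le_max_right _ _)).trans hHN)
  obtain ⟨b, -, hb⟩ := rich hz2 t A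
  rw [← hW] at hb
  have hVd : η' * H ≤ ((Ab W t A b).card : ℝ) := by
    refine le_trans ?_ hb
    rw [hη', mul_assoc]
    exact mul_le_mul_of_nonneg_left hAd (by positivity)
  obtain ⟨P, hP⟩ : ∃ P : ℕ → ℕ → ℕ → Prop, P = fun i x y => Qd (κi i) (N i) (t' i) x y := ⟨_, rfl⟩
  have hn₀ : n₀ ≤ (Ab W t A b).card := by
    rw [div_le_iff₀ hη'0] at hHH₁
    have : (n₀ : ℝ) ≤ ((Ab W t A b).card : ℝ) := by linarith
    exact_mod_cast this
  have h1 := hmany P χ (Ab W t A b) hn₀ (by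
    intro i hi
    obtain ⟨j, hj⟩ := ht' i hi
    rw [hP]
    refine hN₁ i hi (N i) ((hN₂ i hi).trans (((le_max_left _ _).trans (le_max_left _ _)).trans (hN i hi))) H hWH
      (hcond i hi).1 (hcond i hi).2 (b j) (Ab W t A b) ?_ ?_ hVd
    · intro x hx
      have h4 := mem_Icc.1 (hA (mem_filter.1 hx).1)
      rw [mem_range]
      omega
    · intro x hx
      rw [hj]
      exact (mem_filter.1 hx).2 j)
  have h2 : 2 * δ * (H : ℝ) ^ q ≤ ((GS P m χ u q (Ab W t A b)).card : ℝ) := by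
    refine le_trans ?_ h1
    have h3 : (η' * H) ^ q ≤ ((Ab W t A b).card : ℝ) ^ q := pow_le_pow_left₀ (by positivity) hVd q
    rw [hδ]
    calc 2 * (c * η' ^ q / 2) * (H : ℝ) ^ q = c * (η' * H) ^ q := by rw [mul_pow]; ring
      _ ≤ _ := mul_le_mul_of_nonneg_left h3 hc.le
  -- the sets with a large singular series
  obtain ⟨L, hL⟩ : ∃ L : ℕ → Prop, L = fun d => (∀ j, Even (t j * d)) ∧ ∃ j, B < S (t j * d) := ⟨_, rfl⟩
  have hLs : (((Icc 1 H).filter L).card : ℝ) ≤ δ * H := by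
    refine le_trans ?_ (hlarge H)
    have h3 : (((Icc 1 H).filter L).card : ℝ) = ∑ d ∈ (Icc 1 H).filter L, (1 : ℝ) := by
      rw [sum_const, nsmul_eq_mul, mul_one]
    rw [h3]
    refine (sum_le_sum (g := fun d => U t d) ?_).trans
      (sum_le_sum_of_subset_of_nonneg ?_ fun _ _ _ => U_nonneg _ _)
    · intro d hd
      have h4 := (mem_filter.1 hd).2
      rw [hL] at h4
      unfold U
      have h5 : ∀ j ∈ (univ : Finset (Fin r)), (1 : ℝ) ≤ S (t j * d) := by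
        intro j _
        unfold S
        rw [if_pos (h4.1 j)]
        exact one_le_gg _
      have h6 := Finset.prod_le_prod (s := (univ : Finset (Fin r))) (f := fun _ => (1 : ℝ))
        (g := fun j => S (t j * d)) (fun _ _ => zero_le_one) h5
      rwa [prod_const_one] at h6
    · intro d hd
      obtain ⟨h4, h5⟩ := mem_filter.1 hd
      rw [hL] at h5
      exact mem_filter.2 ⟨h4, h5.2⟩
  have h3 := few_large A H q hA hq L δ hLs
  -- the good sets
  have h4 : GS P m χ u q (Ab W t A b) ⊆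
      (A.powersetCard q).filter (fun Q => Mono χ u Q ∧ ∀ x ∈ Q, ∀ y ∈ Q, x < y →
      (∀ j, Even (t j * (y - x))) ∧ ∀ i < m,
        κ₀ / B * (S (t' i * (y - x)) * (N i / Real.log (N i) ^ 2)) ≤ (pi2 (N i) (t' i * (y - x)) : ℝ)) ∪
      (A.powersetCard q).filter (fun Q => ∃ x ∈ Q, ∃ y ∈ Q, x < y ∧ L (y - x)) := by
    intro Q hQ
    unfold GS at hQ
    rw [mem_filter, mem_powersetCard] at hQ
    obtain ⟨⟨h5, h6⟩, h7, h8⟩ := hQ
    have h9 : Q ⊆ A := h5.trans (filter_subset _ _)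
    rw [mem_union]
    by_cases h10 : ∃ x ∈ Q, ∃ y ∈ Q, x < y ∧ L (y - x)
    · exact Or.inr (mem_filter.2 ⟨mem_powersetCard.2 ⟨h9, h6⟩, h10⟩)
    · refine Or.inl (mem_filter.2 ⟨mem_powersetCard.2 ⟨h9, h6⟩, h7, fun x hx y hy hxy => ?_⟩)
      have hev : ∀ j, Even (t j * (y - x)) := by
        intro j
        have hx' := h5 hx
        have hy' := h5 hy
        rw [hW] at hx' hy'
        exact even_of_class hz2 hx' hy' hxy j
      refine ⟨hev, fun i hi => ?_⟩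
      have h11 : ¬ L (y - x) := fun h => h10 ⟨x, hx, y, hy, hxy, h⟩
      rw [hL] at h11
      push Not at h11
      obtain ⟨j, hj⟩ := ht' i hi
      have h12 := h11 hev j
      rw [← hj] at h12
      have h13 := h8 x hx y hy hxy.ne i hi
      rw [hP] at h13
      have h14 : Gdf (k := 1) (κi i) (N i) ![((1 : ℤ), ((t' i * x : ℕ) : ℤ)), ((1 : ℤ), ((t' i * y : ℕ) : ℤ))] := h13
      have hyH := mem_Icc.1 (hA (h9 hy))
      have h15 := gdf_pi2 h14 (d := t' i * (y - x)) (by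
        rw [Nat.mul_sub]
        have := Nat.mul_le_mul_left (t' i) hxy.le
        omega) (by
        intro n hn
        have h16 := (mem_Icc.1 hn).2
        have h17 := (hcond i hi).2
        have h18 : t' i * y ≤ t' i * H := Nat.mul_le_mul_left _ hyH.2
        omega)
      refine le_trans ?_ h15
      have h19 : 0 ≤ (N i : ℝ) / Real.log (N i) ^ 2 := by positivity
      have h20 := hκ₀le i hi
      calc κ₀ / B * (S (t' i * (y - x)) * (N i / Real.log (N i) ^ 2)) ≤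
          κ₀ / B * (B * (N i / Real.log (N i) ^ 2)) := by
            apply mul_le_mul_of_nonneg_left _ (by positivity)
            exact mul_le_mul_of_nonneg_right h12 h19
        _ = κ₀ * (N i / Real.log (N i) ^ 2) := by field_simp
        _ ≤ κi i * (N i / Real.log (N i) ^ 2) := mul_le_mul_of_nonneg_right h20 h19
  have h5 := (card_le_card h4).trans (card_union_le _ _)
  have h6 : ((GS P m χ u q (Ab W t A b)).card : ℝ) ≤
      (((A.powersetCard q).filter (fun Q => Mono χ u Q ∧ ∀ x ∈ Q, ∀ y ∈ Q, x < y →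
      (∀ j, Even (t j * (y - x))) ∧ ∀ i < m,
        κ₀ / B * (S (t' i * (y - x)) * (N i / Real.log (N i) ^ 2)) ≤ (pi2 (N i) (t' i * (y - x)) : ℝ))).card : ℝ) +
      (((A.powersetCard q).filter (fun Q => ∃ x ∈ Q, ∃ y ∈ Q, x < y ∧ L (y - x))).card : ℝ) := by
    exact_mod_cast h5
  linarith

open Classical in
/-- **the Ramsey theorem relative to the good differences, real heights** -/
theorem ram_fin (hH : S_HITM2 1) (s : ℕ) (t : Fin r → ℕ) (ht : ∀ j, 1 ≤ t j) (K : Type) [Fintype K] (u q : ℕ)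
    (hq : 2 ≤ q) (η lam : ℝ) (hη : 0 < η) (hlam : 0 < lam) :
    ∃ δ κ : ℝ, 0 < δ ∧ 0 < κ ∧ ∃ X : ℝ, ∀ x : Fin s → ℝ, (∀ i, X ≤ x i) → ∀ H : ℕ, X ≤ H →
    (∀ i, lam * Real.log (x i) ≤ H) → (∀ i j, 100 * ((t j : ℝ) * H) ≤ x i) → ∀ A : Finset ℕ, A ⊆ Icc 1 H →
    η * H ≤ A.card → ∀ χ : Finset ℕ → K,
    δ * (H : ℝ) ^ q ≤ (((A.powersetCard q).filter (fun Q => Mono χ u Q ∧ ∀ a ∈ Q, ∀ b ∈ Q, a < b →
      ∀ j, Even (t j * (b - a)) ∧ ∀ i,
        κ * (S (t j * (b - a)) * (x i / Real.log (x i) ^ 2)) ≤ (pi2R (x i) (t j * (b - a)) : ℝ))).card : ℝ) := by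
  obtain ⟨e, he⟩ : ∃ e : Fin (r * s) → Fin r × Fin s, e = fun i => finProdFinEquiv.symm i := ⟨_, rfl⟩
  obtain ⟨t', ht'⟩ : ∃ t' : ℕ → ℕ, t' = fun i => if h : i < r * s then t (e ⟨i, h⟩).1 else 1 := ⟨_, rfl⟩
  obtain ⟨δ, κ, hδ, hκ, N₀, hN₀⟩ := ram_core hH t ht (r * s) t' (by
    intro i hi
    refine ⟨(e ⟨i, hi⟩).1, ?_⟩
    rw [ht']
    simp only [hi, dif_pos]) K u q hq η lam hη hlam
  refine ⟨δ, κ / 2, hδ, by positivity, (N₀ : ℝ) + 3, fun x hx H hXH hl hxH A hA hAd χ => ?_⟩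
  obtain ⟨N, hN⟩ : ∃ N : ℕ → ℕ, N = fun i => if h : i < r * s then ⌊x (e ⟨i, h⟩).2⌋₊ else 0 := ⟨_, rfl⟩
  have hNi : ∀ i (hi : i < r * s), N i = ⌊x (e ⟨i, hi⟩).2⌋₊ := by
    intro i hi
    rw [hN]
    simp only [hi, dif_pos]
  have hti : ∀ i (hi : i < r * s), t' i = t (e ⟨i, hi⟩).1 := by
    intro i hi
    rw [ht']
    simp only [hi, dif_pos]
  have hx3 : ∀ i, (N₀ : ℝ) + 3 ≤ x i := fun i => hx i
  have hfl : ∀ i, N₀ + 3 ≤ ⌊x i⌋₊ := by
    intro i
    apply Nat.le_floor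
    push_cast
    exact hx3 i
  have h1 := hN₀ N (by
    intro i hi
    rw [hNi i hi]
    have := hfl (e ⟨i, hi⟩).2
    omega) H (by
    have h1 : (N₀ : ℝ) ≤ H := by linarith
    exact_mod_cast h1) (by
    intro i hi
    rw [hNi i hi, hti i hi]
    constructor
    · refine le_trans (mul_le_mul_of_nonneg_left ?_ hlam.le) (hl (e ⟨i, hi⟩).2)
      apply Real.log_le_log
      · have := hfl (e ⟨i, hi⟩).2
        exact_mod_cast (by omega : 0 < ⌊x (e ⟨i, hi⟩).2⌋₊)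
      · apply Nat.floor_le
        have := hx3 (e ⟨i, hi⟩).2
        have h0 : (0 : ℝ) ≤ N₀ := Nat.cast_nonneg _
        linarith
    · apply Nat.le_floor
      push_cast
      exact hxH _ _) A hA hAd χ
  refine h1.trans ?_
  rw [Nat.cast_le]
  apply card_le_card
  intro Q hQ
  obtain ⟨h2, h3, h4⟩ := mem_filter.1 hQ
  refine mem_filter.2 ⟨h2, h3, fun a ha b hb hab j => ?_⟩
  obtain ⟨h4e, h4g⟩ := h4 a ha b hb hab
  refine ⟨h4e j, fun i => ?_⟩
  obtain ⟨k, hk⟩ : ∃ k : Fin (r * s), e k = (j, i) := ⟨finProdFinEquiv (j, i), by rw [he]; simp⟩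
  have h5 := h4g k.1 k.2
  rw [hNi k.1 k.2, hti k.1 k.2] at h5
  have h6 : e ⟨k.1, k.2⟩ = (j, i) := hk
  rw [h6] at h5
  simp only at h5
  obtain ⟨n, hn⟩ : ∃ n, n = ⌊x i⌋₊ := ⟨_, rfl⟩
  have hx0 : (0 : ℝ) ≤ x i := by
    have := hx3 i
    have h0 : (0 : ℝ) ≤ N₀ := Nat.cast_nonneg _
    linarith
  have hnx : (n : ℝ) ≤ x i := by rw [hn]; exact Nat.floor_le hx0
  have hxn : x i < n + 1 := by rw [hn]; exact Nat.lt_floor_add_one _
  have hn3 : N₀ + 3 ≤ n := by rw [hn]; exact hfl i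
  have hn3R : (3 : ℝ) ≤ n := by exact_mod_cast (by omega : 3 ≤ n)
  have hln : 0 < Real.log n := Real.log_pos (by linarith)
  have hlnx : Real.log n ≤ Real.log (x i) := Real.log_le_log (by linarith) hnx
  unfold pi2 at h5
  unfold pi2R
  rw [← hn] at h5 ⊢
  refine le_trans ?_ h5
  have h7 : x i / Real.log (x i) ^ 2 ≤ 2 * (n / Real.log n ^ 2) := by
    rw [← mul_div_assoc]
    apply div_le_div₀ (by linarith) (by linarith) (by positivity)
    exact pow_le_pow_left₀ hln.le hlnx 2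
  have h8 := S_nonneg (t j * (b - a))
  calc κ / 2 * (S (t j * (b - a)) * (x i / Real.log (x i) ^ 2)) ≤
      κ / 2 * (S (t j * (b - a)) * (2 * (n / Real.log n ^ 2))) := by
        apply mul_le_mul_of_nonneg_left _ (by positivity)
        exact mul_le_mul_of_nonneg_left h7 h8
    _ = _ := by ring

end Pool.Agent.L7h36.DS
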